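import Mathlib

namespace Pool.Agent.Lib.MP_b95a42_nt

open Finset Filter Topology MeasureTheory

lemma sum_range_mod {m : ℕ} [NeZero m] (χ : DirichletCharacter ℂ m) (hχ : χ ≠ 1) (n : ℕ) :
    ∑ k ∈ range n, χ (k : ZMod m) = ∑ k ∈ range (n % m), χ (k : ZMod m) := by
  have hfull : ∑ k ∈ range m, χ (k : ZMod m) = 0 := by
    rw [← MulChar.sum_eq_zero_of_ne_one hχ]
    refine sum_bij (fun k _ => (k : ZMod m)) (fun _ _ => mem_univ _) ?_ ?_ (fun _ _ => rfl)
    · intro a ha b hb hab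
      rw [mem_range] at ha hb
      have := (ZMod.natCast_eq_natCast_iff' a b m).mp hab
      rwa [Nat.mod_eq_of_lt ha, Nat.mod_eq_of_lt hb] at this
    · intro b _
      exact ⟨b.val, mem_range.mpr (ZMod.val_lt b), by simp⟩
  induction n using Nat.strong_induction_on with
  | _ n ih =>
    rcases lt_or_ge n m with h | h
    · rw [Nat.mod_eq_of_lt h]
    · obtain ⟨l, rfl⟩ := Nat.exists_eq_add_of_le h
      rw [sum_range_add, hfull, zero_add]
      have h1 : ∀ k ∈ range l, χ ((m + k : ℕ) : ZMod m) = χ (k : ZMod m) := by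
        intro k _
        simp
      rw [sum_congr rfl h1, ih l (by have := NeZero.pos m; omega)]
      simp

lemma norm_sum_range_le {m : ℕ} [NeZero m] (χ : DirichletCharacter ℂ m) (hχ : χ ≠ 1) (n : ℕ) :
    ‖∑ k ∈ range n, χ (k : ZMod m)‖ ≤ m := by
  rw [sum_range_mod χ hχ]
  calc ‖∑ k ∈ range (n % m), χ (k : ZMod m)‖ ≤ ∑ k ∈ range (n % m), ‖χ (k : ZMod m)‖ :=
        norm_sum_le _ _
    _ ≤ ∑ _k ∈ range (n % m), (1 : ℝ) := sum_le_sum (fun k _ => χ.norm_le_one _)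
    _ = ((n % m : ℕ) : ℝ) := by simp
    _ ≤ m := by exact_mod_cast (Nat.mod_lt _ (NeZero.pos m)).le

lemma norm_sum_Icc_le {m : ℕ} [NeZero m] (χ : DirichletCharacter ℂ m) (hχ : χ ≠ 1) (n : ℕ) :
    ‖∑ k ∈ Icc 0 n, χ (k : ZMod m)‖ ≤ m := by
  have : Icc 0 n = range (n + 1) := by
    ext x
    simp
  rw [this]
  exact norm_sum_range_le χ hχ _

/-- partial sums function -/
noncomputable def Sf {m : ℕ} (χ : DirichletCharacter ℂ m) (t : ℝ) : ℂ :=
  ∑ k ∈ Icc 0 ⌊t⌋₊, χ (k : ZMod m)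

lemma measurable_Sf {m : ℕ} (χ : DirichletCharacter ℂ m) : Measurable (Sf χ) := by
  unfold Sf
  exact (measurable_from_nat (f := fun n : ℕ => ∑ k ∈ Icc 0 n, χ (k : ZMod m))).comp
    Nat.measurable_floor

lemma LFunction_one_eq_integral {m : ℕ} [NeZero m] (χ : DirichletCharacter ℂ m) (hχ : χ ≠ 1)
    (h0 : χ 0 = 0) :
    DirichletCharacter.LFunction χ 1 = ∫ t in Set.Ioi (1 : ℝ), Sf χ t * (t : ℂ) ^ (-2 : ℂ) := by
  have hcont : Tendsto (fun s : ℝ => DirichletCharacter.LFunction χ (s : ℂ)) (𝓝[>] 1)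
      (𝓝 (DirichletCharacter.LFunction χ 1)) := by
    have h1 : ContinuousAt (DirichletCharacter.LFunction χ) 1 :=
      (DirichletCharacter.differentiable_LFunction hχ).continuous.continuousAt
    have h2 : Tendsto (fun s : ℝ => (s : ℂ)) (𝓝[>] 1) (𝓝 (1 : ℂ)) := by
      have : Tendsto (fun s : ℝ => (s : ℂ)) (𝓝 1) (𝓝 ((1 : ℝ) : ℂ)) :=
        Complex.continuous_ofReal.continuousAt
      simpa using this.mono_left nhdsWithin_le_nhds
    exact h1.tendsto.comp h2
  have hrepr : ∀ s : ℝ, 1 < s → DirichletCharacter.LFunction χ (s : ℂ) =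
      s * ∫ t in Set.Ioi (1 : ℝ), Sf χ t * (t : ℂ) ^ (-((s : ℂ) + 1)) := by
    intro s hs
    have hs' : 1 < (s : ℂ).re := by simpa using hs
    rw [DirichletCharacter.LFunction_eq_LSeries χ hs']
    have hO : (fun n : ℕ => ∑ k ∈ Icc 1 n, χ (k : ZMod m)) =O[atTop] fun n => (n : ℝ) ^ (0 : ℝ) := by
      simp only [Real.rpow_zero]
      refine Asymptotics.IsBigO.of_bound (m : ℝ) ?_
      filter_upwards with n
      have : ∑ k ∈ Icc 1 n, χ (k : ZMod m) = ∑ k ∈ Icc 0 n, χ (k : ZMod m) := by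
        rw [← insert_Icc_add_one_left_eq_Icc (Nat.zero_le n), sum_insert (by simp)]
        simp [h0]
      rw [this]
      simpa using norm_sum_Icc_le χ hχ n
    rw [LSeries_eq_mul_integral (fun n : ℕ => χ (n : ZMod m)) le_rfl
      (by simp; linarith) (DirichletCharacter.LSeriesSummable_of_one_lt_re χ hs') hO]
    congr 2
    funext t
    have : ∑ k ∈ Icc 1 ⌊t⌋₊, χ (k : ZMod m) = Sf χ t := by
      unfold Sf
      rw [← insert_Icc_add_one_left_eq_Icc (Nat.zero_le ⌊t⌋₊), sum_insert (by simp)]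
      simp [h0]
    rw [this]
  have hlim : Tendsto (fun s : ℝ => (s : ℂ) * ∫ t in Set.Ioi (1 : ℝ),
      Sf χ t * (t : ℂ) ^ (-((s : ℂ) + 1))) (𝓝[>] 1)
      (𝓝 (((1 : ℝ) : ℂ) * ∫ t in Set.Ioi (1 : ℝ), Sf χ t * (t : ℂ) ^ (-2 : ℂ))) := by
    apply Tendsto.mul
    · exact (Complex.continuous_ofReal.continuousAt).tendsto.mono_left nhdsWithin_le_nhds
    · refine tendsto_integral_filter_of_dominated_convergence
        (fun t => (m : ℝ) * t ^ (-2 : ℝ)) ?_ ?_ ?_ ?_
      · filter_upwards with s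
        apply Measurable.aestronglyMeasurable
        apply (measurable_Sf χ).mul
        fun_prop
      · filter_upwards [self_mem_nhdsWithin] with s hs
        filter_upwards [ae_restrict_mem measurableSet_Ioi] with t ht
        rw [Set.mem_Ioi] at hs ht
        rw [norm_mul]
        have h1 : ‖(t : ℂ) ^ (-((s : ℂ) + 1))‖ = t ^ (-(s + 1)) := by
          rw [Complex.norm_cpow_eq_rpow_re_of_pos (by linarith)]
          simp
        rw [h1]
        have h2 : t ^ (-(s + 1)) ≤ t ^ (-2 : ℝ) := by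
          apply Real.rpow_le_rpow_of_exponent_le ht.le
          linarith
        have h3 : ‖Sf χ t‖ ≤ m := norm_sum_Icc_le χ hχ _
        gcongr
      · apply Integrable.const_mul
        exact integrableOn_Ioi_rpow_of_lt (by norm_num) zero_lt_one
      · filter_upwards [ae_restrict_mem measurableSet_Ioi] with t ht
        rw [Set.mem_Ioi] at ht
        apply Tendsto.mul tendsto_const_nhds
        have hc : ContinuousAt (fun s : ℝ => (t : ℂ) ^ (-((s : ℂ) + 1))) 1 := by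
          apply ContinuousAt.const_cpow
          · fun_prop
          · left
            have : (0 : ℝ) < t := by linarith
            exact_mod_cast this.ne'
        have h4 := hc.tendsto.mono_left (nhdsWithin_le_nhds (s := Set.Ioi (1 : ℝ)))
        have h5 : -(((1 : ℝ) : ℂ) + 1) = -2 := by push_cast; norm_num
        rwa [h5] at h4
  have heq : (fun s : ℝ => DirichletCharacter.LFunction χ (s : ℂ)) =ᶠ[𝓝[>] 1]
      (fun s : ℝ => (s : ℂ) * ∫ t in Set.Ioi (1 : ℝ), Sf χ t * (t : ℂ) ^ (-((s : ℂ) + 1))) := by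
    filter_upwards [self_mem_nhdsWithin] with s hs
    exact hrepr s hs
  have := tendsto_nhds_unique (hcont.congr' heq) hlim
  rw [this]
  simp

lemma tendsto_partial_sum {m : ℕ} [NeZero m] (χ : DirichletCharacter ℂ m) (hχ : χ ≠ 1)
    (h0 : χ 0 = 0) :
    Tendsto (fun n : ℕ => ∑ k ∈ Icc 0 n, ((k : ℝ) : ℂ)⁻¹ * χ (k : ZMod m)) atTop
      (𝓝 (DirichletCharacter.LFunction χ 1)) := by
  have hderiv : ∀ t : ℝ, t ∈ Set.Ici (1 : ℝ) →
      HasDerivAt (fun x : ℝ => ((x : ℂ))⁻¹) (-((t : ℂ) ^ 2)⁻¹) t := by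
    intro t ht
    rw [Set.mem_Ici] at ht
    have h1 : HasDerivAt (fun z : ℂ => z⁻¹) (-((t : ℂ) ^ 2)⁻¹) (t : ℂ) :=
      hasDerivAt_inv (by exact_mod_cast (by linarith : t ≠ 0))
    exact h1.comp_ofReal
  have hder : ∀ t : ℝ, t ∈ Set.Ici (1 : ℝ) →
      deriv (fun x : ℝ => ((x : ℂ))⁻¹) t = (-((t : ℂ) ^ 2)⁻¹) := fun t ht => (hderiv t ht).deriv
  have hlim : Tendsto (fun n : ℕ => (((n : ℝ) : ℂ))⁻¹ * ∑ k ∈ Icc 0 n, χ (k : ZMod m)) atTop
      (𝓝 0) := by
    rw [tendsto_zero_iff_norm_tendsto_zero]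
    have h1 : Tendsto (fun n : ℕ => ((n : ℝ))⁻¹ * (m : ℝ)) atTop (𝓝 (0 * (m : ℝ))) :=
      (tendsto_inv_atTop_nhds_zero_nat).mul tendsto_const_nhds
    rw [zero_mul] at h1
    refine squeeze_zero (fun _ => norm_nonneg _) (fun n => ?_) h1
    rw [norm_mul]
    have h2 : ‖(((n : ℝ) : ℂ))⁻¹‖ = ((n : ℝ))⁻¹ := by simp
    rw [h2]
    have := norm_sum_Icc_le χ hχ n
    gcongr
  have hcontOn : ContinuousOn (fun t : ℝ => (-((t : ℂ) ^ 2)⁻¹)) (Set.Ici 1) := by
    intro t ht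
    rw [Set.mem_Ici] at ht
    have : (t : ℂ) ^ 2 ≠ 0 := pow_ne_zero _ (by exact_mod_cast (by linarith : t ≠ 0))
    apply ContinuousAt.continuousWithinAt
    fun_prop (disch := assumption)
  have hmain := tendsto_sum_mul_atTop_nhds_one_sub_integral₀ (𝕜 := ℂ)
    (f := fun x : ℝ => ((x : ℂ))⁻¹) (c := fun k : ℕ => χ (k : ZMod m)) (by simpa using h0)
    (fun t ht => (hderiv t ht).differentiableAt)
    ?_ hlim (g := fun t : ℝ => t ^ (-2 : ℝ)) ?_ ?_
  · convert hmain using 2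
    rw [LFunction_one_eq_integral χ hχ h0, zero_sub, ← integral_neg]
    apply setIntegral_congr_fun measurableSet_Ioi
    intro t ht
    rw [Set.mem_Ioi] at ht
    simp only
    rw [hder t ht.le]
    unfold Sf
    have : (t : ℂ) ^ (-2 : ℂ) = ((t : ℂ) ^ 2)⁻¹ := by
      rw [Complex.cpow_neg]
      norm_cast
    rw [this]
    ring
  · apply ContinuousOn.locallyIntegrableOn _ measurableSet_Ici
    exact hcontOn.congr (fun t ht => hder t ht)
  · refine Asymptotics.IsBigO.of_bound (m : ℝ) ?_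
    filter_upwards [eventually_ge_atTop 1] with t ht
    rw [hder t ht, norm_mul]
    have h1 : ‖-((t : ℂ) ^ 2)⁻¹‖ = t ^ (-2 : ℝ) := by
      rw [norm_neg, norm_inv, norm_pow, Complex.norm_real, Real.norm_of_nonneg (by linarith),
        Real.rpow_neg (by linarith)]
      norm_cast
    rw [h1]
    have h2 : ‖t ^ (-2 : ℝ)‖ = t ^ (-2 : ℝ) := Real.norm_of_nonneg (Real.rpow_nonneg (by linarith) _)
    rw [h2, mul_comm]
    have := norm_sum_Icc_le χ hχ ⌊t⌋₊
    have h3 : 0 ≤ t ^ (-2 : ℝ) := Real.rpow_nonneg (by linarith) _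
    gcongr
  · exact integrableAtFilter_rpow_atTop_iff.mpr (by norm_num)

end Pool.Agent.Lib.MP_b95a42_nt
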