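import Mathlib
import Pool.Agent.Lib.MP_b95a42_nt.LOne

namespace Pool.Agent.Lib.MP_b95a42_nt

open Finset Filter Topology

lemma arg_one_sub_exp {x : ℝ} (h0 : 0 < x) (h1 : x < 1) :
    (1 - Complex.exp (2 * Real.pi * Complex.I * x)).arg = Real.pi * (x - 1 / 2) := by
  have hs : 0 < Real.sin (Real.pi * x) := by
    apply Real.sin_pos_of_pos_of_lt_pi
    · positivity
    · nlinarith [Real.pi_pos]
  have heq : 1 - Complex.exp (2 * Real.pi * Complex.I * x) =
      ((2 * Real.sin (Real.pi * x) : ℝ) : ℂ) *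
        (Complex.cos (((Real.pi * (x - 1 / 2) : ℝ)) : ℂ) +
          Complex.sin (((Real.pi * (x - 1 / 2) : ℝ)) : ℂ) * Complex.I) := by
    have e1 : (2 * Real.pi * Complex.I * x : ℂ) = ((2 * (Real.pi * x) : ℝ) : ℂ) * Complex.I := by
      push_cast
      ring
    rw [e1, Complex.exp_mul_I]
    have e2 : Real.pi * (x - 1 / 2) = Real.pi * x - Real.pi / 2 := by ring
    rw [e2, ← Complex.ofReal_cos, ← Complex.ofReal_sin, ← Complex.ofReal_cos,
      ← Complex.ofReal_sin, Real.cos_sub_pi_div_two, Real.sin_sub_pi_div_two,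
      Real.cos_two_mul, Real.sin_two_mul]
    have e3 : Real.cos (Real.pi * x) ^ 2 = 1 - Real.sin (Real.pi * x) ^ 2 := by
      rw [← Real.sin_sq_add_cos_sq (Real.pi * x)]
      ring
    rw [e3]
    push_cast
    ring
  rw [heq, Complex.arg_real_mul _ (by positivity), Complex.arg_cos_add_sin_mul_I]
  constructor
  · nlinarith [Real.pi_pos]
  · nlinarith [Real.pi_pos]

lemma stdAddChar_eq {m : ℕ} [NeZero m] (u : ZMod m) :
    (ZMod.stdAddChar u : ℂ) = Complex.exp (2 * Real.pi * Complex.I * ((u.val : ℝ) / m : ℝ)) := by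
  have := ZMod.stdAddChar_coe (N := m) (u.val : ℤ)
  have h2 : (((u.val : ℤ)) : ZMod m) = u := by simp
  rw [h2] at this
  rw [this]
  congr 1
  push_cast
  ring

lemma gaussSum_ne_zero_of_primitive {m : ℕ} [NeZero m] {χ : DirichletCharacter ℂ m}
    (hχ : χ.IsPrimitive) : gaussSum χ (ZMod.stdAddChar (N := m)) ≠ 0 := by
  intro h
  have h1 : ZMod.dft (χ : ZMod m → ℂ) = 0 := by
    funext k
    have := hχ.fourierTransform_eq_inv_mul_gaussSum k
    rw [h, mul_zero] at this
    exact this
  have h2 : (χ : ZMod m → ℂ) = 0 := by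
    have := ZMod.dft.map_eq_zero_iff.mp h1
    exact this
  have h3 := congrFun h2 1
  simp at h3

lemma one_sub_stdAddChar_re_pos {m : ℕ} [NeZero m] {u : ZMod m} (hu : u ≠ 0) :
    0 < (1 - (ZMod.stdAddChar u : ℂ)).re := by
  have hne : (ZMod.stdAddChar u : ℂ) ≠ 1 := by
    intro h
    apply hu
    apply ZMod.injective_stdAddChar
    rw [h]
    simp
  have hnorm : ‖(ZMod.stdAddChar u : ℂ)‖ = 1 := AddChar.norm_apply _ _
  have hle : (ZMod.stdAddChar u : ℂ).re ≤ 1 := by
    calc _ ≤ ‖(ZMod.stdAddChar u : ℂ)‖ := Complex.re_le_norm _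
      _ = 1 := hnorm
  rw [Complex.sub_re, Complex.one_re, sub_pos]
  rcases hle.lt_or_eq with h | h
  · exact h
  · exfalso
    apply hne
    have h2 := Complex.sq_norm (ZMod.stdAddChar u : ℂ)
    rw [hnorm, Complex.normSq_apply, h] at h2
    have him : (ZMod.stdAddChar u : ℂ).im = 0 := by
      have : (ZMod.stdAddChar u : ℂ).im * (ZMod.stdAddChar u : ℂ).im = 0 := by linarith
      exact mul_self_eq_zero.mp this
    apply Complex.ext
    · simpa using h
    · simpa using him

lemma tendsto_range_partial {m : ℕ} [NeZero m] (χ : DirichletCharacter ℂ m) (hχ : χ ≠ 1)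
    (h0 : χ 0 = 0) :
    Tendsto (fun n : ℕ => ∑ k ∈ range n, ((k : ℂ))⁻¹ * χ (k : ZMod m)) atTop
      (𝓝 (DirichletCharacter.LFunction χ 1)) := by
  have h := tendsto_partial_sum χ hχ h0
  rw [← tendsto_add_atTop_iff_nat 1]
  refine h.congr (fun n => ?_)
  have : Icc 0 n = range (n + 1) := by
    ext x
    simp
  rw [this]
  apply sum_congr rfl
  intro k _
  simp

/-- Main identity: `L(χ⁻¹,1) G(χ) = - ∑ χ(u) log(1 - e(u/m))`. -/
lemma LFunction_mul_gaussSum {m : ℕ} [NeZero m] {χ : DirichletCharacter ℂ m}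
    (hprim : χ.IsPrimitive) (hχ : χ ≠ 1) (h0 : χ 0 = 0) :
    DirichletCharacter.LFunction χ⁻¹ 1 * gaussSum χ (ZMod.stdAddChar (N := m)) =
      - ∑ u : ZMod m, χ u * Complex.log (1 - ZMod.stdAddChar u) := by
  have hinv : χ⁻¹ ≠ 1 := by simpa using hχ
  have h0' : χ⁻¹ 0 = 0 := by
    rw [MulChar.inv_apply_eq_inv', h0, inv_zero]
  have h1 := Complex.tendsto_tsum_powerSeries_nhdsWithin_lt (tendsto_range_partial χ⁻¹ hinv h0')
  rw [tendsto_map'_iff] at h1
  have h2 : Tendsto (fun x : ℝ => (∑' n : ℕ, ((n : ℂ))⁻¹ * χ⁻¹ (n : ZMod m) * (x : ℂ) ^ n) *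
      gaussSum χ (ZMod.stdAddChar (N := m))) (𝓝[<] 1)
      (𝓝 (DirichletCharacter.LFunction χ⁻¹ 1 * gaussSum χ (ZMod.stdAddChar (N := m)))) :=
    Tendsto.mul h1 tendsto_const_nhds
  have h3 : Tendsto (fun x : ℝ => - ∑ u : ZMod m, χ u * Complex.log (1 - x * ZMod.stdAddChar u))
      (𝓝[<] 1) (𝓝 (- ∑ u : ZMod m, χ u * Complex.log (1 - ZMod.stdAddChar u))) := by
    apply Tendsto.neg
    apply tendsto_finsetSum
    intro u _
    by_cases hu : u = 0
    · subst hu
      simp [h0]
    · apply Tendsto.mul tendsto_const_nhds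
      have hc : ContinuousAt (fun x : ℝ => Complex.log (1 - x * (ZMod.stdAddChar u : ℂ))) 1 := by
        apply ContinuousAt.clog
        · fun_prop
        · left
          have := one_sub_stdAddChar_re_pos hu
          simpa using this
      have := hc.tendsto.mono_left (nhdsWithin_le_nhds (s := Set.Iio (1 : ℝ)))
      simpa using this
  have heq : (fun x : ℝ => (∑' n : ℕ, ((n : ℂ))⁻¹ * χ⁻¹ (n : ZMod m) * (x : ℂ) ^ n) *
      gaussSum χ (ZMod.stdAddChar (N := m))) =ᶠ[𝓝[<] 1]
      (fun x : ℝ => - ∑ u : ZMod m, χ u * Complex.log (1 - x * ZMod.stdAddChar u)) := by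
    have hpos : ∀ᶠ x : ℝ in 𝓝[<] 1, 0 < x := by
      apply mem_nhdsWithin_of_mem_nhds
      exact Ioi_mem_nhds zero_lt_one
    filter_upwards [self_mem_nhdsWithin, hpos] with x hx hx0
    rw [Set.mem_Iio] at hx
    rw [← tsum_mul_right]
    have hterm : ∀ n : ℕ, ((n : ℂ))⁻¹ * χ⁻¹ (n : ZMod m) * (x : ℂ) ^ n *
        gaussSum χ (ZMod.stdAddChar (N := m)) =
        ∑ u : ZMod m, χ u * (((x : ℂ) * ZMod.stdAddChar u) ^ n / n) := by
      intro n
      have hg := gaussSum_mulShift_of_isPrimitive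
        (ZMod.stdAddChar (N := m)) hprim (n : ZMod m)
      calc ((n : ℂ))⁻¹ * χ⁻¹ (n : ZMod m) * (x : ℂ) ^ n * gaussSum χ (ZMod.stdAddChar (N := m))
          = ((n : ℂ))⁻¹ * (x : ℂ) ^ n * (χ⁻¹ (n : ZMod m) * gaussSum χ (ZMod.stdAddChar (N := m))) := by
            ring
        _ = ((n : ℂ))⁻¹ * (x : ℂ) ^ n * ∑ u : ZMod m, χ u * (ZMod.stdAddChar u) ^ n := by
            rw [← hg, gaussSum]
            congr 1
            apply sum_congr rfl
            intro u _
            rw [AddChar.mulShift_apply]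
            congr 1
            rw [← AddChar.map_nsmul_eq_pow]
            simp
        _ = _ := by
            rw [mul_sum]
            apply sum_congr rfl
            intro u _
            rw [mul_pow]
            ring
    rw [tsum_congr hterm]
    have hnorm : ∀ u : ZMod m, ‖(x : ℂ) * ZMod.stdAddChar u‖ < 1 := by
      intro u
      rw [norm_mul, AddChar.norm_apply, mul_one, Complex.norm_real, Real.norm_of_nonneg hx0.le]
      exact hx
    have hsum : ∀ u : ZMod m, HasSum (fun n : ℕ => χ u * (((x : ℂ) * ZMod.stdAddChar u) ^ n / n))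
        (χ u * (-Complex.log (1 - (x : ℂ) * ZMod.stdAddChar u))) := by
      intro u
      exact (Complex.hasSum_taylorSeries_neg_log (hnorm u)).mul_left _
    rw [(hasSum_sum (fun u _ => hsum u)).tsum_eq]
    rw [← sum_neg_distrib]
    apply sum_congr rfl
    intro u _
    ring
  exact tendsto_nhds_unique (h2.congr' heq) h3

/-- For a primitive odd Dirichlet character, `∑ χ(u) u ≠ 0`. -/
theorem sum_mul_val_ne_zero {m : ℕ} [NeZero m] {χ : DirichletCharacter ℂ m}
    (hprim : χ.IsPrimitive) (hodd : χ.Odd) : ∑ u : ZMod m, χ u * (u.val : ℂ) ≠ 0 := by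
  intro hM
  have hχ : χ ≠ 1 := by
    rintro rfl
    have : (1 : DirichletCharacter ℂ m) (-1) = -1 := hodd
    rw [MulChar.one_apply (IsUnit.neg isUnit_one)] at this
    norm_num at this
  have h0 : χ 0 = 0 := by
    by_contra h
    have hunit : IsUnit (0 : ZMod m) := by
      by_contra hnu
      exact h (χ.map_nonunit hnu)
    have h10 : (0 : ZMod m) = 1 := isUnit_zero_iff.mp hunit
    have h2 : χ (-1) = -1 := hodd
    rw [← h10, neg_zero, h10, map_one] at h2
    norm_num at h2
  have hmain := LFunction_mul_gaussSum hprim hχ h0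
  have hoddval : ∀ u : ZMod m, χ (-u) = - χ u := by
    intro u
    have : χ (-u) = χ (-1) * χ u := by rw [← map_mul]; simp
    rw [this, hodd]
    ring
  have hsumχ : ∑ u : ZMod m, χ u = 0 := MulChar.sum_eq_zero_of_ne_one hχ
  -- the log sum
  have hlog : ∑ u : ZMod m, χ u * Complex.log (1 - ZMod.stdAddChar u) = 0 := by
    have hneg : ∑ u : ZMod m, χ u * Complex.log (1 - ZMod.stdAddChar u) =
        - ∑ u : ZMod m, χ u * Complex.log (1 - ZMod.stdAddChar (-u)) := by
      rw [← sum_neg_distrib, ← Equiv.sum_comp (Equiv.neg (ZMod m))]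
      apply sum_congr rfl
      intro u _
      simp only [Equiv.neg_apply]
      rw [hoddval]
      ring
    have hdiff : ∀ u : ZMod m, χ u * Complex.log (1 - ZMod.stdAddChar u) -
        χ u * Complex.log (1 - ZMod.stdAddChar (-u)) =
        χ u * (2 * Complex.I * (Real.pi * (((u.val : ℝ) / m : ℝ) - 1 / 2))) := by
      intro u
      by_cases hu : u = 0
      · subst hu
        simp [h0]
      · have hre := one_sub_stdAddChar_re_pos hu
        have hconj : (1 - (ZMod.stdAddChar (-u) : ℂ)) =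
            (starRingEnd ℂ) (1 - (ZMod.stdAddChar u : ℂ)) := by
          rw [map_sub, map_one, AddChar.map_neg_eq_conj]
        have harg : (1 - (ZMod.stdAddChar u : ℂ)).arg ≠ Real.pi := by
          intro h
          rw [Complex.arg_eq_pi_iff] at h
          linarith [h.1]
        rw [hconj, Complex.log_conj _ harg, ← mul_sub, Complex.sub_conj, Complex.log_im]
        have hx0 : 0 < (u.val : ℝ) / m := by
          have h1 : 0 < u.val := Nat.pos_of_ne_zero (by rwa [Ne, ZMod.val_eq_zero])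
          have h2 : 0 < m := NeZero.pos m
          positivity
        have hx1 : (u.val : ℝ) / m < 1 := by
          rw [div_lt_one (by exact_mod_cast NeZero.pos m)]
          exact_mod_cast ZMod.val_lt u
        rw [stdAddChar_eq, arg_one_sub_exp hx0 hx1]
        push_cast
        ring
    have h2 : (2 : ℂ) * ∑ u : ZMod m, χ u * Complex.log (1 - ZMod.stdAddChar u) =
        ∑ u : ZMod m, χ u * (2 * Complex.I * (Real.pi * (((u.val : ℝ) / m : ℝ) - 1 / 2))) := by
      rw [← sum_congr rfl (fun u _ => hdiff u), sum_sub_distrib]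
      linear_combination hneg
    have h3 : ∑ u : ZMod m, χ u * (2 * Complex.I * (Real.pi * (((u.val : ℝ) / m : ℝ) - 1 / 2))) =
        (2 * Complex.I * Real.pi / m) * ∑ u : ZMod m, χ u * (u.val : ℂ) -
          (Complex.I * Real.pi) * ∑ u : ZMod m, χ u := by
      rw [mul_sum, mul_sum, ← sum_sub_distrib]
      apply sum_congr rfl
      intro u _
      push_cast
      ring
    rw [h3, hM, hsumχ, mul_zero, mul_zero, sub_zero] at h2
    exact (mul_eq_zero.mp h2).resolve_left two_ne_zero
  rw [hlog, neg_zero] at hmain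
  rcases mul_eq_zero.mp hmain with h | h
  · have hinv : χ⁻¹ ≠ 1 := by simpa using hχ
    exact DirichletCharacter.LFunction_apply_one_ne_zero hinv h
  · exact gaussSum_ne_zero_of_primitive hprim h

end Pool.Agent.Lib.MP_b95a42_nt
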