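import Mathlib

/-!
# Orthogonality and a Mellin type identity over a finite field
-/

namespace Pool.Agent.Lib.MP_b95a42_nt

open Finset

section

variable {F : Type*} [Field F] [Fintype F] [DecidableEq F]

noncomputable instance instFintypeMulCharC : Fintype (MulChar F ℂ) :=
  Fintype.ofFinite _

omit [DecidableEq F] in
variable (F) in
lemma isCyclic_mulChar : IsCyclic (MulChar F ℂ) := by
  obtain ⟨e⟩ := MulChar.mulEquiv_units F ℂ
  exact isCyclic_of_surjective (e.symm : Fˣ →* MulChar F ℂ) e.symm.surjective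

lemma card_mulChar : Fintype.card (MulChar F ℂ) = Fintype.card Fˣ := by
  have := MulChar.card_eq_card_units_of_hasEnoughRootsOfUnity F ℂ
  rwa [Nat.card_eq_fintype_card, Nat.card_eq_fintype_card] at this

lemma sum_mulChar_apply (a : Fˣ) :
    ∑ θ : MulChar F ℂ, θ (a : F) = if a = 1 then (Fintype.card Fˣ : ℂ) else 0 := by
  split_ifs with ha
  · subst ha
    simp [card_mulChar]
  · have hne : (a : F) ≠ 1 := by
      intro h
      exact ha (Units.ext h)
    obtain ⟨χ, hχ⟩ := MulChar.exists_apply_ne_one_of_hasEnoughRootsOfUnity F ℂ hne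
    have h1 : ∑ θ : MulChar F ℂ, θ (a : F) = ∑ θ : MulChar F ℂ, (χ * θ) (a : F) := by
      symm
      exact Equiv.sum_comp (Equiv.mulLeft χ) (fun θ : MulChar F ℂ => θ (a : F))
    have h2 : ∑ θ : MulChar F ℂ, (χ * θ) (a : F) = χ (a : F) * ∑ θ : MulChar F ℂ, θ (a : F) := by
      rw [mul_sum]
      apply sum_congr rfl
      intro θ _
      rw [MulChar.mul_apply]
    have h3 : (χ (a : F) - 1) * ∑ θ : MulChar F ℂ, θ (a : F) = 0 := by
      rw [sub_mul, one_mul, ← h2, ← h1, sub_self]
    exact (mul_eq_zero.mp h3).resolve_left (sub_ne_zero.mpr hχ)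

lemma sum_units_mulChar (θ : MulChar F ℂ) :
    ∑ t : Fˣ, θ (t : F) = if θ = 1 then (Fintype.card Fˣ : ℂ) else 0 := by
  have h0 : ∑ t : Fˣ, θ (t : F) = ∑ t : F, θ t := by
    refine Fintype.sum_of_injective (fun x : Fˣ => (x : F)) Units.val_injective _ _ ?_ ?_
    · intro i hi
      have : i = 0 := by
        by_contra hne
        exact hi ⟨Units.mk0 i hne, rfl⟩
      rw [this, MulChar.map_zero]
    · intro i
      rfl
  rw [h0]
  split_ifs with h
  · subst h
    exact MulChar.sum_one_eq_card_units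
  · exact MulChar.sum_eq_zero_of_ne_one h

/-- Mellin type identity. -/
lemma mellin (lam : MulChar F ℂ) (m : ℕ) (h : F → ℂ) :
    ∑ t : Fˣ, lam (t : F) * h ((t : F) ^ m) =
      ∑ θ : MulChar F ℂ with θ ^ m = lam, ∑ y : Fˣ, θ (y : F) * h (y : F) := by
  classical
  have hn : (Fintype.card Fˣ : ℂ) ≠ 0 := by
    exact_mod_cast Fintype.card_ne_zero
  -- h(t^m) expansion
  have h1 : ∀ t : Fˣ, (Fintype.card Fˣ : ℂ) * h ((t : F) ^ m) =
      ∑ y : Fˣ, ∑ θ : MulChar F ℂ, θ (y : F) * (θ ^ m)⁻¹ (t : F) * h (y : F) := by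
    intro t
    have h2 : ∀ y : Fˣ, ∑ θ : MulChar F ℂ, θ (y : F) * (θ ^ m)⁻¹ (t : F) * h (y : F) =
        (if y = t ^ m then (Fintype.card Fˣ : ℂ) else 0) * h (y : F) := by
      intro y
      rw [← sum_mul]
      congr 1
      have h3 := sum_mulChar_apply (y * (t ^ m)⁻¹)
      have h4 : (y * (t ^ m)⁻¹ = 1) ↔ y = t ^ m := by
        rw [mul_inv_eq_one]
      simp only [h4] at h3
      rw [← h3]
      apply sum_congr rfl
      intro θ _
      have h6 : (((t ^ m)⁻¹ : Fˣ) : F) = ((t⁻¹ : Fˣ) : F) ^ m := by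
        rw [← inv_pow, Units.val_pow_eq_pow_val]
      rw [Units.val_mul, map_mul, h6, map_pow, ← MulChar.pow_apply_coe, MulChar.inv_apply]
      simp
    rw [sum_congr rfl (fun y _ => h2 y)]
    simp [Finset.sum_ite_eq']
  have h5 : (Fintype.card Fˣ : ℂ) * ∑ t : Fˣ, lam (t : F) * h ((t : F) ^ m) =
      (Fintype.card Fˣ : ℂ) * ∑ θ : MulChar F ℂ with θ ^ m = lam,
        ∑ y : Fˣ, θ (y : F) * h (y : F) := by
    calc (Fintype.card Fˣ : ℂ) * ∑ t : Fˣ, lam (t : F) * h ((t : F) ^ m)
        = ∑ t : Fˣ, lam (t : F) * ((Fintype.card Fˣ : ℂ) * h ((t : F) ^ m)) := by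
          rw [mul_sum]
          apply sum_congr rfl
          intro t _
          ring
      _ = ∑ t : Fˣ, lam (t : F) * ∑ y : Fˣ, ∑ θ : MulChar F ℂ,
            θ (y : F) * (θ ^ m)⁻¹ (t : F) * h (y : F) := by
          apply sum_congr rfl
          intro t _
          rw [h1]
      _ = ∑ θ : MulChar F ℂ, ∑ y : Fˣ, (∑ t : Fˣ, (lam * (θ ^ m)⁻¹) (t : F)) *
            (θ (y : F) * h (y : F)) := by
          simp_rw [mul_sum, sum_mul]
          rw [sum_comm]
          conv_lhs =>
            enter [2, y]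
            rw [sum_comm]
          rw [sum_comm]
          apply sum_congr rfl
          intro θ _
          apply sum_congr rfl
          intro y _
          apply sum_congr rfl
          intro t _
          rw [MulChar.mul_apply]
          ring
      _ = ∑ θ : MulChar F ℂ, ∑ y : Fˣ, (if θ ^ m = lam then (Fintype.card Fˣ : ℂ) else 0) *
            (θ (y : F) * h (y : F)) := by
          apply sum_congr rfl
          intro θ _
          apply sum_congr rfl
          intro y _
          congr 1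
          rw [sum_units_mulChar]
          have : lam * (θ ^ m)⁻¹ = 1 ↔ θ ^ m = lam := by
            rw [mul_inv_eq_one]
            exact eq_comm
          simp only [this]
      _ = ∑ θ : MulChar F ℂ, if θ ^ m = lam then (Fintype.card Fˣ : ℂ) *
            ∑ y : Fˣ, (θ (y : F) * h (y : F)) else 0 := by
          apply sum_congr rfl
          intro θ _
          rw [← mul_sum]
          split_ifs <;> simp
      _ = (Fintype.card Fˣ : ℂ) * ∑ θ : MulChar F ℂ with θ ^ m = lam,
            ∑ y : Fˣ, θ (y : F) * h (y : F) := by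
          rw [← sum_filter, mul_sum]
  exact mul_left_cancel₀ hn h5

end

end Pool.Agent.Lib.MP_b95a42_nt
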