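import Mathlib
import Pool.Agent.Lib.MP_b95a42_nt.Mellin

/-!
# The part of the point count coming from the split torus
-/

namespace Pool.Agent.Lib.MP_b95a42_nt

open Finset

section

variable {F : Type*} [Field F] [Fintype F] [DecidableEq F]

variable (F) in
/-- The quadratic character with complex values. -/
noncomputable def eta : MulChar F ℂ := (quadraticChar F).ringHomComp (Int.castRingHom ℂ)

lemma eta_apply (x : F) : eta F x = ((quadraticChar F x : ℤ) : ℂ) := rfl

lemma eta_sq : (eta F) ^ 2 = 1 := by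
  ext x
  rw [MulChar.pow_apply_coe, eta_apply, MulChar.one_apply_coe]
  have := quadraticChar_sq_one (F := F) x.ne_zero
  exact_mod_cast this

lemma eta_ne_one (hF : ringChar F ≠ 2) : eta F ≠ 1 := by
  intro h
  obtain ⟨a, ha⟩ := quadraticChar_exists_neg_one' (F := F) hF
  have h1 : eta F a = 1 := by rw [h, MulChar.one_apply_coe]
  rw [eta_apply, ha] at h1
  norm_num at h1

lemma eta_inv : (eta F)⁻¹ = eta F := by
  rw [inv_eq_iff_mul_eq_one, ← sq, eta_sq]

lemma eta_sq_apply {a : F} (ha : a ≠ 0) : eta F (a ^ 2) = 1 := by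
  rw [eta_apply, quadraticChar_sq_one' ha]
  norm_num

lemma card_sqrts (hF : ringChar F ≠ 2) (a : F) :
    ((#{y : F | y ^ 2 = a} : ℕ) : ℂ) = 1 + eta F a := by
  have h := quadraticChar_card_sqrts (F := F) hF a
  have h2 : ({y : F | y ^ 2 = a} : Set F).toFinset = ({y : F | y ^ 2 = a} : Finset F) := by
    ext y
    simp
  rw [h2] at h
  rw [eta_apply]
  have h3 : (((#{y : F | y ^ 2 = a} : ℕ) : ℤ) : ℂ) = ((quadraticChar F a + 1 : ℤ) : ℂ) := by
    rw [h]
  push_cast at h3
  rw [h3]
  ring

/-- Number of `t` with `t + t⁻¹ = x`. -/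
lemma card_add_inv (hF : ringChar F ≠ 2) (x : F) :
    ((#{t : Fˣ | (t : F) + ((t⁻¹ : Fˣ) : F) = x} : ℕ) : ℂ) = 1 + eta F (x ^ 2 - 4) := by
  rw [← card_sqrts hF]
  have h2 : (2 : F) ≠ 0 := Ring.two_ne_zero hF
  congr 1
  refine Finset.card_bij' (fun t _ => 2 * (t : F) - x)
    (fun y hy => Units.mk0 ((y + x) / 2) ?_) ?_ ?_ ?_ ?_
  · intro h0
    simp only [mem_filter, mem_univ, true_and] at hy
    have h3 : y = -x := by
      have := (div_eq_zero_iff.mp h0).resolve_right h2
      linear_combination this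
    rw [h3] at hy
    have : (4 : F) = 0 := by linear_combination hy
    have h4 : (2 : F) * 2 = 0 := by linear_combination this
    rcases mul_eq_zero.mp h4 with h | h <;> exact h2 h
  · intro t ht
    simp only [mem_filter, mem_univ, true_and] at ht ⊢
    have h3 : (t : F) * ((t⁻¹ : Fˣ) : F) = 1 := by simp
    rw [← ht]
    linear_combination (-4) * h3
  · intro y hy
    simp only [mem_filter, mem_univ, true_and] at hy ⊢
    have hne : (y + x) / 2 ≠ 0 := by
      intro h0
      have h3 : y = -x := by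
        have := (div_eq_zero_iff.mp h0).resolve_right h2
        linear_combination this
      rw [h3] at hy
      have : (4 : F) = 0 := by linear_combination hy
      have h4 : (2 : F) * 2 = 0 := by linear_combination this
      rcases mul_eq_zero.mp h4 with h | h <;> exact h2 h
    rw [Units.val_inv_eq_inv_val, Units.val_mk0]
    have hne2 : y + x ≠ 0 := by
      intro h
      exact hne (by rw [h, zero_div])
    field_simp
    linear_combination hy
  · intro t ht
    ext
    simp only [Units.val_mk0]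
    field_simp
    ring
  · intro y hy
    simp only [Units.val_mk0]
    field_simp
    ring

/-- Split torus identity. -/
lemma sum_units_add_inv (hF : ringChar F ≠ 2) (f : F → ℂ) :
    ∑ t : Fˣ, f ((t : F) + ((t⁻¹ : Fˣ) : F)) = ∑ x : F, (1 + eta F (x ^ 2 - 4)) * f x := by
  rw [← Finset.sum_fiberwise (s := (univ : Finset Fˣ))
    (g := fun t : Fˣ => (t : F) + ((t⁻¹ : Fˣ) : F))]
  apply sum_congr rfl
  intro x _
  rw [← card_add_inv hF x]
  rw [Finset.sum_congr rfl (g := fun _ => f x)]
  · rw [sum_const, nsmul_eq_mul]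
  · intro t ht
    simp only [mem_filter, mem_univ, true_and] at ht
    rw [ht]

omit [Fintype F] [DecidableEq F] in
/-- The polynomial `φ_d`. -/
lemma phi_add_inv (t : Fˣ) (d : ℕ) :
    (Polynomial.dickson 1 (1 : F) d).eval ((t : F) + ((t⁻¹ : Fˣ) : F)) =
      (t : F) ^ d + ((t⁻¹ : Fˣ) : F) ^ d :=
  Polynomial.dickson_one_one_eval_add_inv _ _ (by simp) d

/-- `J(θ)`. -/
noncomputable def JJ (θ : MulChar F ℂ) : ℂ := ∑ u : Fˣ, θ (u : F) * eta F (1 + (u : F))

lemma TF_eq (hF : ringChar F ≠ 2) (d : ℕ) :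
    ∑ x : F, (1 + eta F (x ^ 2 - 4)) * eta F ((Polynomial.dickson 1 (1 : F) d).eval x) =
      ∑ θ : MulChar F ℂ with θ ^ (2 * d) = (eta F) ^ d, JJ θ := by
  unfold JJ
  rw [← mellin ((eta F) ^ d) (2 * d) (fun y => eta F (1 + y)),
    ← sum_units_add_inv hF (fun x => eta F ((Polynomial.dickson 1 (1 : F) d).eval x))]
  apply sum_congr rfl
  intro t _
  rw [phi_add_inv, MulChar.pow_apply_coe, ← map_pow, ← map_mul]
  have h1 : (t : F) ^ d * (1 + (t : F) ^ (2 * d)) =
      ((t : F) ^ d + ((t⁻¹ : Fˣ) : F) ^ d) * ((t : F) ^ d) ^ 2 := by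
    have h3 : (t : F) ^ d * ((t⁻¹ : Fˣ) : F) ^ d = 1 := by
      rw [← mul_pow]
      simp
    rw [mul_comm 2 d, pow_mul]
    linear_combination (-(t : F) ^ d) * h3
  rw [h1, map_mul, eta_sq_apply (pow_ne_zero _ t.ne_zero), mul_one]

end

end Pool.Agent.Lib.MP_b95a42_nt
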