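import Mathlib
import Pool.Agent.Lib.MP_b95a42_nt.SumF

/-!
# The part of the point count coming from the non-split torus
-/

namespace Pool.Agent.Lib.MP_b95a42_nt

open Finset

/-- Fibres of the power map in a cyclic group. -/
lemma card_pow_fiber {G : Type*} [CommGroup G] [Fintype G] [DecidableEq G] [IsCyclic G] {a b : ℕ}
    (hab : Fintype.card G = a * b) (w : G) :
    #{s : G | s ^ a = w} = if w ^ b = 1 then a else 0 := by
  have ha : 0 < a := by
    rcases Nat.eq_zero_or_pos a with h | h
    · rw [h, zero_mul] at hab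
      exact absurd hab Fintype.card_ne_zero
    · exact h
  split_ifs with hw
  · obtain ⟨γ, hγ⟩ := IsCyclic.exists_generator (α := G)
    obtain ⟨j, hj⟩ := mem_powers_iff_mem_zpowers.mpr (hγ w)
    simp only at hj
    have hord : orderOf γ = a * b := by
      rw [orderOf_eq_card_of_forall_mem_zpowers hγ, Nat.card_eq_fintype_card, hab]
    have hb : 0 < b := by
      rcases Nat.eq_zero_or_pos b with h | h
      · rw [h, mul_zero] at hab
        exact absurd hab Fintype.card_ne_zero
      · exact h
    have h1 : a * b ∣ j * b := by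
      rw [← hord]
      apply orderOf_dvd_of_pow_eq_one
      rw [pow_mul, hj, hw]
    have h2 : a ∣ j := Nat.dvd_of_mul_dvd_mul_right hb h1
    obtain ⟨i, hi⟩ := h2
    have hs0 : (γ ^ i) ^ a = w := by
      rw [← pow_mul, mul_comm, ← hi, hj]
    have h3 : #{s : G | s ^ a = w} = #{s : G | s ^ a = 1} := by
      refine Finset.card_bij' (fun s _ => s * (γ ^ i)⁻¹) (fun s _ => s * γ ^ i) ?_ ?_ ?_ ?_
      · intro s hs
        simp only [mem_filter, mem_univ, true_and] at hs ⊢
        rw [mul_pow, inv_pow, hs0, hs, mul_inv_cancel]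
      · intro s hs
        simp only [mem_filter, mem_univ, true_and] at hs ⊢
        rw [mul_pow, hs0, hs, one_mul]
      · intro s _
        simp
      · intro s _
        simp
    rw [h3]
    have h4 := IsCyclic.card_powMonoidHom_ker (G := G) a
    rw [Nat.card_eq_fintype_card (α := G), hab, Nat.gcd_eq_right (Dvd.intro _ rfl)] at h4
    have h5 := Nat.subtype_card (p := fun s : G => s ∈ (powMonoidHom a : G →* G).ker)
      ({s : G | s ^ a = 1} : Finset G) (by
        intro s
        simp [MonoidHom.mem_ker])
    exact h5.symm.trans h4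
  · rw [Finset.card_eq_zero, Finset.filter_eq_empty_iff]
    intro s _ hs
    apply hw
    rw [← hs, ← pow_mul, ← hab, pow_card_eq_one]

section

variable {F : Type*} [Field F] [Fintype F] [DecidableEq F]
  {K : Type*} [Field K] [Fintype K] [DecidableEq K] [Algebra F K]

omit [DecidableEq F] [DecidableEq K] in
lemma card_K (hK : Module.finrank F K = 2) : Fintype.card K = Fintype.card F ^ 2 := by
  rw [Module.card_eq_pow_finrank (K := F) (V := K), hK]

omit [DecidableEq F] in
lemma card_units_K (hK : Module.finrank F K = 2) :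
    Fintype.card Kˣ = (Fintype.card F - 1) * (Fintype.card F + 1) := by
  rw [Fintype.card_units, card_K hK]
  have : 1 ≤ Fintype.card F := Fintype.card_pos
  obtain ⟨n, hn⟩ := Nat.exists_eq_add_of_le this
  rw [hn]
  have : (1 + n) ^ 2 = (1 + n - 1) * (1 + n + 1) + 1 := by
    have : 1 + n - 1 = n := by omega
    rw [this]
    ring
  rw [this]
  rfl

omit [DecidableEq F] [DecidableEq K] in
lemma mem_range_of_pow_eq {w : K} (hw : w ^ Fintype.card F = w) :
    ∃ t : F, algebraMap F K t = w := by
  have h : w ∈ Set.range (algebraMap F K) := by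
    rw [IsGalois.mem_range_algebraMap_iff_fixed]
    intro σ
    obtain ⟨i, hi⟩ := (FiniteField.bijective_frobeniusAlgEquivOfAlgebraic_pow F K).2 σ
    simp only at hi
    rw [← hi, AlgEquiv.coe_pow, FiniteField.coe_frobeniusAlgEquivOfAlgebraic_iterate]
    simp only
    have : ∀ n : ℕ, w ^ Fintype.card F ^ n = w := by
      intro n
      induction n with
      | zero => simp
      | succ n ih => rw [pow_succ, pow_mul, ih, hw]
    exact this _
  exact h

omit [DecidableEq F] [DecidableEq K] [Fintype K] in
lemma algebraMap_pow_card (x : F) : (algebraMap F K x) ^ Fintype.card F = algebraMap F K x := by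
  rw [← map_pow, FiniteField.pow_card]

omit [DecidableEq F] [DecidableEq K] [Fintype K] in
lemma add_pow_card_K (x y : K) :
    (x + y) ^ Fintype.card F = x ^ Fintype.card F + y ^ Fintype.card F := by
  have := map_add (FiniteField.frobeniusAlgHom F K) x y
  simpa using this

omit [DecidableEq F] [DecidableEq K] [Fintype F] [Fintype K] in
lemma ringChar_K : ringChar K = ringChar F := by
  have h1 : CharP K (ringChar F) := (Algebra.charP_iff F K (ringChar F)).mp inferInstance
  exact ringChar.eq_iff.mpr h1

omit [DecidableEq F] in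
/-- every element of `F` is a square in `K`. -/
lemma isSquare_algebraMap (hF : ringChar F ≠ 2) (hK : Module.finrank F K = 2) (c : F) (hc : c ≠ 0) :
    eta K (algebraMap F K c) = 1 := by
  have hF' : ringChar K ≠ 2 := by rwa [ringChar_K (F := F)]
  have hne : algebraMap F K c ≠ 0 := by
    rw [Ne, map_eq_zero]
    exact hc
  rw [eta_apply, quadraticChar_eq_pow_of_char_ne_two hF' hne]
  have hodd := FiniteField.odd_card_of_char_ne_two hF
  have h1 : Fintype.card K / 2 = (Fintype.card F - 1) * ((Fintype.card F + 1) / 2) := by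
    have h2 := card_units_K (F := F) hK
    rw [Fintype.card_units] at h2
    have h3 := FiniteField.odd_card_of_char_ne_two hF'
    have h4 : Fintype.card F + 1 = 2 * ((Fintype.card F + 1) / 2) := by omega
    rw [h4] at h2
    have h5 : Fintype.card K - 1 =
      2 * ((Fintype.card F - 1) * ((Fintype.card F + 1) / 2)) := by
      rw [h2]
      have : 2 * ((Fintype.card F + 1) / 2) / 2 = (Fintype.card F + 1) / 2 := by omega
      ring
    omega
  rw [h1, ← map_pow, pow_mul, FiniteField.pow_card_sub_one_eq_one c hc, one_pow, map_one]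
  norm_num

/-- The number of `w` with norm one and `w + w⁻¹ = x`. -/
lemma card_norm_one (hF : ringChar F ≠ 2) (hK : Module.finrank F K = 2) (x : F) :
    ((#{w : Kˣ | w ^ (Fintype.card F + 1) = 1 ∧
      (w : K) + ((w⁻¹ : Kˣ) : K) = algebraMap F K x} : ℕ) : ℂ) = 1 - eta F (x ^ 2 - 4) := by
  have hF' : ringChar K ≠ 2 := by rwa [ringChar_K (F := F)]
  have h2 : (2 : F) ≠ 0 := Ring.two_ne_zero hF
  have h2K : (2 : K) ≠ 0 := Ring.two_ne_zero hF'
  have hodd := FiniteField.odd_card_of_char_ne_two hF
  have hquad : ∀ w : Kˣ, (w : K) + ((w⁻¹ : Kˣ) : K) = algebraMap F K x →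
      (w : K) ^ 2 - algebraMap F K x * w + 1 = 0 := by
    intro w hw
    have h3 : (w : K) * ((w⁻¹ : Kˣ) : K) = 1 := by simp
    linear_combination (w : K) * hw - h3
  by_cases h0 : x ^ 2 - 4 = 0
  · -- one solution
    rw [h0, MulChar.map_zero, sub_zero]
    have hx0 : x / 2 ≠ 0 := by
      intro h
      have : x = 0 := (div_eq_zero_iff.mp h).resolve_right h2
      rw [this] at h0
      have h4 : (2 : F) * 2 = 0 := by linear_combination -h0
      rcases mul_eq_zero.mp h4 with h | h <;> exact h2 h
    have hx1 : (x / 2) ^ 2 = 1 := by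
      field_simp
      linear_combination h0
    let w0 : Kˣ := Units.map (algebraMap F K : F →* K) (Units.mk0 (x / 2) hx0)
    have hw0 : (w0 : K) = algebraMap F K (x / 2) := rfl
    have hw1 : w0 ^ 2 = 1 := by
      ext
      rw [Units.val_pow_eq_pow_val, hw0, ← map_pow, hx1, map_one, Units.val_one]
    have : ({w : Kˣ | w ^ (Fintype.card F + 1) = 1 ∧
      (w : K) + ((w⁻¹ : Kˣ) : K) = algebraMap F K x} : Finset Kˣ) = {w0} := by
      ext w
      simp only [mem_filter, mem_univ, true_and, mem_singleton]
      constructor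
      · rintro ⟨-, hw⟩
        have h3 := hquad w hw
        have h4 : ((w : K) - w0) ^ 2 = 0 := by
          have h5 : (algebraMap F K x) = 2 * (w0 : K) := by
            rw [hw0, map_div₀, map_ofNat]
            field_simp
          have h6 : (w0 : K) ^ 2 = 1 := by
            rw [← Units.val_pow_eq_pow_val, hw1, Units.val_one]
          rw [h5] at h3
          linear_combination h3 + h6
        ext
        exact sub_eq_zero.mp (pow_eq_zero_iff (two_ne_zero) |>.mp h4)
      · rintro rfl
        constructor
        · have : Fintype.card F + 1 = 2 * ((Fintype.card F + 1) / 2) := by omega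
          rw [this, pow_mul, hw1, one_pow]
        · have h7 : w0⁻¹ = w0 := by
            rw [inv_eq_iff_mul_eq_one, ← sq, hw1]
          rw [h7, hw0, ← map_add]
          congr 1
          field_simp
          ring
    rw [this]
    simp
  rcases quadraticChar_dichotomy (F := F) h0 with h1 | h1
  · -- no solution
    rw [eta_apply, h1]
    have : ({w : Kˣ | w ^ (Fintype.card F + 1) = 1 ∧
      (w : K) + ((w⁻¹ : Kˣ) : K) = algebraMap F K x} : Finset Kˣ) = ∅ := by
      rw [Finset.filter_eq_empty_iff]
      rintro w - ⟨hw1, hw2⟩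
      obtain ⟨c, hc⟩ := (quadraticChar_one_iff_isSquare h0).mp h1
      have h3 := hquad w hw2
      have h4 : ((w : K) - algebraMap F K ((x + c) / 2)) *
          ((w : K) - algebraMap F K ((x - c) / 2)) = 0 := by
        have h5 : ((x + c) / 2) * ((x - c) / 2) = 1 := by
          field_simp
          linear_combination hc
        have h6 : ((x + c) / 2) + ((x - c) / 2) = x := by
          field_simp
          ring
        have h5' := congrArg (algebraMap F K) h5
        have h6' := congrArg (algebraMap F K) h6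
        rw [map_mul, map_one] at h5'
        rw [map_add] at h6'
        linear_combination h3 + h5' - (w : K) * h6'
      have h7 : ∃ t : F, (w : K) = algebraMap F K t := by
        rcases mul_eq_zero.mp h4 with h | h
        · exact ⟨_, sub_eq_zero.mp h⟩
        · exact ⟨_, sub_eq_zero.mp h⟩
      obtain ⟨t, ht⟩ := h7
      have h8 : (w : K) ^ 2 = 1 := by
        have h9 : (w : K) ^ (Fintype.card F + 1) = 1 := by
          rw [← Units.val_pow_eq_pow_val, hw1, Units.val_one]
        rw [pow_succ, ht, algebraMap_pow_card, ← ht, ← sq] at h9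
        exact h9
      have h10 : t ^ 2 = 1 := by
        apply (algebraMap F K).injective
        rw [map_pow, ← ht, h8, map_one]
      have h11 : x = 2 * t := by
        apply (algebraMap F K).injective
        have h12 : (w : K) * ((w⁻¹ : Kˣ) : K) = 1 := by simp
        rw [map_mul, map_ofNat, ← hw2, ← ht]
        have h13 : ((w⁻¹ : Kˣ) : K) = w := by
          have := congrArg (fun z => z * ((w⁻¹ : Kˣ) : K)) h8
          linear_combination (-1 : K) * this + (w : K) * h12
        rw [h13]
        ring
      apply h0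
      rw [h11]
      linear_combination 4 * h10
    rw [this]
    simp
  · -- two solutions
    rw [eta_apply, h1]
    have h3 : ({w : Kˣ | w ^ (Fintype.card F + 1) = 1 ∧
      (w : K) + ((w⁻¹ : Kˣ) : K) = algebraMap F K x} : Finset Kˣ) =
      ({w : Kˣ | (w : K) + ((w⁻¹ : Kˣ) : K) = algebraMap F K x} : Finset Kˣ) := by
      ext w
      simp only [mem_filter, mem_univ, true_and, and_iff_right_iff_imp]
      intro hw
      have h4 := hquad w hw
      have h5 : ((w : K) ^ Fintype.card F) + (((w⁻¹ : Kˣ) : K) ^ Fintype.card F) =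
          algebraMap F K x := by
        rw [← add_pow_card_K, hw, algebraMap_pow_card]
      -- (w^q - w) (w^q - w⁻¹) = 0
      have h6 : ((w : K) ^ Fintype.card F) * (((w⁻¹ : Kˣ) : K) ^ Fintype.card F) = 1 := by
        rw [← mul_pow]
        simp
      have h7 : (w : K) * ((w⁻¹ : Kˣ) : K) = 1 := by simp
      have h8 : ((w : K) ^ Fintype.card F - w) * ((w : K) ^ Fintype.card F - ((w⁻¹ : Kˣ) : K)) = 0 := by
        linear_combination ((w : K) ^ Fintype.card F) * (h5 - hw) - h6 + h7
      rcases mul_eq_zero.mp h8 with h | h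
      · exfalso
        obtain ⟨t, ht⟩ := mem_range_of_pow_eq (sub_eq_zero.mp h)
        have ht0 : t ≠ 0 := by
          intro h0'
          rw [h0', map_zero] at ht
          exact w.ne_zero ht.symm
        have h9 : quadraticChar F (x ^ 2 - 4) = 1 := by
          rw [quadraticChar_one_iff_isSquare h0]
          refine ⟨2 * t - x, ?_⟩
          have h10 : t ^ 2 - x * t + 1 = 0 := by
            apply (algebraMap F K).injective
            rw [map_add, map_sub, map_pow, map_mul, ht, map_one, map_zero]
            exact h4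
          linear_combination (-4) * h10
        rw [h1] at h9
        norm_num at h9
      · ext
        rw [Units.val_pow_eq_pow_val, pow_succ, sub_eq_zero.mp h, Units.val_one, mul_comm, h7]
    rw [h3, card_add_inv hF', show (algebraMap F K x) ^ 2 - 4 = algebraMap F K (x ^ 2 - 4) by
      rw [map_sub, map_pow, map_ofNat], isSquare_algebraMap hF hK _ h0]
    norm_num

variable (F) in
/-- `Tr(s²) / N(s)`. -/
noncomputable def XX (s : Kˣ) : F := Algebra.trace F K ((s : K) ^ 2) / Algebra.norm F (s : K)

omit [DecidableEq F] [DecidableEq K] in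
lemma algebraMap_trace (hK : Module.finrank F K = 2) (y : K) :
    algebraMap F K (Algebra.trace F K y) = y + y ^ Fintype.card F := by
  rw [FiniteField.algebraMap_trace_eq_sum_pow, hK, Nat.card_eq_fintype_card]
  simp [Finset.sum_range_succ]

omit [DecidableEq F] [DecidableEq K] in
lemma algebraMap_norm (hK : Module.finrank F K = 2) (y : K) :
    algebraMap F K (Algebra.norm F y) = y ^ (Fintype.card F + 1) := by
  rw [FiniteField.algebraMap_norm_eq_pow_sum, hK, Nat.card_eq_fintype_card]
  simp [Finset.sum_range_succ, add_comm]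

omit [DecidableEq F] [DecidableEq K] in
lemma phi_XX (hK : Module.finrank F K = 2) (s : Kˣ) (d : ℕ) :
    algebraMap F K (Algebra.trace F K ((s : K) ^ (2 * d)) / Algebra.norm F (s : K) ^ d) =
      ((s ^ (Fintype.card F - 1) : Kˣ) : K) ^ d +
        (((s ^ (Fintype.card F - 1))⁻¹ : Kˣ) : K) ^ d := by
  rw [map_div₀, map_pow (algebraMap F K) (Algebra.norm F (s : K)) d, algebraMap_trace hK,
    algebraMap_norm hK]
  have hs : (s : K) ≠ 0 := s.ne_zero
  rw [div_eq_iff (pow_ne_zero _ (pow_ne_zero _ hs))]
  have hq : 1 ≤ Fintype.card F := Fintype.card_pos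
  obtain ⟨n, hn⟩ := Nat.exists_eq_add_of_le hq
  rw [hn]
  have h1 : 1 + n - 1 = n := by omega
  rw [h1, Units.val_inv_eq_inv_val, Units.val_pow_eq_pow_val]
  rw [add_mul, ← mul_pow, ← mul_pow]
  have h2 : (s : K) ^ n * (s : K) ^ (1 + n + 1) = ((s : K) ^ 2) ^ (1 + n) := by
    rw [← pow_add, ← pow_mul]
    congr 1
    ring
  have h3 : ((s : K) ^ n)⁻¹ * (s : K) ^ (1 + n + 1) = (s : K) ^ 2 := by
    rw [inv_mul_eq_div, div_eq_iff (pow_ne_zero _ hs), ← pow_add]
    congr 1
    omega
  rw [h2, h3, ← pow_mul, ← pow_mul, ← pow_mul, ← pow_mul, add_comm]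
  congr 2
  ring

omit [DecidableEq F] [DecidableEq K] in
lemma algebraMap_XX (hK : Module.finrank F K = 2) (s : Kˣ) :
    algebraMap F K (XX F s) = ((s ^ (Fintype.card F - 1) : Kˣ) : K) +
        (((s ^ (Fintype.card F - 1))⁻¹ : Kˣ) : K) := by
  have := phi_XX hK s 1
  simpa [XX] using this

lemma sum_XX (hF : ringChar F ≠ 2) (hK : Module.finrank F K = 2) (f : F → ℂ) :
    ∑ s : Kˣ, f (XX F s) =
      ((Fintype.card F - 1 : ℕ) : ℂ) * ∑ x : F, (1 - eta F (x ^ 2 - 4)) * f x := by
  rw [← Finset.sum_fiberwise (s := (univ : Finset Kˣ)) (g := fun s : Kˣ => XX F s), mul_sum]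
  apply sum_congr rfl
  intro x _
  rw [← card_norm_one hF hK x, Finset.sum_congr rfl (g := fun _ => f x)]
  · rw [sum_const, nsmul_eq_mul, ← mul_assoc]
    congr 1
    norm_cast
    have h1 : #{s : Kˣ | XX F s = x} = ∑ w ∈ ({w : Kˣ | (w : K) + ((w⁻¹ : Kˣ) : K) = algebraMap F K x} :
        Finset Kˣ), #{s : Kˣ | s ^ (Fintype.card F - 1) = w} := by
      rw [← Finset.card_biUnion]
      · congr 1
        ext s
        simp only [mem_filter, mem_univ, true_and, mem_biUnion, exists_eq_right']
        rw [← algebraMap_XX hK]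
        exact (algebraMap F K).injective.eq_iff.symm
      · intro a _ b _ hab
        simp only [Function.onFun]
        rw [Finset.disjoint_left]
        intro s hs hs'
        simp only [mem_filter, mem_univ, true_and] at hs hs'
        exact hab (hs.symm.trans hs')
    rw [h1, Finset.sum_congr rfl (fun w _ => card_pow_fiber (card_units_K hK) w),
      ← Finset.sum_filter, Finset.filter_filter, sum_const, smul_eq_mul, mul_comm]
    congr 2
    ext w
    simp only [mem_filter, mem_univ, true_and]
    exact and_comm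
  · intro s hs
    simp only [mem_filter, mem_univ, true_and] at hs
    rw [hs]

lemma eta_K_apply (hF : ringChar F ≠ 2) (hK : Module.finrank F K = 2) (s : K) :
    eta K s = eta F (Algebra.norm F s) := by
  have hF' : ringChar K ≠ 2 := by rwa [ringChar_K (F := F)]
  by_cases hs : s = 0
  · subst hs
    rw [MulChar.map_zero, Algebra.norm_zero, MulChar.map_zero]
  have hn : Algebra.norm F s ≠ 0 := by
    rw [Ne, Algebra.norm_eq_zero_iff]
    exact hs
  have hodd := FiniteField.odd_card_of_char_ne_two hF
  have h3 := FiniteField.odd_card_of_char_ne_two hF'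
  have h1 : Fintype.card K / 2 = (Fintype.card F + 1) * (Fintype.card F / 2) := by
    have h2 := card_units_K (F := F) hK
    rw [Fintype.card_units] at h2
    have h4 : Fintype.card F - 1 = 2 * (Fintype.card F / 2) := by omega
    rw [h4] at h2
    have h5 : Fintype.card K - 1 =
      2 * ((Fintype.card F + 1) * (Fintype.card F / 2)) := by
      rw [h2]
      have : 2 * (Fintype.card F / 2) / 2 = Fintype.card F / 2 := by omega
      ring
    omega
  rw [eta_apply, eta_apply, quadraticChar_eq_pow_of_char_ne_two hF' hs,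
    quadraticChar_eq_pow_of_char_ne_two hF hn]
  have h6 : (Algebra.norm F s) ^ (Fintype.card F / 2) = 1 ↔ s ^ (Fintype.card K / 2) = 1 := by
    rw [h1, pow_mul, ← algebraMap_norm hK, ← map_pow (algebraMap F K), ← map_one (algebraMap F K)]
    exact (algebraMap F K).injective.eq_iff.symm
  simp only [h6]

/-- Restriction of a multiplicative character of `K` to `F`. -/
noncomputable def resF (F : Type*) {K : Type*} [Field F] [Field K] [Algebra F K]
    (Θ : MulChar K ℂ) : MulChar F ℂ where
  toFun := fun x => Θ (algebraMap F K x)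
  map_one' := by simp
  map_mul' := by
    intro x y
    simp
  map_nonunit' := by
    intro x hx
    have : x = 0 := by
      by_contra h
      exact hx (Ne.isUnit h)
    subst this
    change Θ (algebraMap F K 0) = 0
    rw [map_zero, MulChar.map_zero]

omit [Fintype F] [DecidableEq F] [Fintype K] [DecidableEq K] in
lemma resF_apply (Θ : MulChar K ℂ) (x : F) : resF F Θ x = Θ (algebraMap F K x) := rfl

omit [DecidableEq K] in
lemma eta_mul_gaussSum (hF : ringChar F ≠ 2) (ψ : AddChar F ℂ) (a : F) :
    eta F a * gaussSum (eta F) ψ = ∑ b : F, eta F b * ψ (a * b) := by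
  by_cases ha : a = 0
  · subst ha
    rw [MulChar.map_zero, zero_mul]
    simp only [zero_mul, AddChar.map_zero_eq_one, mul_one]
    exact (MulChar.sum_eq_zero_of_ne_one (eta_ne_one hF)).symm
  · have := gaussSum_mulShift (eta F) ψ (Units.mk0 a ha)
    rw [← this, ← mul_assoc, Units.val_mk0, ← map_mul, ← sq, eta_sq_apply ha, one_mul]
    rfl

lemma sum_theta_eta_trace (hF : ringChar F ≠ 2) (ψ : AddChar F ℂ) (ψK : AddChar K ℂ)
    (hψ : ∀ y : K, ψK y = ψ (Algebra.trace F K y)) (Θ : MulChar K ℂ) :
    gaussSum (eta F) ψ * ∑ y : Kˣ, Θ (y : K) * eta F (Algebra.trace F K (y : K)) =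
      if resF F Θ = eta F then ((Fintype.card F - 1 : ℕ) : ℂ) * gaussSum Θ ψK else 0 := by
  have h1 : gaussSum (eta F) ψ * ∑ y : Kˣ, Θ (y : K) * eta F (Algebra.trace F K (y : K)) =
      ∑ b : F, eta F b * ∑ y : Kˣ, Θ (y : K) * ψK (algebraMap F K b * y) := by
    rw [mul_sum]
    simp_rw [mul_sum]
    rw [sum_comm]
    apply sum_congr rfl
    intro y _
    have := eta_mul_gaussSum hF ψ (Algebra.trace F K (y : K))
    calc gaussSum (eta F) ψ * (Θ (y : K) * eta F (Algebra.trace F K (y : K)))
        = Θ (y : K) * (eta F (Algebra.trace F K (y : K)) * gaussSum (eta F) ψ) := by ring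
      _ = Θ (y : K) * ∑ b : F, eta F b * ψ (Algebra.trace F K (y : K) * b) := by rw [this]
      _ = _ := by
        rw [mul_sum]
        apply sum_congr rfl
        intro b _
        rw [hψ, ← Algebra.smul_def, map_smul, smul_eq_mul, mul_comm b]
        ring
  have h2 : ∀ b : Fˣ, ∑ y : Kˣ, Θ (y : K) * ψK (algebraMap F K b * y) =
      (resF F Θ)⁻¹ (b : F) * gaussSum Θ ψK := by
    intro b
    let b' : Kˣ := Units.map (algebraMap F K : F →* K) b
    have h3 := gaussSum_mulShift Θ ψK b'
    have h4 : gaussSum Θ (AddChar.mulShift ψK b') =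
        ∑ y : Kˣ, Θ (y : K) * ψK (algebraMap F K b * y) := by
      unfold gaussSum
      symm
      refine Fintype.sum_of_injective (fun x : Kˣ => (x : K)) Units.val_injective _ _ ?_ ?_
      · intro i hi
        have : i = 0 := by
          by_contra hne
          exact hi ⟨Units.mk0 i hne, rfl⟩
        rw [this, MulChar.map_zero, zero_mul]
      · intro i
        rfl
    rw [← h4, ← h3, ← mul_assoc, MulChar.inv_apply', resF_apply, map_inv₀]
    have h5 : Θ ((algebraMap F K (b : F))⁻¹) * Θ (b' : K) = 1 := by
      rw [← map_mul]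
      have : (b' : K) = algebraMap F K (b : F) := rfl
      rw [this, inv_mul_cancel₀ (by rw [← this]; exact b'.ne_zero), map_one]
    rw [h5, one_mul]
  rw [h1]
  have h6 : ∑ b : F, eta F b * ∑ y : Kˣ, Θ (y : K) * ψK (algebraMap F K b * y) =
      ∑ b : Fˣ, eta F (b : F) * ∑ y : Kˣ, Θ (y : K) * ψK (algebraMap F K (b : F) * y) := by
    symm
    refine Fintype.sum_of_injective (fun x : Fˣ => (x : F)) Units.val_injective _ _ ?_ ?_
    · intro i hi
      have : i = 0 := by
        by_contra hne
        exact hi ⟨Units.mk0 i hne, rfl⟩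
      rw [this, MulChar.map_zero, zero_mul]
    · intro i
      rfl
  rw [h6]
  have h7 : ∑ b : Fˣ, eta F (b : F) * ∑ y : Kˣ, Θ (y : K) * ψK (algebraMap F K (b : F) * y) =
      (∑ b : Fˣ, (eta F * (resF F Θ)⁻¹) (b : F)) * gaussSum Θ ψK := by
    rw [sum_mul]
    apply sum_congr rfl
    intro b _
    rw [h2, MulChar.mul_apply, mul_assoc]
  rw [h7, sum_units_mulChar]
  have h8 : eta F * (resF F Θ)⁻¹ = 1 ↔ resF F Θ = eta F := by
    rw [mul_inv_eq_one]
    exact eq_comm
  simp only [h8, Fintype.card_units]
  split_ifs <;> simp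

/-- The non-split part. -/
lemma TK_eq (hF : ringChar F ≠ 2) (hK : Module.finrank F K = 2) (ψ : AddChar F ℂ)
    (ψK : AddChar K ℂ) (hψ : ∀ y : K, ψK y = ψ (Algebra.trace F K y)) (d : ℕ) :
    gaussSum (eta F) ψ *
      ∑ x : F, (1 - eta F (x ^ 2 - 4)) * eta F ((Polynomial.dickson 1 (1 : F) d).eval x) =
      ∑ Θ : MulChar K ℂ with Θ ^ (2 * d) = (eta K) ^ d ∧ resF F Θ = eta F, gaussSum Θ ψK := by
  have hq : ((Fintype.card F - 1 : ℕ) : ℂ) ≠ 0 := by
    have := Fintype.one_lt_card (α := F)
    have : Fintype.card F - 1 ≠ 0 := by omega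
    exact_mod_cast this
  apply mul_left_cancel₀ hq
  have h1 := sum_XX (K := K) hF hK (fun x => eta F ((Polynomial.dickson 1 (1 : F) d).eval x))
  have h2 : ∀ s : Kˣ, eta F ((Polynomial.dickson 1 (1 : F) d).eval (XX F s)) =
      ((eta K) ^ d) (s : K) * eta F (Algebra.trace F K ((s : K) ^ (2 * d))) := by
    intro s
    have h3 : (Polynomial.dickson 1 (1 : F) d).eval (XX F s) =
        Algebra.trace F K ((s : K) ^ (2 * d)) / Algebra.norm F (s : K) ^ d := by
      apply (algebraMap F K).injective
      rw [phi_XX hK, ← phi_add_inv, ← algebraMap_XX hK]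
      have h4 : Polynomial.dickson 1 (1 : K) d =
          (Polynomial.dickson 1 (1 : F) d).map (algebraMap F K) := by
        rw [Polynomial.map_dickson, map_one]
      rw [h4, Polynomial.eval_map, Polynomial.eval₂_hom]
    rw [h3, MulChar.pow_apply_coe, eta_K_apply hF hK, ← map_pow (eta F)]
    have hn : Algebra.norm F (s : K) ≠ 0 := by
      rw [Ne, Algebra.norm_eq_zero_iff]
      exact s.ne_zero
    have hn' : Algebra.norm F (s : K) ^ d ≠ 0 := pow_ne_zero _ hn
    have h5 : Algebra.trace F K ((s : K) ^ (2 * d)) / Algebra.norm F (s : K) ^ d *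
        (Algebra.norm F (s : K) ^ d) ^ 2 =
        Algebra.norm F (s : K) ^ d * Algebra.trace F K ((s : K) ^ (2 * d)) := by
      field_simp
    rw [← map_mul, ← h5, map_mul, eta_sq_apply hn', mul_one]
  rw [sum_congr rfl (fun s _ => h2 s)] at h1
  rw [mellin ((eta K) ^ d) (2 * d) (fun y => eta F (Algebra.trace F K y))] at h1
  calc ((Fintype.card F - 1 : ℕ) : ℂ) * (gaussSum (eta F) ψ *
      ∑ x : F, (1 - eta F (x ^ 2 - 4)) * eta F ((Polynomial.dickson 1 (1 : F) d).eval x))
      = gaussSum (eta F) ψ * (((Fintype.card F - 1 : ℕ) : ℂ) *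
      ∑ x : F, (1 - eta F (x ^ 2 - 4)) * eta F ((Polynomial.dickson 1 (1 : F) d).eval x)) := by
        ring
    _ = gaussSum (eta F) ψ * ∑ Θ : MulChar K ℂ with Θ ^ (2 * d) = (eta K) ^ d,
          ∑ y : Kˣ, Θ (y : K) * eta F (Algebra.trace F K (y : K)) := by rw [← h1]
    _ = ∑ Θ : MulChar K ℂ with Θ ^ (2 * d) = (eta K) ^ d,
          (if resF F Θ = eta F then ((Fintype.card F - 1 : ℕ) : ℂ) * gaussSum Θ ψK else 0) := by
        rw [mul_sum]
        apply sum_congr rfl
        intro Θ _
        exact sum_theta_eta_trace hF ψ ψK hψ Θ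
    _ = _ := by
        rw [← sum_filter, Finset.filter_filter, mul_sum]

end

end Pool.Agent.Lib.MP_b95a42_nt
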