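import Mathlib
import Pool.Agent.Lib.MP_b95a42_nt.SumK

/-!
# Absolute values of Gauss and Jacobi sums
-/

namespace Pool.Agent.Lib.MP_b95a42_nt

open Finset

section

variable {F : Type*} [Field F] [Fintype F] [DecidableEq F]

omit [DecidableEq F] in
lemma norm_sq_gaussSum {χ : MulChar F ℂ} (hχ : χ ≠ 1) {ψ : AddChar F ℂ} (hψ : ψ.IsPrimitive) :
    ‖gaussSum χ ψ‖ ^ 2 = Fintype.card F := by
  have h1 := gaussSum_mul_gaussSum_eq_card hχ hψ
  rw [← star_gaussSum_eq] at h1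
  have h2 : gaussSum χ ψ * star (gaussSum χ ψ) = ((‖gaussSum χ ψ‖ ^ 2 : ℝ) : ℂ) := by
    rw [Complex.star_def, Complex.mul_conj, Complex.normSq_eq_norm_sq]
  rw [h2] at h1
  exact_mod_cast h1

omit [DecidableEq F] in
lemma ringChar_C_ne : ringChar ℂ ≠ ringChar F := by
  have h1 : ringChar ℂ = 0 := ringChar.eq_zero
  rw [h1]
  intro h
  have := CharP.char_is_prime F (ringChar F)
  rw [← h] at this
  exact Nat.not_prime_zero this

omit [DecidableEq F] in
lemma norm_sq_jacobiSum {χ φ : MulChar F ℂ} (hχ : χ ≠ 1) (hφ : φ ≠ 1) (hχφ : χ * φ ≠ 1) :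
    ‖jacobiSum χ φ‖ ^ 2 = Fintype.card F := by
  have h1 := jacobiSum_mul_jacobiSum_inv (ringChar_C_ne (F := F)) hχ hφ hχφ
  have h3 : jacobiSum χ⁻¹ φ⁻¹ = star (jacobiSum χ φ) := by
    unfold jacobiSum
    rw [star_sum]
    apply sum_congr rfl
    intro x _
    rw [star_mul', MulChar.star_apply', MulChar.star_apply']
  rw [h3] at h1
  have h2 : jacobiSum χ φ * star (jacobiSum χ φ) = ((‖jacobiSum χ φ‖ ^ 2 : ℝ) : ℂ) := by
    rw [Complex.star_def, Complex.mul_conj, Complex.normSq_eq_norm_sq]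
  rw [h2] at h1
  exact_mod_cast h1

lemma JJ_eq_jacobiSum (θ : MulChar F ℂ) : JJ θ = θ (-1) * jacobiSum θ (eta F) := by
  have h1 : JJ θ = ∑ u : F, θ u * eta F (1 + u) := by
    unfold JJ
    refine Fintype.sum_of_injective (fun x : Fˣ => (x : F)) Units.val_injective _ _ ?_ ?_
    · intro i hi
      have : i = 0 := by
        by_contra hne
        exact hi ⟨Units.mk0 i hne, rfl⟩
      rw [this, MulChar.map_zero, zero_mul]
    · intro i
      rfl
  rw [h1]
  unfold jacobiSum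
  rw [mul_sum, ← Equiv.sum_comp (Equiv.neg F)]
  apply sum_congr rfl
  intro u _
  rw [Equiv.neg_apply, ← mul_assoc, ← map_mul, neg_one_mul, sub_eq_add_neg]

omit [Fintype F] [DecidableEq F] in
lemma norm_mulChar_neg_one (θ : MulChar F ℂ) : ‖θ (-1)‖ = 1 := by
  have h1 : (θ (-1)) ^ 2 = 1 := by
    rw [← map_pow]
    simp
  have h2 : ‖θ (-1)‖ ^ 2 = 1 := by
    rw [← norm_pow, h1, norm_one]
  have h3 := norm_nonneg (θ (-1))
  nlinarith

lemma norm_JJ (hF : ringChar F ≠ 2) {r : ℕ} (hr : Fintype.card F = r ^ 2) {θ : MulChar F ℂ}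
    (h1 : θ ≠ 1) (h2 : θ ≠ eta F) : ‖JJ θ‖ = r := by
  rw [JJ_eq_jacobiSum, norm_mul, norm_mulChar_neg_one, one_mul]
  have h3 : θ * eta F ≠ 1 := by
    intro h
    apply h2
    have := eq_inv_of_mul_eq_one_left h
    rw [this, eta_inv]
  have h4 := norm_sq_jacobiSum h1 (eta_ne_one hF) h3
  rw [hr] at h4
  push_cast at h4
  exact (pow_left_inj₀ (norm_nonneg _) (Nat.cast_nonneg _) two_ne_zero).mp h4

lemma JJ_one (hF : ringChar F ≠ 2) : JJ (1 : MulChar F ℂ) = -1 := by
  rw [JJ_eq_jacobiSum, jacobiSum_one_nontrivial (eta_ne_one hF), MulChar.one_apply (by simp), one_mul]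

lemma JJ_eta (hF : ringChar F ≠ 2) : JJ (eta F) = -1 := by
  have h1 := jacobiSum_nontrivial_inv (eta_ne_one (F := F) hF)
  rw [eta_inv] at h1
  rw [JJ_eq_jacobiSum, h1]
  have : eta F (-1) * eta F (-1) = 1 := by
    rw [← map_mul]
    simp
  linear_combination (-1 : ℂ) * this

/-- Equality case of the triangle inequality. -/
lemma eq_of_sum_re {ι : Type*} (s : Finset ι) (f : ι → ℂ) (r : ℝ) (hf : ∀ i ∈ s, ‖f i‖ ≤ r)
    (h : (#s : ℝ) * r ≤ (∑ i ∈ s, f i).re) : ∀ i ∈ s, f i = r := by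
  have h1 : ∀ i ∈ s, (f i).re ≤ r := fun i hi => (Complex.re_le_norm _).trans (hf i hi)
  have h2 : ∑ i ∈ s, (r - (f i).re) ≤ 0 := by
    rw [sum_sub_distrib, sum_const, nsmul_eq_mul, ← Complex.re_sum]
    linarith
  have h3 : ∑ i ∈ s, (r - (f i).re) = 0 :=
    le_antisymm h2 (sum_nonneg (fun i hi => sub_nonneg.mpr (h1 i hi)))
  have h4 := (sum_eq_zero_iff_of_nonneg (fun i hi => sub_nonneg.mpr (h1 i hi))).mp h3
  intro i hi
  have h5 : (f i).re = r := by linarith [h4 i hi]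
  have h6 : ‖f i‖ ^ 2 = (f i).re ^ 2 + (f i).im ^ 2 := by
    rw [← Complex.normSq_eq_norm_sq, Complex.normSq_apply]
    ring
  have h7 : ‖f i‖ ^ 2 ≤ r ^ 2 := by
    have := hf i hi
    have := norm_nonneg (f i)
    nlinarith
  have h8 : (f i).im = 0 := by
    rw [h5] at h6
    have : (f i).im ^ 2 ≤ 0 := by linarith
    exact pow_eq_zero_iff (two_ne_zero) |>.mp (le_antisymm this (sq_nonneg _))
  apply Complex.ext
  · rw [h5, Complex.ofReal_re]
  · rw [h8, Complex.ofReal_im]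

lemma re_sum_le {ι : Type*} (s : Finset ι) (f : ι → ℂ) (r : ℝ) (hf : ∀ i ∈ s, ‖f i‖ ≤ r) :
    (∑ i ∈ s, f i).re ≤ (#s : ℝ) * r := by
  rw [Complex.re_sum, ← nsmul_eq_mul, ← sum_const]
  exact sum_le_sum (fun i hi => (Complex.re_le_norm _).trans (hf i hi))

end

section

variable {G : Type*} [CommGroup G] [Fintype G] [DecidableEq G] [IsCyclic G]

/-- Cardinality bound for fibres of two power maps. -/
lemma card_two_pow_le (m n : ℕ) (hm : 0 < m) (a b : G) :
    #{x : G | x ^ m = a ∧ x ^ n = b} ≤ Nat.gcd m n := by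
  by_cases hne : ({x : G | x ^ m = a ∧ x ^ n = b} : Finset G).Nonempty
  · obtain ⟨x0, hx0⟩ := hne
    simp only [mem_filter, mem_univ, true_and] at hx0
    calc #{x : G | x ^ m = a ∧ x ^ n = b} ≤ #{x : G | x ^ (Nat.gcd m n) = 1} := by
          apply Finset.card_le_card_of_injOn (fun x => x * x0⁻¹)
          · intro x hx
            simp only [coe_filter, mem_univ, true_and, Set.mem_ofPred_eq] at hx ⊢
            rw [pow_gcd_eq_one]
            rw [mul_pow, mul_pow, inv_pow, inv_pow, hx.1, hx.2, hx0.1, hx0.2]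
            simp
          · intro x _ y _ hxy
            exact mul_right_cancel hxy
      _ ≤ Nat.gcd m n := IsCyclic.card_pow_eq_one_le (Nat.gcd_pos_of_pos_left _ hm)
  · rw [Finset.not_nonempty_iff_eq_empty.mp hne]
    simp

/-- Cardinality bound for fibres of a power map. -/
lemma card_pow_le (m : ℕ) (hm : 0 < m) (a : G) :
    #{x : G | x ^ m = a} ≤ Nat.gcd m (Fintype.card G) := by
  have := card_two_pow_le m (Fintype.card G) hm a 1
  refine le_trans (le_of_eq ?_) this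
  congr 1
  ext x
  simp

end

end Pool.Agent.Lib.MP_b95a42_nt
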