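import Mathlib
import Pool.Agent.Lib.MP_b95a42_nt.Norms

/-!
# Equality in the Weil bound
-/

namespace Pool.Agent.Lib.MP_b95a42_nt

open Finset

section

variable {F : Type*} [Field F] [Fintype F] [DecidableEq F]
  {K : Type*} [Field K] [Fintype K] [DecidableEq K] [Algebra F K]

variable (F) in
/-- the character sum `S_d`. -/
noncomputable def SS (d : ℕ) : ℂ := ∑ x : F, eta F ((Polynomial.dickson 1 (1 : F) d).eval x)

variable (F) in
/-- The index set of split characters. -/
noncomputable def AA (d : ℕ) : Finset (MulChar F ℂ) :=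
  {θ : MulChar F ℂ | θ ^ (2 * d) = (eta F) ^ d}

variable (F K) in
/-- The index set of non-split characters. -/
noncomputable def BB (d : ℕ) : Finset (MulChar K ℂ) :=
  {Θ : MulChar K ℂ | Θ ^ (2 * d) = (eta K) ^ d ∧ Θ ^ (Fintype.card F + 1) = eta K}

lemma resF_eq_iff (hF : ringChar F ≠ 2) (hK : Module.finrank F K = 2) (Θ : MulChar K ℂ) :
    resF F Θ = eta F ↔ Θ ^ (Fintype.card F + 1) = eta K := by
  constructor
  · intro h
    ext s
    rw [MulChar.pow_apply_coe, ← map_pow, ← algebraMap_norm hK, ← resF_apply, h,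
      eta_K_apply hF hK]
  · intro h
    ext b
    obtain ⟨s, hs⟩ := FiniteField.norm_surjective F K (b : F)
    rw [resF_apply, ← hs, algebraMap_norm hK, map_pow]
    have hs0 : s ≠ 0 := by
      intro h0
      rw [h0, Algebra.norm_zero] at hs
      exact b.ne_zero hs.symm
    have h1 : (Θ ^ (Fintype.card F + 1)) s = eta K s := by rw [h]
    rw [← eta_K_apply hF hK, ← h1, MulChar.pow_apply' _ (by omega)]

lemma two_mul_SS (hF : ringChar F ≠ 2) (hK : Module.finrank F K = 2) (ψ : AddChar F ℂ)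
    (ψK : AddChar K ℂ) (hψ : ∀ y : K, ψK y = ψ (Algebra.trace F K y)) (d : ℕ) :
    2 * gaussSum (eta F) ψ * SS F d =
      gaussSum (eta F) ψ * ∑ θ ∈ AA F d, JJ θ + ∑ Θ ∈ BB F K d, gaussSum Θ ψK := by
  have h1 := TF_eq hF d
  have h2 := TK_eq hF hK ψ ψK hψ d
  have h3 : ({Θ : MulChar K ℂ | Θ ^ (2 * d) = (eta K) ^ d ∧ resF F Θ = eta F} :
      Finset (MulChar K ℂ)) = BB F K d := by
    ext Θ
    simp only [BB, mem_filter, mem_univ, true_and, resF_eq_iff hF hK]
  rw [h3] at h2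
  have h4 : (2 : ℂ) * SS F d =
      ∑ x : F, (1 + eta F (x ^ 2 - 4)) * eta F ((Polynomial.dickson 1 (1 : F) d).eval x) +
      ∑ x : F, (1 - eta F (x ^ 2 - 4)) * eta F ((Polynomial.dickson 1 (1 : F) d).eval x) := by
    rw [← sum_add_distrib, SS, mul_sum]
    apply sum_congr rfl
    intro x _
    ring
  have h5 : ∑ θ ∈ AA F d, JJ θ = ∑ θ : MulChar F ℂ with θ ^ (2 * d) = (eta F) ^ d, JJ θ := rfl
  rw [h5, ← h1, ← h2]
  linear_combination (gaussSum (eta F) ψ) * h4

lemma SS_one (hF : ringChar F ≠ 2) : SS F 1 = 0 := by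
  unfold SS
  simp only [Polynomial.dickson_one, Polynomial.eval_X]
  exact MulChar.sum_eq_zero_of_ne_one (eta_ne_one hF)

lemma card_mulChar' : Fintype.card (MulChar F ℂ) = Fintype.card F - 1 := by
  rw [card_mulChar, Fintype.card_units]

lemma card_AA_one (h4 : Fintype.card F % 4 = 1) : #(AA F 1) = 2 := by
  classical
  have := isCyclic_mulChar F
  have h1 : Fintype.card (MulChar F ℂ) = 2 * ((Fintype.card F - 1) / 2) := by
    rw [card_mulChar']
    omega
  have h2 := card_pow_fiber h1 (eta F)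
  have h3 : (eta F) ^ ((Fintype.card F - 1) / 2) = 1 := by
    have : (Fintype.card F - 1) / 2 = 2 * ((Fintype.card F - 1) / 4) := by omega
    rw [this, pow_mul, eta_sq, one_pow]
  rw [if_pos h3] at h2
  rw [← h2]
  unfold AA
  simp

omit [DecidableEq F] in
lemma card_BB_one (h4 : Fintype.card F % 4 = 1) (hK : Module.finrank F K = 2) :
    #(BB F K 1) = 2 := by
  classical
  have := isCyclic_mulChar K
  have hc := card_K hK
  obtain ⟨n, hn⟩ : ∃ n, Fintype.card F = 4 * n + 1 := ⟨Fintype.card F / 4, by omega⟩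
  have hc' : Fintype.card K = 4 * (4 * n ^ 2 + 2 * n) + 1 := by
    rw [hc, hn]
    ring
  have h1 : Fintype.card (MulChar K ℂ) = 2 * ((Fintype.card K - 1) / 2) := by
    rw [card_mulChar']
    omega
  have h2 := card_pow_fiber h1 (eta K)
  have h3 : (eta K) ^ ((Fintype.card K - 1) / 2) = 1 := by
    have : (Fintype.card K - 1) / 2 = 2 * ((Fintype.card K - 1) / 4) := by omega
    rw [this, pow_mul, eta_sq, one_pow]
  rw [if_pos h3] at h2
  rw [← h2]
  unfold BB
  congr 1
  ext Θ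
  simp only [mem_filter, mem_univ, true_and, mul_one, pow_one, and_iff_left_iff_imp]
  intro hΘ
  have : Fintype.card F + 1 = 2 * (2 * n + 1) := by omega
  rw [this, pow_mul, hΘ, pow_succ, pow_mul, eta_sq, one_pow, one_mul]

lemma AA_one_subset (d : ℕ) : AA F 1 ⊆ AA F d := by
  intro θ hθ
  simp only [AA, mem_filter, mem_univ, true_and, mul_one, pow_one] at hθ ⊢
  rw [pow_mul, hθ]

omit [Field F] [DecidableEq F] [Algebra F K] in
lemma BB_one_subset (d : ℕ) : BB F K 1 ⊆ BB F K d := by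
  intro θ hθ
  simp only [BB, mem_filter, mem_univ, true_and, mul_one, pow_one] at hθ ⊢
  exact ⟨by rw [pow_mul, hθ.1], hθ.2⟩

lemma card_AA_le {d : ℕ} (hd : d ≠ 0) : #(AA F d) ≤ Nat.gcd (2 * d) (Fintype.card F - 1) := by
  classical
  have := isCyclic_mulChar F
  have h1 := card_pow_le (G := MulChar F ℂ) (2 * d) (by omega) ((eta F) ^ d)
  rw [card_mulChar'] at h1
  exact h1

omit [Field F] [DecidableEq F] [Algebra F K] in
lemma card_BB_le {d : ℕ} (hd : d ≠ 0) : #(BB F K d) ≤ Nat.gcd (2 * d) (Fintype.card F + 1) := by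
  classical
  have := isCyclic_mulChar K
  have h1 := card_two_pow_le (G := MulChar K ℂ) (2 * d) (Fintype.card F + 1) (by omega)
    ((eta K) ^ d) (eta K)
  exact h1

lemma norm_gauss_div {ψ : AddChar F ℂ} {ψK : AddChar K ℂ} (hF : ringChar F ≠ 2)
    (hK : Module.finrank F K = 2) (hprim : ψ.IsPrimitive)
    (hprimK : ψK.IsPrimitive) {r : ℕ} (hr : Fintype.card F = r ^ 2) {d : ℕ} {Θ : MulChar K ℂ}
    (hΘ : Θ ∈ BB F K d) : ‖gaussSum Θ ψK / gaussSum (eta F) ψ‖ = r := by
  have hF' : ringChar K ≠ 2 := by rwa [ringChar_K (F := F)]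
  have h1 := norm_sq_gaussSum (eta_ne_one hF) hprim
  have hne : Θ ≠ 1 := by
    rintro rfl
    simp only [BB, mem_filter, mem_univ, true_and, one_pow] at hΘ
    exact eta_ne_one hF' hΘ.2.symm
  have h2 := norm_sq_gaussSum hne hprimK
  rw [card_K hK, hr] at h2
  rw [hr] at h1
  push_cast at h1 h2
  have h3 : ‖gaussSum (eta F) ψ‖ = r := by
    exact (pow_left_inj₀ (norm_nonneg _) (Nat.cast_nonneg _) two_ne_zero).mp h1
  have h4 : ‖gaussSum Θ ψK‖ = (r : ℝ) ^ 2 := by
    exact (pow_left_inj₀ (norm_nonneg _) (by positivity) two_ne_zero).mp h2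
  have hr0 : (r : ℝ) ≠ 0 := by
    intro h
    have : r = 0 := by exact_mod_cast h
    rw [this] at hr
    exact absurd hr Fintype.card_ne_zero
  rw [norm_div, h3, h4]
  field_simp

/-- Odd case. -/
lemma odd_case {ψ : AddChar F ℂ} {ψK : AddChar K ℂ} (hF : ringChar F ≠ 2)
    (hK : Module.finrank F K = 2) (hprim : ψ.IsPrimitive) (hprimK : ψK.IsPrimitive)
    (hψ : ∀ y : K, ψK y = ψ (Algebra.trace F K y)) (h4 : Fintype.card F % 4 = 1)
    {r : ℕ} (hr : Fintype.card F = r ^ 2) {d : ℕ} (hd : Odd d) (hd3 : 3 ≤ d)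
    (hS : SS F d = ((d : ℂ) - 1) * r) :
    (d ∣ (Fintype.card F - 1) / 2 ∧ ∀ θ ∈ AA F d, θ ^ 2 ≠ eta F → JJ θ = r) ∨
    (d ∣ (Fintype.card F + 1) / 2 ∧ ∀ Θ ∈ BB F K d, Θ ^ 2 ≠ eta K →
      gaussSum Θ ψK = gaussSum (eta F) ψ * r) := by
  have hd0 : d ≠ 0 := by omega
  set g := gaussSum (eta F) ψ with hg
  have hr0 : 0 < r := by
    rcases Nat.eq_zero_or_pos r with h | h
    · rw [h] at hr
      exact absurd hr Fintype.card_ne_zero
    · exact h
  have hg0 : g ≠ 0 := by
    intro h0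
    have h1 := norm_sq_gaussSum (eta_ne_one hF) hprim
    rw [← hg, h0, norm_zero] at h1
    have : Fintype.card F = 0 := by
      have : ((Fintype.card F : ℕ) : ℝ) = 0 := by rw [← h1]; norm_num
      exact_mod_cast this
    exact absurd this Fintype.card_ne_zero
  -- the difference of the two identities
  have h1 := two_mul_SS hF hK ψ ψK hψ d
  have h2 := two_mul_SS hF hK ψ ψK hψ 1
  rw [SS_one hF, mul_zero] at h2
  rw [← sum_sdiff (AA_one_subset d), ← sum_sdiff (BB_one_subset d), hS] at h1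
  have h3 : (2 : ℂ) * (((d : ℂ) - 1) * r) = ∑ θ ∈ AA F d \ AA F 1, JJ θ +
      ∑ Θ ∈ BB F K d \ BB F K 1, gaussSum Θ ψK / g := by
    apply mul_left_cancel₀ hg0
    rw [← sum_div]
    field_simp
    rw [← hg] at h1 h2
    linear_combination h1 - h2
  -- cardinalities
  have hqo : Fintype.card F % 2 = 1 := by omega
  have hA1 := card_AA_one h4
  have hB1 := card_BB_one (K := K) h4 hK
  have hA := card_AA_le (F := F) hd0
  have hB := card_BB_le (F := F) (K := K) hd0
  have hA' : #(AA F d \ AA F 1) = #(AA F d) - 2 := by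
    rw [card_sdiff_of_subset (AA_one_subset d), hA1]
  have hB' : #(BB F K d \ BB F K 1) = #(BB F K d) - 2 := by
    rw [card_sdiff_of_subset (BB_one_subset d), hB1]
  have e1 : Fintype.card F - 1 = 2 * ((Fintype.card F - 1) / 2) := by omega
  have e2 : Fintype.card F + 1 = 2 * ((Fintype.card F + 1) / 2) := by omega
  rw [e1, Nat.gcd_mul_left] at hA
  rw [e2, Nat.gcd_mul_left] at hB
  set a := Nat.gcd d ((Fintype.card F - 1) / 2) with ha
  set b := Nat.gcd d ((Fintype.card F + 1) / 2) with hb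
  have ha1 : 1 ≤ a := Nat.gcd_pos_of_pos_left _ (by omega)
  have hb1 : 1 ≤ b := Nat.gcd_pos_of_pos_left _ (by omega)
  have hcop : Nat.Coprime a b := by
    have h5 : Nat.Coprime ((Fintype.card F - 1) / 2) ((Fintype.card F + 1) / 2) := by
      have : (Fintype.card F + 1) / 2 = (Fintype.card F - 1) / 2 + 1 := by omega
      rw [this]
      exact (Nat.coprime_self_add_right).mpr (Nat.coprime_one_right _)
    exact Nat.Coprime.coprime_dvd_left (Nat.gcd_dvd_right _ _)
      (Nat.Coprime.coprime_dvd_right (Nat.gcd_dvd_right _ _) h5)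
  have hab : a * b ≤ d :=
    Nat.le_of_dvd (by omega) (hcop.mul_dvd_of_dvd_of_dvd (Nat.gcd_dvd_left _ _)
      (Nat.gcd_dvd_left _ _))
  -- real parts
  have hnA : ∀ θ ∈ AA F d \ AA F 1, ‖JJ θ‖ ≤ (r : ℝ) := by
    intro θ hθ
    rw [mem_sdiff] at hθ
    have hθ1 := hθ.1
    simp only [AA, mem_filter, mem_univ, true_and] at hθ1
    have hod : (eta F) ^ d = eta F := by
      obtain ⟨k, hk⟩ := hd
      rw [hk, pow_succ, pow_mul, eta_sq, one_pow, one_mul]
    rw [hod] at hθ1
    apply le_of_eq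
    apply norm_JJ hF hr
    · rintro rfl
      rw [one_pow] at hθ1
      exact eta_ne_one hF hθ1.symm
    · rintro rfl
      rw [pow_mul, eta_sq, one_pow] at hθ1
      exact eta_ne_one hF hθ1.symm
  have hnB : ∀ Θ ∈ BB F K d \ BB F K 1, ‖gaussSum Θ ψK / g‖ ≤ (r : ℝ) := by
    intro Θ hΘ
    rw [mem_sdiff] at hΘ
    exact le_of_eq (norm_gauss_div hF hK hprim hprimK hr hΘ.1)
  have hreA := re_sum_le _ _ _ hnA
  have hreB := re_sum_le _ _ _ hnB
  have h5 := congrArg Complex.re h3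
  rw [Complex.add_re] at h5
  have h6 : ((2 : ℂ) * (((d : ℂ) - 1) * r)).re = 2 * (((d : ℝ) - 1) * r) := by
    have : ((2 : ℂ) * (((d : ℂ) - 1) * r)) = ((2 * (((d : ℝ) - 1) * r) : ℝ) : ℂ) := by
      push_cast
      ring
    rw [this, Complex.ofReal_re]
  rw [h6] at h5
  have hcA : (#(AA F d \ AA F 1) : ℝ) ≤ 2 * a - 2 := by
    have : #(AA F d \ AA F 1) + 2 ≤ 2 * a := by omega
    have : ((#(AA F d \ AA F 1) : ℕ) : ℝ) + 2 ≤ 2 * a := by exact_mod_cast this
    linarith
  have hcB : (#(BB F K d \ BB F K 1) : ℝ) ≤ 2 * b - 2 := by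
    have : #(BB F K d \ BB F K 1) + 2 ≤ 2 * b := by omega
    have : ((#(BB F K d \ BB F K 1) : ℕ) : ℝ) + 2 ≤ 2 * b := by exact_mod_cast this
    linarith
  have hr0' : (0 : ℝ) < r := by exact_mod_cast hr0
  have h7 : (d : ℝ) + 1 ≤ a + b := by
    have : 2 * (((d : ℝ) - 1) * r) ≤ (2 * a - 2 + (2 * b - 2)) * r := by
      nlinarith
    have := le_of_mul_le_mul_right (a := (r : ℝ)) (b := 2 * ((d : ℝ) - 1))
      (c := (2 * a - 2 + (2 * b - 2))) (by linarith) hr0'
    linarith
  have h8 : d + 1 ≤ a + b := by exact_mod_cast h7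
  have h9 : a = 1 ∨ b = 1 := by
    by_contra hcon
    push Not at hcon
    have ha2 : 2 ≤ a := by omega
    have hb2 : 2 ≤ b := by omega
    nlinarith
  have hab' : a + b ≤ d + 1 := by
    rcases h9 with h | h
    · rw [h] at hab ⊢
      omega
    · rw [h] at hab ⊢
      omega
  have hab'' : (a : ℝ) + b ≤ d + 1 := by exact_mod_cast hab'
  -- equality
  have hEA : (#(AA F d \ AA F 1) : ℝ) * r ≤ (∑ θ ∈ AA F d \ AA F 1, JJ θ).re := by
    nlinarith
  have hEB : (#(BB F K d \ BB F K 1) : ℝ) * r ≤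
      (∑ Θ ∈ BB F K d \ BB F K 1, gaussSum Θ ψK / g).re := by
    nlinarith
  have hallA := eq_of_sum_re _ _ _ hnA hEA
  have hallB := eq_of_sum_re _ _ _ hnB hEB
  rcases h9 with h | h
  · -- a = 1, b = d
    right
    have hbd : b = d := by
      rw [h] at h8 hab
      omega
    refine ⟨?_, ?_⟩
    · have := Nat.gcd_dvd_right d ((Fintype.card F + 1) / 2)
      rw [← hb, hbd] at this
      exact this
    · intro Θ hΘ hne
      have hmem : Θ ∈ BB F K d \ BB F K 1 := by
        rw [mem_sdiff]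
        refine ⟨hΘ, ?_⟩
        simp only [BB, mem_filter, mem_univ, true_and, mul_one, pow_one, not_and]
        intro h
        exact absurd h hne
      have h10 := hallB Θ hmem
      rw [div_eq_iff hg0] at h10
      rw [h10]
      push_cast
      ring
  · left
    have had : a = d := by
      rw [h] at h8 hab
      omega
    refine ⟨?_, ?_⟩
    · have := Nat.gcd_dvd_right d ((Fintype.card F - 1) / 2)
      rw [← ha, had] at this
      exact this
    · intro θ hθ hne
      have hmem : θ ∈ AA F d \ AA F 1 := by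
        rw [mem_sdiff]
        refine ⟨hθ, ?_⟩
        simp only [AA, mem_filter, mem_univ, true_and, mul_one, pow_one]
        exact hne
      have h10 := hallA θ hmem
      rw [h10]
      push_cast
      rfl

/-- The characters of order dividing four. -/
lemma card_four (h4 : Fintype.card F % 4 = 1) : #{θ : MulChar F ℂ | θ ^ 4 = 1} = 4 := by
  classical
  have := isCyclic_mulChar F
  have h1 : Fintype.card (MulChar F ℂ) = 4 * ((Fintype.card F - 1) / 4) := by
    rw [card_mulChar']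
    omega
  have h2 := card_pow_fiber h1 (1 : MulChar F ℂ)
  rw [if_pos (one_pow _)] at h2
  exact h2

lemma card_two (hodd : Fintype.card F % 2 = 1) : #{θ : MulChar F ℂ | θ ^ 2 = 1} = 2 := by
  classical
  have := isCyclic_mulChar F
  have h1 : Fintype.card (MulChar F ℂ) = 2 * ((Fintype.card F - 1) / 2) := by
    rw [card_mulChar']
    omega
  have h2 := card_pow_fiber h1 (1 : MulChar F ℂ)
  rw [if_pos (one_pow _)] at h2
  exact h2

lemma sq_eq_one_filter (hF : ringChar F ≠ 2) :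
    ({θ : MulChar F ℂ | θ ^ 2 = 1} : Finset (MulChar F ℂ)) = {1, eta F} := by
  have hodd := FiniteField.odd_card_of_char_ne_two hF
  symm
  apply Finset.eq_of_subset_of_card_le
  · intro θ hθ
    simp only [mem_insert, mem_singleton] at hθ
    simp only [mem_filter, mem_univ, true_and]
    rcases hθ with h | h
    · rw [h, one_pow]
    · rw [h, eta_sq]
  · rw [card_two hodd, Finset.card_pair (eta_ne_one hF).symm]

lemma sq_eq_one_iff' (hF : ringChar F ≠ 2) (θ : MulChar F ℂ) :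
    θ ^ 2 = 1 ↔ θ = 1 ∨ θ = eta F := by
  have h := sq_eq_one_filter hF
  have h1 : θ ∈ ({θ : MulChar F ℂ | θ ^ 2 = 1} : Finset (MulChar F ℂ)) ↔
    θ ∈ ({1, eta F} : Finset (MulChar F ℂ)) := by rw [h]
  simpa using h1

lemma four_filter (hF : ringChar F ≠ 2) :
    ({θ : MulChar F ℂ | θ ^ 4 = 1} : Finset (MulChar F ℂ)) = {1, eta F} ∪ AA F 1 := by
  ext θ
  simp only [AA, mem_filter, mem_univ, true_and, mul_one, pow_one, mem_union, mem_insert,
    mem_singleton]
  have h : θ ^ 4 = (θ ^ 2) ^ 2 := by rw [← pow_mul]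
  rw [h, sq_eq_one_iff' hF, sq_eq_one_iff' hF]

lemma disj_four (hF : ringChar F ≠ 2) :
    Disjoint ({1, eta F} : Finset (MulChar F ℂ)) (AA F 1) := by
  rw [Finset.disjoint_left]
  intro θ hθ hθ'
  simp only [mem_insert, mem_singleton] at hθ
  simp only [AA, mem_filter, mem_univ, true_and, mul_one, pow_one] at hθ'
  rcases hθ with h | h
  · rw [h, one_pow] at hθ'
    exact eta_ne_one hF hθ'.symm
  · rw [h, eta_sq] at hθ'
    exact eta_ne_one hF hθ'.symm

lemma sum_four (hF : ringChar F ≠ 2) :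
    ∑ θ ∈ ({θ : MulChar F ℂ | θ ^ 4 = 1} : Finset (MulChar F ℂ)), JJ θ =
      -2 + ∑ θ ∈ AA F 1, JJ θ := by
  rw [four_filter hF, sum_union (disj_four hF), sum_pair (eta_ne_one hF).symm, JJ_one hF,
    JJ_eta hF]
  ring

/-- Even case. -/
lemma even_case {ψ : AddChar F ℂ} {ψK : AddChar K ℂ} (hF : ringChar F ≠ 2)
    (hK : Module.finrank F K = 2) (hprim : ψ.IsPrimitive) (hprimK : ψK.IsPrimitive)
    (hψ : ∀ y : K, ψK y = ψ (Algebra.trace F K y)) (h4 : Fintype.card F % 4 = 1)
    {r : ℕ} (hr : Fintype.card F = r ^ 2) {d : ℕ} (hd : Even d) (hd3 : 3 ≤ d)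
    (hS : SS F d + 1 = ((d : ℂ) - 2) * r) :
    2 * d ∣ (Fintype.card F - 1) ∧ ∀ θ : MulChar F ℂ, θ ^ (2 * d) = 1 → θ ^ 4 ≠ 1 →
      JJ θ = r := by
  have hd0 : d ≠ 0 := by omega
  set g := gaussSum (eta F) ψ with hg
  have hr0 : 0 < r := by
    rcases Nat.eq_zero_or_pos r with h | h
    · rw [h] at hr
      exact absurd hr Fintype.card_ne_zero
    · exact h
  have hg0 : g ≠ 0 := by
    intro h0
    have h1 := norm_sq_gaussSum (eta_ne_one hF) hprim
    rw [← hg, h0, norm_zero] at h1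
    have : Fintype.card F = 0 := by
      have : ((Fintype.card F : ℕ) : ℝ) = 0 := by rw [← h1]; norm_num
      exact_mod_cast this
    exact absurd this Fintype.card_ne_zero
  obtain ⟨e, he⟩ := hd
  have hetad : (eta F) ^ d = 1 := by
    rw [he, ← two_mul, pow_mul, eta_sq, one_pow]
  have hfour_sub : ({θ : MulChar F ℂ | θ ^ 4 = 1} : Finset (MulChar F ℂ)) ⊆ AA F d := by
    intro θ hθ
    simp only [AA, mem_filter, mem_univ, true_and] at hθ ⊢
    rw [hetad]
    have : 2 * d = 4 * e := by omega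
    rw [this, pow_mul, hθ, one_pow]
  -- the difference of the two identities
  have h1 := two_mul_SS hF hK ψ ψK hψ d
  have h2 := two_mul_SS hF hK ψ ψK hψ 1
  rw [SS_one hF, mul_zero] at h2
  rw [← sum_sdiff hfour_sub, sum_four hF, ← sum_sdiff (BB_one_subset d)] at h1
  have h3 : (2 : ℂ) * (((d : ℂ) - 2) * r) =
      ∑ θ ∈ AA F d \ ({θ : MulChar F ℂ | θ ^ 4 = 1} : Finset (MulChar F ℂ)), JJ θ +
      ∑ Θ ∈ BB F K d \ BB F K 1, gaussSum Θ ψK / g := by
    apply mul_left_cancel₀ hg0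
    rw [← sum_div]
    field_simp
    rw [← hg] at h1 h2
    linear_combination h1 - h2 - 2 * g * hS
  -- cardinalities
  have hqo : Fintype.card F % 2 = 1 := by omega
  have hA1 := card_four (F := F) h4
  have hB1 := card_BB_one (K := K) h4 hK
  have hA := card_AA_le (F := F) hd0
  have hB := card_BB_le (F := F) (K := K) hd0
  have hA' : #(AA F d \ ({θ : MulChar F ℂ | θ ^ 4 = 1} : Finset (MulChar F ℂ))) =
      #(AA F d) - 4 := by
    rw [card_sdiff_of_subset hfour_sub, hA1]
  have hB' : #(BB F K d \ BB F K 1) = #(BB F K d) - 2 := by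
    rw [card_sdiff_of_subset (BB_one_subset d), hB1]
  have e2 : Fintype.card F + 1 = 2 * ((Fintype.card F + 1) / 2) := by omega
  rw [e2, Nat.gcd_mul_left] at hB
  set a := Nat.gcd (2 * d) (Fintype.card F - 1) with ha
  set b := Nat.gcd d ((Fintype.card F + 1) / 2) with hb
  have ha4 : 4 ≤ a := by
    apply Nat.le_of_dvd (Nat.gcd_pos_of_pos_left _ (by omega))
    apply Nat.dvd_gcd
    · omega
    · omega
  have hb1 : 1 ≤ b := Nat.gcd_pos_of_pos_left _ (by omega)
  have hcop : Nat.Coprime a b := by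
    have h5 : Nat.Coprime ((Fintype.card F - 1)) ((Fintype.card F + 1) / 2) := by
      have h6 : Nat.Coprime ((Fintype.card F - 1) / 2) ((Fintype.card F + 1) / 2) := by
        have : (Fintype.card F + 1) / 2 = (Fintype.card F - 1) / 2 + 1 := by omega
        rw [this]
        exact (Nat.coprime_self_add_right).mpr (Nat.coprime_one_right _)
      have h7 : Nat.Coprime 2 ((Fintype.card F + 1) / 2) := by
        rw [Nat.coprime_two_left, Nat.odd_iff]
        omega
      have h8 : Fintype.card F - 1 = 2 * ((Fintype.card F - 1) / 2) := by omega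
      rw [h8]
      exact Nat.Coprime.mul_left h7 h6
    exact Nat.Coprime.coprime_dvd_left (Nat.gcd_dvd_right _ _)
      (Nat.Coprime.coprime_dvd_right (Nat.gcd_dvd_right _ _) h5)
  have hab : a * b ≤ 2 * d :=
    Nat.le_of_dvd (by omega) (hcop.mul_dvd_of_dvd_of_dvd (Nat.gcd_dvd_left _ _)
      ((Nat.gcd_dvd_left _ _).trans (Dvd.intro_left 2 rfl)))
  -- real parts
  have hnA : ∀ θ ∈ AA F d \ ({θ : MulChar F ℂ | θ ^ 4 = 1} : Finset (MulChar F ℂ)),
      ‖JJ θ‖ ≤ (r : ℝ) := by
    intro θ hθ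
    simp only [mem_sdiff, mem_filter, mem_univ, true_and] at hθ
    have hθ1 := hθ.2
    apply le_of_eq
    apply norm_JJ hF hr
    · rintro rfl
      exact hθ1 (one_pow _)
    · rintro rfl
      apply hθ1
      rw [show (4 : ℕ) = 2 * 2 by norm_num, pow_mul, eta_sq, one_pow]
  have hnB : ∀ Θ ∈ BB F K d \ BB F K 1, ‖gaussSum Θ ψK / g‖ ≤ (r : ℝ) := by
    intro Θ hΘ
    rw [mem_sdiff] at hΘ
    exact le_of_eq (norm_gauss_div hF hK hprim hprimK hr hΘ.1)
  have hreA := re_sum_le _ _ _ hnA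
  have hreB := re_sum_le _ _ _ hnB
  have h5 := congrArg Complex.re h3
  rw [Complex.add_re] at h5
  have h6 : ((2 : ℂ) * (((d : ℂ) - 2) * r)).re = 2 * (((d : ℝ) - 2) * r) := by
    have : ((2 : ℂ) * (((d : ℂ) - 2) * r)) = ((2 * (((d : ℝ) - 2) * r) : ℝ) : ℂ) := by
      push_cast
      ring
    rw [this, Complex.ofReal_re]
  rw [h6] at h5
  set A' := AA F d \ ({θ : MulChar F ℂ | θ ^ 4 = 1} : Finset (MulChar F ℂ)) with hA'def
  set B' := BB F K d \ BB F K 1 with hB'def
  have hcA : (#A' : ℝ) ≤ a - 4 := by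
    have : #A' + 4 ≤ a := by omega
    have : ((#A' : ℕ) : ℝ) + 4 ≤ a := by exact_mod_cast this
    linarith
  have hcB : (#B' : ℝ) ≤ 2 * b - 2 := by
    have : #B' + 2 ≤ 2 * b := by omega
    have : ((#B' : ℕ) : ℝ) + 2 ≤ 2 * b := by exact_mod_cast this
    linarith
  have hr0' : (0 : ℝ) < r := by exact_mod_cast hr0
  have h7 : 2 * (d : ℝ) + 2 ≤ a + 2 * b := by
    have : 2 * (((d : ℝ) - 2) * r) ≤ (a - 4 + (2 * b - 2)) * r := by
      nlinarith
    have := le_of_mul_le_mul_right (a := (r : ℝ)) (b := 2 * ((d : ℝ) - 2))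
      (c := (a - 4 + (2 * b - 2))) (by linarith) hr0'
    linarith
  have h8 : 2 * d + 2 ≤ a + 2 * b := by exact_mod_cast h7
  have h9 : b = 1 := by
    by_contra hcon
    have hb2 : 2 ≤ b := by omega
    nlinarith
  rw [h9] at hab h8
  have had : a = 2 * d := by omega
  have hab'' : (a : ℝ) + 2 * b ≤ 2 * d + 2 := by
    rw [h9, had]
    push_cast
    linarith
  -- equality
  have hEA : (#A' : ℝ) * r ≤ (∑ θ ∈ A', JJ θ).re := by
    nlinarith
  have hallA := eq_of_sum_re _ _ _ hnA hEA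
  refine ⟨?_, ?_⟩
  · have := Nat.gcd_dvd_right (2 * d) (Fintype.card F - 1)
    rw [← ha, had] at this
    exact this
  · intro θ hθ hne
    have hmem : θ ∈ A' := by
      rw [hA'def]
      simp only [mem_sdiff, AA, mem_filter, mem_univ, true_and]
      exact ⟨by rw [hθ, hetad], hne⟩
    have h10 := hallA θ hmem
    rw [h10]
    push_cast
    rfl

end

end Pool.Agent.Lib.MP_b95a42_nt
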