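import Mathlib

/-!
# Digit sums in base `p` and the fractional part formula
-/

namespace Pool.Agent.Lib.MP_b95a42_nt

open Finset

/-- Sum of the base `p` digits. -/
def ds (p a : ℕ) : ℕ := (Nat.digits p a).sum

@[simp] lemma ds_zero (p : ℕ) : ds p 0 = 0 := by simp [ds]

lemma ds_step {p : ℕ} (hp : 1 < p) (a : ℕ) : ds p a = a % p + ds p (a / p) := by
  unfold ds
  rcases Nat.eq_zero_or_pos a with h | h
  · subst h
    simp
  · rw [Nat.digits_def' hp h]
    simp

/-- `ds (p b + c) = c + ds b` for `c < p`. -/
lemma ds_mul_add {p : ℕ} (hp : 1 < p) (b c : ℕ) (hc : c < p) : ds p (p * b + c) = c + ds p b := by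
  rw [ds_step hp]
  congr 1
  · rw [Nat.mul_add_mod, Nat.mod_eq_of_lt hc]
  · rw [Nat.mul_add_div (by omega), Nat.div_eq_of_lt hc, Nat.add_zero]

/-- Digit sums of complementary numbers. -/
lemma ds_compl {p : ℕ} (hp : 1 < p) (f : ℕ) : ∀ a, a < p ^ f →
    ds p a + ds p (p ^ f - 1 - a) = f * (p - 1) := by
  induction f with
  | zero =>
    intro a ha
    have : a = 0 := by simpa using ha
    subst this
    simp
  | succ f ih =>
    intro a ha
    have hb : a / p < p ^ f := by
      rw [Nat.div_lt_iff_lt_mul (by omega)]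
      rwa [pow_succ] at ha
    have hc : a % p < p := Nat.mod_lt _ (by omega)
    have h1 := ih (a / p) hb
    have hdm := Nat.div_add_mod a p
    have hpf : 0 < p ^ f := by positivity
    have key : p ^ (f + 1) - 1 - a = p * (p ^ f - 1 - a / p) + (p - 1 - a % p) := by
      have e1 : p * (p ^ f - 1 - a / p) = p * p ^ f - p - p * (a / p) := by
        rw [Nat.mul_sub, Nat.mul_sub, Nat.mul_one]
      rw [e1, pow_succ]
      have h3 : p * (a / p) + p ≤ p * p ^ f := by
        calc p * (a / p) + p = p * (a / p + 1) := by ring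
          _ ≤ p * p ^ f := Nat.mul_le_mul_left _ hb
      have h4 : p ^ f * p = p * p ^ f := Nat.mul_comm _ _
      rw [h4]
      omega
    rw [key, ds_mul_add hp _ _ (by omega), ds_step hp a]
    have : (f + 1) * (p - 1) = f * (p - 1) + (p - 1) := by ring
    omega

/-- Legendre's formula. -/
lemma legendre {p : ℕ} (hp : 1 < p) (f : ℕ) : ∀ a, a < p ^ f →
    (p - 1) * ∑ j ∈ range f, a / p ^ (j + 1) + ds p a = a := by
  induction f with
  | zero =>
    intro a ha
    have : a = 0 := by simpa using ha
    subst this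
    simp
  | succ f ih =>
    intro a ha
    have hb : a / p < p ^ f := by
      rw [Nat.div_lt_iff_lt_mul (by omega)]
      rwa [pow_succ] at ha
    have h1 := ih (a / p) hb
    rw [sum_range_succ']
    have e1 : ∀ j ∈ range f, a / p ^ (j + 1 + 1) = a / p / p ^ (j + 1) := by
      intro j _
      rw [Nat.div_div_eq_div_mul, ← pow_succ']
    rw [sum_congr rfl e1, ds_step hp a]
    have hdm := Nat.div_add_mod a p
    have h2 : (p - 1) * (a / p) + a / p = p * (a / p) := by
      obtain ⟨p', rfl⟩ : ∃ p', p = p' + 1 := ⟨p - 1, by omega⟩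
      simp
      ring
    have e2 : a / p ^ (0 + 1) = a / p := by simp
    rw [e2, mul_add]
    omega

/-- Fractional part formula for digit sums. -/
lemma mul_ds {p m c f u : ℕ} (hp : 1 < p) (hm : m * c + 1 = p ^ f) (hu : u < m) :
    m * ds p (u * c) = (p - 1) * ∑ i ∈ range f, (p ^ i * u) % m := by
  have hmpos : 0 < m := by omega
  rcases Nat.eq_zero_or_pos c with hc | hcpos
  · subst hc
    have hf : p ^ f = 1 := by omega
    have hf0 : f = 0 := by
      rcases Nat.eq_zero_or_pos f with h | h
      · exact h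
      · exfalso
        have := Nat.one_lt_pow (by omega : f ≠ 0) hp
        omega
    subst hf0
    simp
  have hlt : u * c < p ^ f := by
    have : u * c ≤ m * c := Nat.mul_le_mul_right _ hu.le
    omega
  have hleg := legendre hp f (u * c) hlt
  -- the quotients
  have hquot : ∀ j ∈ range f, (u * c) / p ^ (j + 1) = (p ^ (f - 1 - j) * u) / m := by
    intro j hj
    rw [mem_range] at hj
    set R := (p ^ (f - 1 - j) * u) % m with hR
    set M := (p ^ (f - 1 - j) * u) / m with hM
    have hdm : m * M + R = p ^ (f - 1 - j) * u := Nat.div_add_mod _ _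
    have hRlt : R < m := Nat.mod_lt _ hmpos
    have hpow : p ^ (f - 1 - j) * p ^ (j + 1) = p ^ f := by
      rw [← pow_add]
      congr 1
      omega
    have hcop : Nat.Coprime m p := by
      have h1 : Nat.Coprime m (p ^ f) := by
        rw [← hm]
        rw [Nat.mul_comm m c]
        exact (Nat.coprime_mul_right_add_right m 1 c).mpr (Nat.coprime_one_right m)
      rcases Nat.eq_zero_or_pos f with h0 | h0
      · omega
      · exact Nat.Coprime.coprime_dvd_right (dvd_pow_self p (by omega)) h1
    -- R * p^(j+1) ≡ u mod m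
    have hmul : m * M * p ^ (j + 1) + R * p ^ (j + 1) = p ^ f * u := by
      calc m * M * p ^ (j + 1) + R * p ^ (j + 1) = (m * M + R) * p ^ (j + 1) := by ring
        _ = (p ^ (f - 1 - j) * p ^ (j + 1)) * u := by rw [hdm]; ring
        _ = p ^ f * u := by rw [hpow]
    have hge : u ≤ R * p ^ (j + 1) := by
      by_contra hlt'
      push Not at hlt'
      have hcong : R * p ^ (j + 1) ≡ u [MOD m] := by
        have h1 : m * M * p ^ (j + 1) + R * p ^ (j + 1) ≡ R * p ^ (j + 1) [MOD m] := by
          have : m * M * p ^ (j + 1) + R * p ^ (j + 1) =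
            R * p ^ (j + 1) + m * (M * p ^ (j + 1)) := by ring
          rw [this]
          simp [Nat.ModEq]
        have h2 : p ^ f * u ≡ u [MOD m] := by
          rw [← hm]
          have : (m * c + 1) * u = u + m * (c * u) := by ring
          rw [this]
          simp [Nat.ModEq]
        rw [hmul] at h1
        exact h1.symm.trans h2
      have := Nat.ModEq.eq_of_lt_of_lt hcong (by omega) hu
      omega
    have hpp : 0 < p ^ (j + 1) := by positivity
    -- now sandwich
    have hmain : m * (u * c) + u = p ^ f * u := by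
      calc m * (u * c) + u = (m * c + 1) * u := by ring
        _ = p ^ f * u := by rw [hm]
    have hup : R * p ^ (j + 1) < m * p ^ (j + 1) := by
      exact Nat.mul_lt_mul_of_pos_right hRlt hpp
    apply Nat.div_eq_of_lt_le
    · -- M * p^(j+1) ≤ u * c
      have : m * (M * p ^ (j + 1)) ≤ m * (u * c) := by
        have : m * (M * p ^ (j + 1)) = m * M * p ^ (j + 1) := by ring
        omega
      exact Nat.le_of_mul_le_mul_left this hmpos
    · -- u * c < (M+1) * p^(j+1)
      have : m * (u * c) < m * ((M + 1) * p ^ (j + 1)) := by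
        have : m * ((M + 1) * p ^ (j + 1)) = m * M * p ^ (j + 1) + m * p ^ (j + 1) := by ring
        omega
      exact Nat.lt_of_mul_lt_mul_left this
  rw [sum_congr rfl hquot] at hleg
  -- reflect the sum
  have hrefl : ∑ j ∈ range f, (p ^ (f - 1 - j) * u) / m = ∑ i ∈ range f, (p ^ i * u) / m := by
    exact sum_range_reflect (fun i => (p ^ i * u) / m) f
  rw [hrefl] at hleg
  have hdm : ∀ i ∈ range f, m * ((p ^ i * u) / m) + (p ^ i * u) % m = p ^ i * u :=
    fun i _ => Nat.div_add_mod _ _
  have hsum : m * ∑ i ∈ range f, (p ^ i * u) / m + ∑ i ∈ range f, (p ^ i * u) % m =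
      (∑ i ∈ range f, p ^ i) * u := by
    rw [mul_sum, ← sum_add_distrib, sum_congr rfl hdm, sum_mul]
  have hgeom : (p - 1) * ∑ i ∈ range f, p ^ i = m * c := by
    have := Nat.geomSum_eq (show 2 ≤ p by omega) f
    have hdvd : (p - 1) ∣ p ^ f - 1 := by
      simpa using Nat.sub_dvd_pow_sub_pow p 1 f
    rw [this, Nat.mul_div_cancel' hdvd]
    omega
  -- combine
  have h1 : (p - 1) * (m * ∑ i ∈ range f, (p ^ i * u) / m) +
      (p - 1) * ∑ i ∈ range f, (p ^ i * u) % m = m * c * u := by
    rw [← mul_add, hsum, ← mul_assoc, hgeom]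
  have h2 : (p - 1) * (m * ∑ i ∈ range f, (p ^ i * u) / m) + m * ds p (u * c) = m * (u * c) := by
    have h0 : m * ((p - 1) * ∑ i ∈ range f, (p ^ i * u) / m + ds p (u * c)) = m * (u * c) := by
      rw [hleg]
    rw [← h0]
    ring
  have h3 : m * (u * c) = m * c * u := by ring
  omega

end Pool.Agent.Lib.MP_b95a42_nt
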