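import Mathlib
import Pool.Agent.Lib.MP_b95a42_nt.Digits

/-!
# Character sums of digit sums
-/

namespace Pool.Agent.Lib.MP_b95a42_nt

open Finset

lemma sum_chi_ds {p f m c : ℕ} (hp : p.Prime) (hm : m * c + 1 = p ^ f) [NeZero m]
    (χ : MulChar (ZMod m) ℂ) (hχ : χ (p : ZMod m) = 1) :
    (m : ℂ) * ∑ u : ZMod m, χ u * (ds p (u.val * c) : ℂ) =
      ((p - 1 : ℕ) : ℂ) * f * ∑ u : ZMod m, χ u * (u.val : ℂ) := by
  have hunit : IsUnit (p : ZMod m) := by
    by_contra hnu
    rw [χ.map_nonunit hnu] at hχ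
    exact zero_ne_one hχ
  have h1 : ∀ u : ZMod m, (m : ℂ) * (ds p (u.val * c) : ℂ) =
      ((p - 1 : ℕ) : ℂ) * ∑ i ∈ range f, ((((p : ZMod m) ^ i * u).val : ℕ) : ℂ) := by
    intro u
    have := mul_ds (p := p) (m := m) (c := c) (f := f) (u := u.val) hp.one_lt hm (ZMod.val_lt u)
    have h2 : ∀ i ∈ range f, (p ^ i * u.val) % m = ((p : ZMod m) ^ i * u).val := by
      intro i _
      rw [← ZMod.val_natCast]
      congr 1
      push_cast
      rw [ZMod.natCast_zmod_val]
    rw [sum_congr rfl h2] at this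
    exact_mod_cast this
  have h3 : ∀ i : ℕ, ∑ u : ZMod m, χ u * ((((p : ZMod m) ^ i * u).val : ℕ) : ℂ) =
      ∑ u : ZMod m, χ u * (u.val : ℂ) := by
    intro i
    obtain ⟨U, hU⟩ := hunit
    refine Fintype.sum_bijective (fun u : ZMod m => (p : ZMod m) ^ i * u) ?_ _ _ ?_
    · have : (fun u : ZMod m => (p : ZMod m) ^ i * u) = fun u => ((U ^ i : (ZMod m)ˣ) : ZMod m) * u := by
        funext u
        rw [Units.val_pow_eq_pow_val, hU]
      rw [this]
      exact (U ^ i).mulLeft_bijective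
    · intro u
      rw [map_mul, map_pow, hχ, one_pow, one_mul]
  calc (m : ℂ) * ∑ u : ZMod m, χ u * (ds p (u.val * c) : ℂ)
      = ∑ u : ZMod m, χ u * ((m : ℂ) * (ds p (u.val * c) : ℂ)) := by
        rw [mul_sum]
        apply sum_congr rfl
        intro u _
        ring
    _ = ∑ u : ZMod m, χ u * (((p - 1 : ℕ) : ℂ) *
          ∑ i ∈ range f, ((((p : ZMod m) ^ i * u).val : ℕ) : ℂ)) := by
        apply sum_congr rfl
        intro u _
        rw [h1]
    _ = ((p - 1 : ℕ) : ℂ) * ∑ i ∈ range f, ∑ u : ZMod m,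
          χ u * ((((p : ZMod m) ^ i * u).val : ℕ) : ℂ) := by
        rw [sum_comm, mul_sum]
        apply sum_congr rfl
        intro u _
        rw [mul_sum, mul_sum, mul_sum]
        apply sum_congr rfl
        intro i _
        ring
    _ = ((p - 1 : ℕ) : ℂ) * f * ∑ u : ZMod m, χ u * (u.val : ℂ) := by
        rw [sum_congr rfl (fun i _ => h3 i), sum_const, card_range, nsmul_eq_mul]
        ring

/-- Case A: digit sums invariant under `u ↦ u + h` where `χ (u + h) = - χ u`. -/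
lemma sum_zero_A {p f m c : ℕ} (hp : p.Prime) (hf : f ≠ 0) (hm : m * c + 1 = p ^ f) [NeZero m]
    (χ : MulChar (ZMod m) ℂ) (hχ : χ (p : ZMod m) = 1) (h : ZMod m)
    (hanti : ∀ u : ZMod m, χ (u + h) = - χ u)
    (hinv : ∀ u : ZMod m, IsUnit u → ds p ((u + h).val * c) = ds p (u.val * c)) :
    ∑ u : ZMod m, χ u * (u.val : ℂ) = 0 := by
  have h0 : ∑ u : ZMod m, χ u * (ds p (u.val * c) : ℂ) = 0 := by
    have h1 : ∑ u : ZMod m, χ u * (ds p (u.val * c) : ℂ) =
        ∑ u : ZMod m, χ (u + h) * (ds p ((u + h).val * c) : ℂ) := by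
      symm
      exact Equiv.sum_comp (Equiv.addRight h) (fun u => χ u * (ds p (u.val * c) : ℂ))
    have h2 : ∑ u : ZMod m, χ (u + h) * (ds p ((u + h).val * c) : ℂ) =
        - ∑ u : ZMod m, χ u * (ds p (u.val * c) : ℂ) := by
      rw [← sum_neg_distrib]
      apply sum_congr rfl
      intro u _
      by_cases hu : IsUnit u
      · rw [hanti, hinv u hu]
        ring
      · rw [hanti, χ.map_nonunit hu]
        ring
    have h3 := h1.trans h2
    have h4 : (2 : ℂ) * ∑ u : ZMod m, χ u * (ds p (u.val * c) : ℂ) = 0 := by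
      linear_combination h3
    exact (mul_eq_zero.mp h4).resolve_left two_ne_zero
  have := sum_chi_ds hp hm χ hχ
  rw [h0, mul_zero] at this
  have hne : (((p - 1 : ℕ) : ℂ) * f) ≠ 0 := by
    apply mul_ne_zero
    · have := hp.one_lt
      exact_mod_cast (by omega : p - 1 ≠ 0)
    · exact_mod_cast hf
  exact (mul_eq_zero.mp this.symm).resolve_left hne

/-- Case B: digit sums constant on units. -/
lemma sum_zero_B {p f m c : ℕ} (hp : p.Prime) (hf : f ≠ 0) (hm : m * c + 1 = p ^ f) [NeZero m]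
    (χ : MulChar (ZMod m) ℂ) (hχ : χ (p : ZMod m) = 1) (hχ1 : χ ≠ 1) (C : ℕ)
    (hinv : ∀ u : ZMod m, IsUnit u → ds p (u.val * c) = C) :
    ∑ u : ZMod m, χ u * (u.val : ℂ) = 0 := by
  have h0 : ∑ u : ZMod m, χ u * (ds p (u.val * c) : ℂ) = 0 := by
    have h2 : ∑ u : ZMod m, χ u * (ds p (u.val * c) : ℂ) =
        ∑ u : ZMod m, χ u * (C : ℂ) := by
      apply sum_congr rfl
      intro u _
      by_cases hu : IsUnit u
      · rw [hinv u hu]
      · rw [χ.map_nonunit hu]
        ring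
    rw [h2, ← sum_mul, MulChar.sum_eq_zero_of_ne_one hχ1, zero_mul]
  have := sum_chi_ds hp hm χ hχ
  rw [h0, mul_zero] at this
  have hne : (((p - 1 : ℕ) : ℂ) * f) ≠ 0 := by
    apply mul_ne_zero
    · have := hp.one_lt
      exact_mod_cast (by omega : p - 1 ≠ 0)
    · exact_mod_cast hf
  exact (mul_eq_zero.mp this.symm).resolve_left hne

end Pool.Agent.Lib.MP_b95a42_nt
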