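import Mathlib
import Pool.Agent.Lib.MP_b95a42_nt.LOne2

/-!
# The Dirichlet characters `χ₄ · (· / N)^e` modulo `4 N`
-/

namespace Pool.Agent.Lib.MP_b95a42_nt

open Finset NumberTheorySymbols

/-- criterion for primitivity -/
lemma isPrimitive_of_forall {n : ℕ} [NeZero n] (χ : DirichletCharacter ℂ n)
    (h : ∀ l : ℕ, l.Prime → l ∣ n → ∃ x : ℕ, x % (n / l) = 1 % (n / l) ∧ χ (x : ZMod n) ≠ 1 ∧
      χ (x : ZMod n) ≠ 0) : χ.IsPrimitive := by
  rw [DirichletCharacter.isPrimitive_def]
  by_contra hne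
  have hdvd := χ.conductor_dvd_level
  obtain ⟨k, hk⟩ := hdvd
  have hk1 : k ≠ 1 := by
    rintro rfl
    rw [mul_one] at hk
    exact hne hk.symm
  obtain ⟨l, hl, hlk⟩ := Nat.exists_prime_and_dvd hk1
  have hln : l ∣ n := by
    rw [hk]
    exact hlk.mul_left _
  obtain ⟨x, hx1, hx2, hx3⟩ := h l hl hln
  have hd : n / l ∣ n := Nat.div_dvd_of_dvd hln
  have hcd : χ.conductor ∣ n / l := by
    obtain ⟨k', hk'⟩ := hlk
    refine ⟨k', ?_⟩
    conv_lhs => rw [hk, hk']
    rw [mul_left_comm]
    exact Nat.mul_div_cancel_left _ hl.pos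
  have hft := DirichletCharacter.FactorsThrough.mono χ χ.factorsThrough_conductor hcd hd
  rw [DirichletCharacter.factorsThrough_iff_ker_unitsMap hd] at hft
  have hu : IsUnit (x : ZMod n) := by
    by_contra hnu
    exact hx3 (χ.map_nonunit hnu)
  obtain ⟨U, hU⟩ := hu
  have hker : U ∈ (ZMod.unitsMap hd).ker := by
    rw [MonoidHom.mem_ker]
    ext
    rw [ZMod.unitsMap_val, hU, ZMod.cast_natCast hd, Units.val_one]
    have : ((x : ℕ) : ZMod (n / l)) = ((1 : ℕ) : ZMod (n / l)) :=
      (ZMod.natCast_eq_natCast_iff' x 1 (n / l)).mpr hx1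
    rw [this, Nat.cast_one]
  have := hft hker
  rw [MonoidHom.mem_ker] at this
  have h2 : χ U = 1 := by
    rw [← MulChar.coe_toUnitHom, this, Units.val_one]
  rw [hU] at h2
  exact hx2 h2

/-- The function on naturals. -/
def chf (N e : ℕ) (x : ℕ) : ℤ := ZMod.χ₄ (x : ZMod 4) * J((x : ℤ) | N) ^ e

lemma chf_mod (N e x y : ℕ) (h : x % (4 * N) = y % (4 * N)) : chf N e x = chf N e y := by
  unfold chf
  have h4 : x % 4 = y % 4 := by
    have : 4 ∣ 4 * N := Dvd.intro _ rfl
    exact Nat.ModEq.of_dvd this h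
  have hN : x % N = y % N := by
    have : N ∣ 4 * N := Dvd.intro_left _ rfl
    exact Nat.ModEq.of_dvd this h
  congr 1
  · rw [ZMod.χ₄_nat_mod_four x, ZMod.χ₄_nat_mod_four y, h4]
  · congr 1
    apply jacobiSym.mod_left'
    exact_mod_cast congrArg (Nat.cast : ℕ → ℤ) hN

lemma chf_mul (N e x y : ℕ) : chf N e (x * y) = chf N e x * chf N e y := by
  unfold chf
  push_cast
  rw [map_mul, jacobiSym.mul_left, mul_pow]
  ring

lemma chf_one (N e : ℕ) : chf N e 1 = 1 := by
  unfold chf
  simp

/-- The character `χ₄ · (· / N)^e` modulo `4 N`. -/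
noncomputable def chN (N e : ℕ) [NeZero N] (he : e ≠ 0) : DirichletCharacter ℂ (4 * N) where
  toFun u := (chf N e u.val : ℂ)
  map_one' := by
    have h : chf N e (ZMod.val (1 : ZMod (4 * N))) = 1 := by
      have h1 : (ZMod.val (1 : ZMod (4 * N))) % (4 * N) = 1 % (4 * N) := by
        have := ZMod.val_natCast (4 * N) 1
        rw [Nat.cast_one] at this
        rw [this, Nat.mod_mod]
      rw [chf_mod N e _ _ h1, chf_one]
    simp [h]
  map_mul' := by
    intro x y
    have h : chf N e (x * y).val = chf N e (x.val * y.val) := by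
      apply chf_mod
      rw [ZMod.val_mul, Nat.mod_mod]
    simp only [h, chf_mul]
    push_cast
    rfl
  map_nonunit' := by
    intro x hx
    have hx2 : ¬ Nat.Coprime x.val (4 * N) := by
      intro hc
      apply hx
      rw [← ZMod.natCast_zmod_val x]
      exact (ZMod.isUnit_iff_coprime _ _).mpr hc
    rw [Nat.coprime_mul_iff_right, not_and_or] at hx2
    have : chf N e x.val = 0 := by
      unfold chf
      rcases hx2 with h | h
      · have h2 : ¬ Nat.Coprime x.val 2 := by
          intro hc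
          apply h
          exact Nat.Coprime.mul_right (m := 2) (n := 2) hc hc
        rw [Nat.coprime_comm, Nat.coprime_two_left, Nat.not_odd_iff_even, Nat.even_iff] at h2
        rw [ZMod.χ₄_nat_eq_if_mod_four, if_pos h2, zero_mul]
      · have : J((x.val : ℤ) | N) = 0 := by
          rw [jacobiSym.eq_zero_iff_not_coprime]
          intro h3
          apply h
          exact_mod_cast h3
        rw [this, zero_pow he, mul_zero]
    simp [this]

lemma chN_natCast (N e : ℕ) [NeZero N] (he : e ≠ 0) (x : ℕ) :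
    chN N e he (x : ZMod (4 * N)) = (chf N e x : ℂ) := by
  change ((chf N e (x : ZMod (4 * N)).val : ℤ) : ℂ) = _
  rw [chf_mod N e _ x]
  rw [ZMod.val_natCast, Nat.mod_mod]

lemma chN_apply (N e : ℕ) [NeZero N] (he : e ≠ 0) (u : ZMod (4 * N)) :
    chN N e he u = (chf N e u.val : ℂ) := rfl

lemma chf_anti (N e x : ℕ) (hN : N % 2 = 1) : chf N e (x + 2 * N) = - chf N e x := by
  unfold chf
  have h1 : J(((x + 2 * N : ℕ) : ℤ) | N) = J((x : ℤ) | N) := by
    apply jacobiSym.mod_left'
    push_cast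
    rw [Int.add_mul_emod_self_right]
  rw [h1, ZMod.χ₄_nat_eq_if_mod_four, ZMod.χ₄_nat_eq_if_mod_four]
  have h2 : (x + 2 * N) % 4 = (x + 2) % 4 := by omega
  rcases (by omega : x % 4 = 0 ∨ x % 4 = 1 ∨ x % 4 = 2 ∨ x % 4 = 3) with h | h | h | h
  · rw [if_pos (by omega), if_pos (by omega)]
    simp
  · rw [if_neg (by omega), if_neg (by omega), if_neg (by omega), if_pos h]
    simp
  · rw [if_pos (by omega), if_pos (by omega)]
    simp
  · rw [if_neg (by omega), if_pos (by omega), if_neg (by omega), if_neg (by omega)]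
    simp

lemma chN_anti (N e : ℕ) [NeZero N] (he : e ≠ 0) (hN : N % 2 = 1) (u : ZMod (4 * N)) :
    chN N e he (u + (2 * N : ℕ)) = - chN N e he u := by
  have h1 : u + ((2 * N : ℕ) : ZMod (4 * N)) = ((u.val + 2 * N : ℕ) : ZMod (4 * N)) := by
    rw [Nat.cast_add (R := ZMod (4 * N)) u.val (2 * N), ZMod.natCast_zmod_val]
  rw [h1, chN_natCast, chN_apply, chf_anti N e _ hN]
  push_cast
  rfl

lemma chN_odd (N e : ℕ) [NeZero N] (he : e ≠ 0) (hN : N % 4 = 1) : (chN N e he).Odd := by
  have h0 : 0 < N := by omega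
  have h1 : (-1 : ZMod (4 * N)) = ((4 * N - 1 : ℕ) : ZMod (4 * N)) := by
    rw [Nat.cast_sub (by omega)]
    simp
  change chN N e he (-1) = -1
  rw [h1, chN_natCast]
  have h2 : chf N e (4 * N - 1) = -1 := by
    unfold chf
    have h3 : J(((4 * N - 1 : ℕ) : ℤ) | N) = 1 := by
      have h4 : J(((4 * N - 1 : ℕ) : ℤ) | N) = J(-1 | N) := by
        apply jacobiSym.mod_left'
        have : ((4 * N - 1 : ℕ) : ℤ) = -1 + N * 4 := by
          rw [Nat.cast_sub (by omega)]
          push_cast
          ring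
        rw [this, Int.add_mul_emod_self_left]
      rw [h4, jacobiSym.at_neg_one (Nat.odd_iff.mpr (by omega)), ZMod.χ₄_nat_one_mod_four hN]
    rw [h3, one_pow, mul_one, ZMod.χ₄_nat_three_mod_four (by omega)]
  rw [h2]
  norm_num

lemma exists_nonresidue {l : ℕ} (hl : l.Prime) (hl2 : l ≠ 2) : ∃ t : ℕ, J((t : ℤ) | l) = -1 := by
  have : Fact l.Prime := ⟨hl⟩
  have h1 : ringChar (ZMod l) ≠ 2 := by
    rw [ZMod.ringChar_zmod_n]
    exact hl2
  obtain ⟨a, ha⟩ := FiniteField.exists_nonsquare h1
  refine ⟨a.val, ?_⟩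
  rw [ZMod.nonsquare_iff_jacobiSym_eq_neg_one]
  simpa using ha

lemma chN_primitive (N : ℕ) [NeZero N] (hN : N % 4 = 1) (hsq : Squarefree N) :
    (chN N 1 one_ne_zero).IsPrimitive := by
  apply isPrimitive_of_forall
  intro l hl hln
  by_cases hl2 : l = 2
  · subst hl2
    refine ⟨1 + 2 * N, ?_, ?_, ?_⟩
    · have : 4 * N / 2 = 2 * N := by omega
      rw [this, Nat.add_mod_right]
    · rw [chN_natCast, chf_anti _ _ _ (by omega), chf_one]
      norm_num
    · rw [chN_natCast, chf_anti _ _ _ (by omega), chf_one]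
      norm_num
  · have hlN : l ∣ N := by
      have h3 := (Nat.Prime.dvd_mul hl).mp hln
      rcases h3 with h | h
      · exfalso
        have : l ∣ 2 ^ 2 := by norm_num; exact h
        exact hl2 ((Nat.prime_dvd_prime_iff_eq hl Nat.prime_two).mp (hl.dvd_of_dvd_pow this))
      · exact h
    obtain ⟨M, hM⟩ := hlN
    have hcop : Nat.Coprime l M := by
      rw [hM] at hsq
      exact Nat.coprime_of_squarefree_mul hsq
    have hcop4 : Nat.Coprime l (4 * M) := by
      apply Nat.Coprime.mul_right _ hcop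
      have : (4 : ℕ) = 2 ^ 2 := by norm_num
      rw [this]
      exact Nat.Coprime.pow_right _ ((Nat.coprime_primes hl Nat.prime_two).mpr hl2)
    obtain ⟨t, ht⟩ := exists_nonresidue hl hl2
    obtain ⟨x, hx1, hx2⟩ := Nat.chineseRemainder hcop4 t 1
    have hdiv : 4 * N / l = 4 * M := by
      rw [hM, mul_left_comm]
      exact Nat.mul_div_cancel_left _ hl.pos
    have hchf : chf N 1 x = -1 := by
      unfold chf
      rw [pow_one, hM]
      have hl0 : l ≠ 0 := hl.ne_zero
      have hM0 : M ≠ 0 := by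
        rintro rfl
        rw [mul_zero] at hM
        omega
      rw [jacobiSym.mul_right' _ hl0 hM0]
      have h5 : J((x : ℤ) | l) = -1 := by
        rw [← ht]
        apply jacobiSym.mod_left'
        exact_mod_cast congrArg (Nat.cast : ℕ → ℤ) hx1
      have h6 : J((x : ℤ) | M) = 1 := by
        have h7 : x ≡ 1 [MOD M] := Nat.ModEq.of_dvd (Dvd.intro_left 4 rfl) hx2
        have h8 : J((x : ℤ) | M) = J((1 : ℤ) | M) := by
          apply jacobiSym.mod_left'
          exact_mod_cast congrArg (Nat.cast : ℕ → ℤ) h7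
        rw [h8, jacobiSym.one_left]
      have h9 : x % 4 = 1 := by
        have h7 : x ≡ 1 [MOD 4] := Nat.ModEq.of_dvd (Dvd.intro M rfl) hx2
        exact h7
      rw [h5, h6, ZMod.χ₄_nat_one_mod_four h9]
      norm_num
    refine ⟨x, ?_, ?_, ?_⟩
    · rw [hdiv]
      exact hx2
    · rw [chN_natCast, hchf]
      norm_num
    · rw [chN_natCast, hchf]
      norm_num

/-- `∑_{u < 4k} χ₄(u) u = -2k`. -/
lemma sum_chi4 (k : ℕ) : ∑ u ∈ range (4 * k), ZMod.χ₄ (u : ZMod 4) * (u : ℤ) = -2 * k := by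
  induction k with
  | zero => simp
  | succ k ih =>
    rw [show 4 * (k + 1) = 4 * k + 1 + 1 + 1 + 1 by ring, sum_range_succ, sum_range_succ,
      sum_range_succ, sum_range_succ, ih]
    rw [ZMod.χ₄_nat_eq_if_mod_four, ZMod.χ₄_nat_eq_if_mod_four, ZMod.χ₄_nat_eq_if_mod_four,
      ZMod.χ₄_nat_eq_if_mod_four]
    rw [if_pos (by omega), if_neg (by omega), if_pos (by omega), if_pos (by omega),
      if_neg (by omega), if_neg (by omega)]
    push_cast
    ring

/-- The sum for `χ₄` modulo `4 l`, `l ≡ 3 mod 4`. -/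
lemma sum_chN_three {l : ℕ} (hl : l.Prime) (hl3 : l % 4 = 3) [NeZero l] :
    ∑ u : ZMod (4 * l), chN l 2 two_ne_zero u * (u.val : ℂ) ≠ 0 := by
  have hl0 : 0 < l := hl.pos
  have h1 : ∑ u : ZMod (4 * l), chN l 2 two_ne_zero u * (u.val : ℂ) =
      ((∑ x ∈ range (4 * l), chf l 2 x * (x : ℤ) : ℤ) : ℂ) := by
    push_cast
    have h2 : ∀ u : ZMod (4 * l), chN l 2 two_ne_zero u * (u.val : ℂ) =
        (fun x : ℕ => ((chf l 2 x : ℤ) : ℂ) * (x : ℂ)) u.val := fun u => rfl
    rw [Finset.sum_congr rfl (fun u _ => h2 u)]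
    refine Finset.sum_bij (fun u _ => u.val) ?_ ?_ ?_ ?_
    · intro u _
      rw [mem_range]
      exact ZMod.val_lt u
    · intro u _ v _ huv
      exact ZMod.val_injective _ huv
    · intro x hx
      rw [mem_range] at hx
      exact ⟨(x : ZMod (4 * l)), mem_univ _, ZMod.val_cast_of_lt hx⟩
    · intro u _
      rfl
  rw [h1]
  have h3 : ∀ x ∈ range (4 * l), chf l 2 x * (x : ℤ) =
      ZMod.χ₄ (x : ZMod 4) * (x : ℤ) - (if l ∣ x then ZMod.χ₄ (x : ZMod 4) * (x : ℤ) else 0) := by
    intro x _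
    unfold chf
    split_ifs with h
    · have : J((x : ℤ) | l) = 0 := by
        rw [jacobiSym.eq_zero_iff_not_coprime]
        have : Int.gcd (x : ℤ) l = l := by
          rw [Int.gcd_natCast_natCast]
          exact Nat.gcd_eq_right h
        rw [this]
        exact hl.one_lt.ne'
      rw [this]
      ring
    · have : J((x : ℤ) | l) ^ 2 = 1 := by
        apply jacobiSym.sq_one
        rw [Int.gcd_natCast_natCast]
        exact ((Nat.Prime.coprime_iff_not_dvd hl).mpr h).symm
      rw [this]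
      ring
  have h4 : ∑ x ∈ range (4 * l), chf l 2 x * (x : ℤ) = -4 * l := by
    rw [sum_congr rfl h3, sum_sub_distrib, sum_chi4, ← sum_filter]
    have h5 : (range (4 * l)).filter (fun x => l ∣ x) = {0, l, 2 * l, 3 * l} := by
      ext x
      simp only [mem_filter, mem_range, mem_insert, mem_singleton]
      constructor
      · rintro ⟨hx, k, rfl⟩
        have : k < 4 := by
          by_contra hk
          push Not at hk
          have : l * 4 ≤ l * k := Nat.mul_le_mul_left l hk
          omega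
        interval_cases k
        · left; ring
        · right; left; ring
        · right; right; left; ring
        · right; right; right; ring
      · rintro (rfl | rfl | rfl | rfl)
        · exact ⟨by omega, dvd_zero _⟩
        · exact ⟨by omega, dvd_refl _⟩
        · exact ⟨by omega, Dvd.intro_left _ rfl⟩
        · exact ⟨by omega, Dvd.intro_left _ rfl⟩
    rw [h5, sum_insert, sum_insert, sum_insert, sum_singleton]
    · have e1 : ZMod.χ₄ ((l : ℕ) : ZMod 4) = -1 := ZMod.χ₄_nat_three_mod_four hl3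
      have e2 : ZMod.χ₄ ((2 * l : ℕ) : ZMod 4) = 0 := by
        rw [ZMod.χ₄_nat_eq_if_mod_four, if_pos (by omega)]
      have e3 : ZMod.χ₄ ((3 * l : ℕ) : ZMod 4) = 1 := by
        rw [ZMod.χ₄_nat_eq_if_mod_four, if_neg (by omega), if_pos (by omega)]
      rw [e1, e2, e3]
      push_cast
      ring
    · simp only [mem_singleton]
      omega
    · simp only [mem_insert, mem_singleton]
      omega
    · simp only [mem_insert, mem_singleton]
      omega
  rw [h4]
  have : (l : ℂ) ≠ 0 := by exact_mod_cast hl0.ne'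
  push_cast
  simpa using this

end Pool.Agent.Lib.MP_b95a42_nt
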