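import Mathlib
import Pool.Agent.Lib.MP_b95a42_nt.Digits

/-!
# Stickelberger's theorem on valuations of Gauss sums over finite fields

Everything takes place in `ℂ` with a valuation subring `V` in which `p` is a nonunit.
-/

namespace Pool.Agent.Lib.MP_b95a42_nt

open Finset

section Basic

lemma exists_valuationSubring (p : ℕ) [hp : Fact p.Prime] :
    ∃ V : ValuationSubring ℂ, V.valuation (p : ℂ) < 1 := by
  have hI : (Ideal.span {((p : (Int.castRingHom ℂ).range))} :
      Ideal (Int.castRingHom ℂ).range) ≠ ⊤ := by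
    intro h
    rw [Ideal.span_singleton_eq_top] at h
    obtain ⟨u, hu⟩ := h
    have h1 : ((u⁻¹ : ((Int.castRingHom ℂ).range)ˣ) : (Int.castRingHom ℂ).range) *
        (p : (Int.castRingHom ℂ).range) = 1 := by
      rw [← hu]
      simp
    have h2 : (((u⁻¹ : ((Int.castRingHom ℂ).range)ˣ) : (Int.castRingHom ℂ).range) : ℂ) *
        (p : ℂ) = 1 := by
      have := congrArg (fun t : (Int.castRingHom ℂ).range => (t : ℂ)) h1
      simpa using this
    obtain ⟨n, hn⟩ := ((u⁻¹ : ((Int.castRingHom ℂ).range)ˣ) : (Int.castRingHom ℂ).range).2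
    rw [← hn] at h2
    have h3 : n * (p : ℤ) = 1 := by
      have : ((n * (p : ℤ) : ℤ) : ℂ) = 1 := by
        push_cast
        simpa using h2
      exact_mod_cast this
    have h4 : (p : ℤ) ∣ 1 := ⟨n, by linarith⟩
    have h5 := Int.eq_one_of_dvd_one (by positivity) h4
    have := hp.out.one_lt
    omega
  obtain ⟨B, hB1, hB2⟩ := Ideal.image_subset_nonunits_valuationSubring _ hI
  refine ⟨B, ?_⟩
  rw [← ValuationSubring.mem_nonunits_iff]
  apply hB2
  exact ⟨(p : (Int.castRingHom ℂ).range), Ideal.mem_span_singleton_self _, by simp⟩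

variable (V : ValuationSubring ℂ)

lemma mem_of_isIntegral {x : ℂ} (hx : IsIntegral ℤ x) : x ∈ V := by
  have h1 : IsIntegral V x := hx.tower_top
  obtain ⟨y, hy⟩ := IsIntegrallyClosed.isIntegral_iff.mp h1
  rw [← hy]
  exact y.2

lemma mem_of_isIntegral' {x : ℂ} (hx : IsIntegral V x) : x ∈ V := by
  obtain ⟨y, hy⟩ := IsIntegrallyClosed.isIntegral_iff.mp hx
  rw [← hy]
  exact y.2

lemma val_le_one {x : ℂ} (hx : IsIntegral ℤ x) : V.valuation x ≤ 1 :=
  (V.valuation_le_one_iff x).mpr (mem_of_isIntegral V hx)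

lemma val_root {x : ℂ} {n : ℕ} (hn : n ≠ 0) (hx : x ^ n = 1) :
    V.valuation x = 1 := by
  have h : V.valuation x ^ n = 1 := by rw [← map_pow, hx, map_one]
  exact (pow_eq_one_iff.mp h).resolve_right hn

lemma mem_root {x : ℂ} {n : ℕ} (hn : n ≠ 0) (hx : x ^ n = 1) : x ∈ V :=
  V.mem_of_valuation_le_one x (val_root V hn hx).le

lemma isIntegral_root {x : ℂ} {n : ℕ} (hn : n ≠ 0) (hx : x ^ n = 1) : IsIntegral ℤ x := by
  refine IsIntegral.of_pow (n := n) (Nat.pos_of_ne_zero hn) ?_
  rw [hx]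
  exact isIntegral_one

/-- `v(ζ - 1)^(p-1) = v(p)` for a primitive `p`-th root of unity. -/
lemma val_zeta_sub_one {p : ℕ} [hp : Fact p.Prime] {ζ : ℂ} (hζ : IsPrimitiveRoot ζ p) :
    V.valuation (ζ - 1) ^ (p - 1) = V.valuation (p : ℂ) := by
  obtain ⟨n, hn⟩ : ∃ n, p = n + 1 := ⟨p - 1, by have := hp.out.pos; omega⟩
  have hζ' : IsPrimitiveRoot ζ (n + 1) := hn ▸ hζ
  have hprod := hζ'.prod_one_sub_pow_eq_order
  have hint : IsIntegral ℤ ζ := isIntegral_root (n := p) hp.out.ne_zero hζ.pow_eq_one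
  have hterm : ∀ k ∈ range n, V.valuation (1 - ζ ^ (k + 1)) = V.valuation (ζ - 1) := by
    intro k hk
    rw [mem_range] at hk
    apply le_antisymm
    · have : (1 - ζ ^ (k + 1)) = (ζ - 1) * (-(∑ i ∈ range (k + 1), ζ ^ i)) := by
        have := geom_sum_mul ζ (k + 1)
        linear_combination this
      rw [this, map_mul]
      have h1 : V.valuation (-(∑ i ∈ range (k + 1), ζ ^ i)) ≤ 1 := by
        apply val_le_one
        exact (IsIntegral.sum _ (fun i _ => hint.pow i)).neg
      calc V.valuation (ζ - 1) * _ ≤ V.valuation (ζ - 1) * 1 := by gcongr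
        _ = _ := mul_one _
    · -- ζ = (ζ^(k+1))^j
      have hcop : Nat.Coprime (k + 1) p := by
        apply Nat.Coprime.symm
        rw [Nat.Prime.coprime_iff_not_dvd hp.out]
        intro hdvd
        have := Nat.le_of_dvd (by omega) hdvd
        omega
      obtain ⟨j, hj⟩ := Nat.exists_mul_mod_eq_one_of_coprime hcop hp.out.one_lt
      have hz : ζ = (ζ ^ (k + 1)) ^ j := by
        rw [← pow_mul, pow_eq_pow_mod _ hζ.pow_eq_one, hj.2, pow_one]
      have : ζ - 1 = (1 - ζ ^ (k + 1)) * (-(∑ i ∈ range j, (ζ ^ (k + 1)) ^ i)) := by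
        have := geom_sum_mul (ζ ^ (k + 1)) j
        rw [← hz] at this
        linear_combination -this
      rw [this, map_mul]
      have h1 : V.valuation (-(∑ i ∈ range j, (ζ ^ (k + 1)) ^ i)) ≤ 1 := by
        apply val_le_one
        exact (IsIntegral.sum _ (fun i _ => (hint.pow (k + 1)).pow i)).neg
      calc V.valuation (1 - ζ ^ (k + 1)) * _ ≤ V.valuation (1 - ζ ^ (k + 1)) * 1 := by gcongr
        _ = _ := mul_one _
  have h2 : V.valuation (∏ k ∈ range n, (1 - ζ ^ (k + 1))) = V.valuation (ζ - 1) ^ n := by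
    rw [map_prod, prod_congr rfl hterm, prod_const, card_range]
  rw [hprod] at h2
  have h3 : p - 1 = n := by omega
  rw [h3, ← h2, hn]
  push_cast
  rfl

end Basic

end Pool.Agent.Lib.MP_b95a42_nt
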