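import Mathlib
import Pool.Agent.Lib.MP_b95a42_nt.Stick

namespace Pool.Agent.Lib.MP_b95a42_nt

open Finset Polynomial

variable (V : ValuationSubring ℂ)

lemma isAlgClosed_residue : IsAlgClosed (IsLocalRing.ResidueField V) := by
  apply IsAlgClosed.of_exists_root
  intro P hP hirr
  have hlift : P ∈ Polynomial.lifts (IsLocalRing.residue V) := by
    rw [Polynomial.lifts_iff_coeff_lifts]
    intro n
    exact IsLocalRing.residue_surjective _
  obtain ⟨Q, hQ, hdeg, hmon⟩ := Polynomial.lifts_and_natDegree_eq_and_monic hlift hP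
  have hdeg0 : (Q.map (algebraMap V ℂ)).degree ≠ 0 := by
    rw [hmon.degree_map]
    intro h
    have : P.natDegree = 0 := by rw [← hdeg]; exact natDegree_eq_of_degree_eq_some h
    have := hirr.natDegree_pos
    omega
  obtain ⟨z, hz⟩ := IsAlgClosed.exists_root _ hdeg0
  rw [IsRoot.def, eval_map] at hz
  have hzint : IsIntegral V z := ⟨Q, hmon, hz⟩
  have hzV := mem_of_isIntegral' V hzint
  refine ⟨IsLocalRing.residue V ⟨z, hzV⟩, ?_⟩
  rw [← hQ, eval_map, eval₂_hom]
  have : Q.eval ⟨z, hzV⟩ = 0 := by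
    apply V.subtype_injective
    rw [map_zero]
    have h := eval₂_hom (p := Q) (algebraMap V ℂ) (⟨z, hzV⟩ : V)
    have h2 : eval₂ (algebraMap V ℂ) z Q = algebraMap V ℂ (Q.eval ⟨z, hzV⟩) := h
    rw [hz] at h2
    exact h2.symm
  rw [this, map_zero]

variable {V} in
lemma residue_p {p : ℕ} (hV : V.valuation (p : ℂ) < 1) :
    ((p : ℕ) : IsLocalRing.ResidueField V) = 0 := by
  have h1 : ((p : ℕ) : V) ∈ IsLocalRing.maximalIdeal V := by
    rw [V.valuation_lt_one_iff]
    simpa using hV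
  have := (IsLocalRing.residue_eq_zero_iff ((p : ℕ) : V)).mpr h1
  simpa using this

variable {V} in
lemma exists_iota {p : ℕ} [hp : Fact p.Prime] (hV : V.valuation (p : ℂ) < 1)
    (F : Type) [Field F] [Finite F] [CharP F p] :
    ∃ _ι : F →+* IsLocalRing.ResidueField V, True := by
  have : CharP (IsLocalRing.ResidueField V) p :=
    (CharP.charP_iff_prime_eq_zero hp.out).mpr (residue_p hV)
  let _ := ZMod.algebra F p
  let _ := ZMod.algebra (IsLocalRing.ResidueField V) p
  have := isAlgClosed_residue V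
  exact ⟨(IsAlgClosed.lift (R := ZMod p) (S := F) (M := IsLocalRing.ResidueField V)).toRingHom,
    trivial⟩

variable {V} in
/-- A root of unity of order prime to `p` which reduces to `1` is `1`. -/
lemma root_eq_one {p : ℕ} [hp : Fact p.Prime] (hV : V.valuation (p : ℂ) < 1) {n : ℕ}
    (hn : ¬ p ∣ n) {w : ℂ} (hw : w ^ n = 1) (h1 : V.valuation (w - 1) < 1) : w = 1 := by
  have hn0 : n ≠ 0 := by rintro rfl; simp at hn
  by_contra hne
  have hfin : IsOfFinOrder w := isOfFinOrder_iff_pow_eq_one.mpr ⟨n, Nat.pos_of_ne_zero hn0, hw⟩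
  have hdvd : orderOf w ∣ n := orderOf_dvd_of_pow_eq_one hw
  have hord : orderOf w ≠ 1 := by rwa [Ne, orderOf_eq_one_iff]
  have hpos : 0 < orderOf w := hfin.orderOf_pos
  obtain ⟨m, hm⟩ : ∃ m, orderOf w = m + 1 + 1 := ⟨orderOf w - 2, by omega⟩
  have hprim : IsPrimitiveRoot w (m + 1 + 1) := hm ▸ IsPrimitiveRoot.orderOf w
  have hprod := hprim.prod_one_sub_pow_eq_order
  have h2 : V.valuation (((m + 1 : ℕ) : ℂ) + 1) < 1 := by
    rw [← hprod, prod_range_succ', map_mul]
    have h3 : V.valuation (∏ k ∈ range m, (1 - w ^ (k + 1 + 1))) ≤ 1 := by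
      apply val_le_one
      refine IsIntegral.prod _ (fun i _ => ?_)
      exact isIntegral_one.sub ((isIntegral_root hn0 hw).pow _)
    have h4 : V.valuation (1 - w ^ (0 + 1)) < 1 := by
      rw [zero_add, pow_one, ← Valuation.map_neg, neg_sub]
      exact h1
    calc _ ≤ 1 * V.valuation (1 - w ^ (0 + 1)) := by gcongr
      _ < 1 := by rwa [one_mul]
  have h5 : V.valuation ((n : ℕ) : ℂ) < 1 := by
    obtain ⟨c, hc⟩ := hdvd
    rw [hm] at hc
    rw [hc]
    push_cast
    push_cast at h2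
    rw [map_mul]
    have h6 : V.valuation (c : ℂ) ≤ 1 := val_le_one V (isIntegral_algebraMap (x := (c : ℤ)) |> fun h => by simpa using h)
    calc _ ≤ V.valuation ((m : ℂ) + 1 + 1) * 1 := by gcongr
      _ < 1 := by rwa [mul_one]
  -- but n and p are coprime
  have hcop : IsCoprime (n : ℤ) (p : ℤ) := by
    rw [Nat.isCoprime_iff_coprime]
    exact ((Nat.Prime.coprime_iff_not_dvd hp.out).mpr hn).symm
  obtain ⟨a, b, hab⟩ := hcop
  have h7 : (1 : ℂ) = a * n + b * p := by exact_mod_cast hab.symm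
  have hint : ∀ z : ℤ, V.valuation (z : ℂ) ≤ 1 := fun z =>
    val_le_one V (by simpa using (isIntegral_algebraMap (R := ℤ) (A := ℂ) (x := z)))
  have h8 : V.valuation (1 : ℂ) < 1 := by
    rw [h7]
    apply Valuation.map_add_lt
    · rw [map_mul]
      calc _ ≤ 1 * V.valuation ((n : ℕ) : ℂ) := by gcongr; exact hint a
        _ < 1 := by rwa [one_mul]
    · rw [map_mul]
      calc _ ≤ 1 * V.valuation ((p : ℕ) : ℂ) := by gcongr; exact hint b
        _ < 1 := by rwa [one_mul]
  simp at h8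

/-- Existence of the Teichmueller lift of an element. -/
lemma exists_teich_aux {V : ValuationSubring ℂ} {p : ℕ} [hp : Fact p.Prime]
    (hV : V.valuation (p : ℂ) < 1) {n : ℕ} (hn : n ≠ 0)
    {y : IsLocalRing.ResidueField V} (hy : y ^ n = 1) :
    ∃ w : ℂ, w ^ n = 1 ∧ ∃ h : w ∈ V, IsLocalRing.residue V ⟨w, h⟩ = y := by
  obtain ⟨Y, hY⟩ := IsLocalRing.residue_surjective y
  have hprim := Complex.isPrimitiveRoot_exp n hn
  set ζ := Complex.exp (2 * Real.pi * Complex.I / n) with hζ
  have hprod := X_pow_sub_one_eq_prod (Nat.pos_of_ne_zero hn) hprim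
  have h1 : (Y : ℂ) ^ n - 1 = ∏ w ∈ nthRootsFinset n (1 : ℂ), ((Y : ℂ) - w) := by
    have := congrArg (fun P => P.eval (Y : ℂ)) hprod
    simpa [eval_prod] using this
  have hmem : ∀ w ∈ nthRootsFinset n (1 : ℂ), w ∈ V := by
    intro w hw
    rw [mem_nthRootsFinset (Nat.pos_of_ne_zero hn)] at hw
    exact mem_root V hn hw
  have h2 : V.valuation ((Y : ℂ) ^ n - 1) < 1 := by
    have h3 : Y ^ n - 1 ∈ IsLocalRing.maximalIdeal V := by
      rw [← IsLocalRing.residue_eq_zero_iff, map_sub, map_pow, hY, hy, map_one, sub_self]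
    rw [V.valuation_lt_one_iff] at h3
    simpa using h3
  rw [h1, map_prod] at h2
  -- some factor has valuation < 1
  have h3 : ∃ w ∈ nthRootsFinset n (1 : ℂ), V.valuation ((Y : ℂ) - w) < 1 := by
    by_contra hcon
    push Not at hcon
    have : (1 : V.ValueGroup) ≤ ∏ w ∈ nthRootsFinset n (1 : ℂ), V.valuation ((Y : ℂ) - w) := by
      have := Finset.prod_le_prod (s := nthRootsFinset n (1 : ℂ)) (f := fun _ => (1 : V.ValueGroup))
        (g := fun w => V.valuation ((Y : ℂ) - w)) (fun _ _ => zero_le_one) hcon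
      simpa using this
    exact absurd h2 (not_lt.mpr this)
  obtain ⟨w, hw, hlt⟩ := h3
  refine ⟨w, ?_, hmem w hw, ?_⟩
  · exact (mem_nthRootsFinset (Nat.pos_of_ne_zero hn) _).mp hw
  · have h4 : Y - ⟨w, hmem w hw⟩ ∈ IsLocalRing.maximalIdeal V := by
      rw [V.valuation_lt_one_iff]
      simpa using hlt
    rw [← IsLocalRing.residue_eq_zero_iff, map_sub, sub_eq_zero, hY] at h4
    exact h4.symm

/-- Uniqueness of the Teichmueller lift. -/
lemma teich_unique {V : ValuationSubring ℂ} {p : ℕ} [hp : Fact p.Prime]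
    (hV : V.valuation (p : ℂ) < 1) {n : ℕ} (hn : ¬ p ∣ n) {w w' : ℂ} (hw : w ^ n = 1)
    (hw' : w' ^ n = 1) (h : w ∈ V) (h' : w' ∈ V)
    (heq : IsLocalRing.residue V ⟨w, h⟩ = IsLocalRing.residue V ⟨w', h'⟩) : w = w' := by
  have hn0 : n ≠ 0 := by rintro rfl; simp at hn
  have hw'0 : w' ≠ 0 := by
    rintro rfl
    rw [zero_pow hn0] at hw'
    exact zero_ne_one hw'
  have h1 : V.valuation (w - w') < 1 := by
    have h4 : (⟨w, h⟩ : V) - ⟨w', h'⟩ ∈ IsLocalRing.maximalIdeal V := by
      rw [← IsLocalRing.residue_eq_zero_iff, map_sub, heq, sub_self]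
    rw [V.valuation_lt_one_iff] at h4
    simpa using h4
  have h2 : V.valuation (w / w' - 1) < 1 := by
    have : w / w' - 1 = (w - w') / w' := by field_simp
    rw [this, map_div₀, val_root V hn0 hw', div_one]
    exact h1
  have h3 : (w / w') ^ n = 1 := by rw [div_pow, hw, hw', div_one]
  have := root_eq_one hV hn h3 h2
  rwa [div_eq_one_iff_eq hw'0] at this

/-- The Teichmueller character of a finite field attached to an embedding into the residue
field. -/
lemma exists_teich {V : ValuationSubring ℂ} {p : ℕ} [hp : Fact p.Prime]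
    (hV : V.valuation (p : ℂ) < 1)
    (F : Type) [Field F] [Fintype F] [CharP F p] (ι : F →+* IsLocalRing.ResidueField V) :
    ∃ ω : MulChar F ℂ, ∀ x : Fˣ, (ω x) ^ (Fintype.card F - 1) = 1 ∧
      ∃ h : ω x ∈ V, IsLocalRing.residue V ⟨ω x, h⟩ = ι x := by
  have hcard : 1 < Fintype.card F := Fintype.one_lt_card
  set n := Fintype.card F - 1 with hn
  have hn0 : n ≠ 0 := by omega
  have hpn : ¬ p ∣ n := by
    intro hdvd
    have h1 : p ∣ Fintype.card F := by
      have h2 : ((Fintype.card F : ℕ) : F) = 0 := FiniteField.cast_card_eq_zero F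
      exact (CharP.cast_eq_zero_iff F p _).mp h2
    have h3 : p ∣ 1 := by
      have : Fintype.card F = n + 1 := by omega
      rw [this] at h1
      exact (Nat.dvd_add_right hdvd).mp h1
    exact hp.out.one_lt.ne' (Nat.dvd_one.mp h3)
  have hpow : ∀ x : Fˣ, (ι x) ^ n = 1 := by
    intro x
    rw [← map_pow, hn, FiniteField.pow_card_sub_one_eq_one (x : F) x.ne_zero, map_one]
  choose w hw1 hwV hwr using fun x : Fˣ => exists_teich_aux hV hn0 (hpow x)
  have hmul : ∀ x y : Fˣ, w (x * y) = w x * w y := by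
    intro x y
    refine teich_unique hV hpn (hw1 _) (by rw [mul_pow, hw1, hw1, one_mul]) (hwV _)
      (V.mul_mem _ _ (hwV x) (hwV y)) ?_
    rw [hwr]
    have : (⟨w x * w y, V.mul_mem _ _ (hwV x) (hwV y)⟩ : V) = ⟨w x, hwV x⟩ * ⟨w y, hwV y⟩ := rfl
    rw [this, map_mul, hwr, hwr]
    simp
  have hone : w 1 = 1 := by
    refine teich_unique hV hpn (hw1 _) (one_pow _) (hwV _) V.one_mem ?_
    rw [hwr]
    have : (⟨(1 : ℂ), V.one_mem⟩ : V) = 1 := rfl
    rw [this]
    simp
  have hne : ∀ x : Fˣ, w x ≠ 0 := by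
    intro x h
    have := hw1 x
    rw [h, zero_pow hn0] at this
    exact zero_ne_one this
  let f : Fˣ →* ℂˣ :=
    { toFun := fun x => Units.mk0 (w x) (hne x)
      map_one' := by ext; simpa using hone
      map_mul' := fun x y => by ext; simpa using hmul x y }
  refine ⟨MulChar.ofUnitHom f, ?_⟩
  intro x
  have hx : (MulChar.ofUnitHom f) (x : F) = w x := by
    rw [MulChar.ofUnitHom_coe]
    rfl
  rw [hx]
  exact ⟨hw1 x, hwV x, hwr x⟩

end Pool.Agent.Lib.MP_b95a42_nt
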