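import Mathlib
import Pool.Agent.Lib.MP_b95a42_nt.Teich

namespace Pool.Agent.Lib.MP_b95a42_nt

open Finset

section Psi

variable (p : ℕ) [hp : Fact p.Prime] (F : Type) [Field F] [Finite F] [Algebra (ZMod p) F]

/-- The canonical additive character `x ↦ exp(2 π i Tr(x) / p)`. -/
noncomputable def psi : AddChar F ℂ :=
  (ZMod.stdAddChar (N := p)).compAddMonoidHom (Algebra.trace (ZMod p) F).toAddMonoidHom

/-- The canonical `p`-th root of unity. -/
noncomputable def zet : ℂ := ZMod.stdAddChar (1 : ZMod p)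

omit [Finite F] in
variable {F} in
lemma psi_apply (x : F) : psi p F x = ZMod.stdAddChar (Algebra.trace (ZMod p) F x) := rfl

omit [Finite F] in
variable {F} in
lemma psi_eq_pow (x : F) : psi p F x = (zet p) ^ (Algebra.trace (ZMod p) F x).val := by
  rw [psi_apply, zet, ← AddChar.map_nsmul_eq_pow]
  simp

lemma zet_primitive : IsPrimitiveRoot (zet p) p := by
  have h : zet p = Complex.exp (2 * Real.pi * Complex.I / p) := by
    unfold zet
    have := ZMod.stdAddChar_coe (N := p) 1
    simpa using this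
  rw [h]
  exact Complex.isPrimitiveRoot_exp p hp.out.ne_zero

lemma psi_ne_one : psi p F ≠ 1 := by
  intro h
  obtain ⟨x, hx⟩ := Algebra.trace_surjective (ZMod p) F 1
  have h1 : psi p F x = 1 := by rw [h]; simp
  rw [psi_apply, hx] at h1
  have h2 := (zet_primitive p).ne_one hp.out.one_lt
  exact h2 h1

lemma psi_primitive : (psi p F).IsPrimitive := AddChar.IsPrimitive.of_ne_one (psi_ne_one p F)

variable {F} in
lemma psi_frob (x : F) : psi p F (x ^ p) = psi p F x := by
  rw [psi_apply, psi_apply]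
  congr 1
  have : Algebra.trace (ZMod p) F (FiniteField.frobeniusAlgEquivOfAlgebraic (ZMod p) F x) =
      Algebra.trace (ZMod p) F x := by
    exact Algebra.trace_eq_of_algEquiv _ _
  rw [← this]
  congr 1
  simp

end Psi

section Main

variable {p : ℕ} [hp : Fact p.Prime] {F : Type} [Field F] [Fintype F] [Algebra (ZMod p) F]

omit [Fintype F] in
variable (p F) in
lemma charP_F : CharP F p := (Algebra.charP_iff (ZMod p) F p).mp inferInstance

lemma gaussSum_frob' (χ : MulChar F ℂ) : gaussSum (χ ^ p) (psi p F) = gaussSum χ (psi p F) := by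
  have : CharP F p := charP_F p F
  have hbij : Function.Bijective (fun x : F => x ^ p) := by
    have := (frobeniusEquiv F p).bijective
    exact this
  unfold gaussSum
  refine Fintype.sum_bijective (fun x : F => x ^ p) hbij _ _ ?_
  intro x
  rw [psi_frob, MulChar.pow_apply' _ hp.out.ne_zero, map_pow]

variable {V : ValuationSubring ℂ}

lemma mulChar_mem (χ : MulChar F ℂ) (x : F) : IsIntegral ℤ (χ x) := by
  by_cases hx : x = 0
  · rw [hx, MulChar.map_zero]
    exact isIntegral_zero
  · have h1 : (χ x) ^ (Fintype.card F - 1) = 1 := by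
      rw [← map_pow, FiniteField.pow_card_sub_one_eq_one x hx, map_one]
    refine isIntegral_root (n := Fintype.card F - 1) ?_ h1
    have : 1 < Fintype.card F := Fintype.one_lt_card
    omega

omit [Fintype F] in
lemma psi_integral (x : F) : IsIntegral ℤ (psi p F x) := by
  rw [psi_eq_pow]
  exact (isIntegral_root hp.out.ne_zero (zet_primitive p).pow_eq_one).pow _

lemma gaussSum_integral (χ : MulChar F ℂ) : IsIntegral ℤ (gaussSum χ (psi p F)) :=
  IsIntegral.sum _ (fun x _ => (mulChar_mem χ x).mul (psi_integral x))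

lemma jacobiSum_integral (χ φ : MulChar F ℂ) : IsIntegral ℤ (jacobiSum χ φ) :=
  IsIntegral.sum _ (fun x _ => (mulChar_mem χ x).mul (mulChar_mem φ _))

/-- Expansion `ζ^n = 1 + n π + π² r`. -/
lemma zet_pow_expand (n : ℕ) : ∃ r : ℂ, IsIntegral ℤ r ∧
    (zet p) ^ n = 1 + n * (zet p - 1) + (zet p - 1) ^ 2 * r := by
  have hint : IsIntegral ℤ (zet p - 1) :=
    (isIntegral_root hp.out.ne_zero (zet_primitive p).pow_eq_one).sub isIntegral_one
  induction n with
  | zero => exact ⟨0, isIntegral_zero, by simp⟩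
  | succ n ih =>
    obtain ⟨r, hr, h⟩ := ih
    refine ⟨r + n + (zet p - 1) * r, ?_, ?_⟩
    · refine (hr.add ?_).add (hint.mul hr)
      simpa using (isIntegral_algebraMap (R := ℤ) (A := ℂ) (x := (n : ℤ)))
    · rw [pow_succ, h]
      push_cast
      ring

omit [Algebra (ZMod p) F] hp in
lemma sum_units_of_zero [DecidableEq F] (f : F → ℂ) (h0 : f 0 = 0) :
    ∑ x : F, f x = ∑ x : Fˣ, f (x : F) := by
  symm
  refine Fintype.sum_of_injective (fun x : Fˣ => (x : F)) Units.val_injective _ _ ?_ ?_
  · intro i hi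
    have : i = 0 := by
      by_contra hne
      exact hi ⟨Units.mk0 i hne, rfl⟩
    rw [this, h0]
  · intro i
    rfl

/-- The crucial sum in the finite field. -/
lemma sum_inv_trace [DecidableEq F] : ∑ x : Fˣ, ((x⁻¹ : Fˣ) : F) * algebraMap (ZMod p) F
    (Algebra.trace (ZMod p) F (x : F)) = -1 := by
  classical
  have hchar : CharP F p := charP_F p F
  have hcard : Fintype.card F = p ^ Module.finrank (ZMod p) F := by
    have := Module.card_eq_pow_finrank (K := ZMod p) (V := F)
    rw [ZMod.card] at this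
    exact this
  set f := Module.finrank (ZMod p) F with hf
  have hfpos : 0 < f := Module.finrank_pos
  have h1 : ∀ x : Fˣ, ((x⁻¹ : Fˣ) : F) * algebraMap (ZMod p) F
      (Algebra.trace (ZMod p) F (x : F)) = ∑ i ∈ range f, ((x : F) ^ (p ^ i - 1)) := by
    intro x
    rw [FiniteField.algebraMap_trace_eq_sum_pow, mul_sum, Nat.card_zmod]
    apply sum_congr rfl
    intro i _
    have hpi : 0 < p ^ i := pow_pos hp.out.pos _
    have : (x : F) ^ (p ^ i) = x * (x : F) ^ (p ^ i - 1) := by
      rw [← pow_succ']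
      congr 1
      omega
    rw [this, ← mul_assoc]
    simp
  rw [sum_congr rfl (fun x _ => h1 x), sum_comm]
  have h2 : ∀ i ∈ range f, ∑ x : Fˣ, ((x : F) ^ (p ^ i - 1)) = if i = 0 then -1 else 0 := by
    intro i hi
    rw [mem_range] at hi
    have := FiniteField.sum_pow_units (K := F) (p ^ i - 1)
    rw [this]
    by_cases h0 : i = 0
    · subst h0
      simp
    · rw [if_neg h0, if_neg]
      intro hdvd
      have hlt : p ^ i < p ^ f := Nat.pow_lt_pow_right hp.out.one_lt hi
      have hgt : 1 < p ^ i := Nat.one_lt_pow h0 hp.out.one_lt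
      rw [hcard] at hdvd
      have := Nat.le_of_dvd (by omega) hdvd
      omega
  rw [sum_congr rfl h2]
  simp [hfpos.ne']

/-- Data for the Teichmueller character. -/
structure TeichData (p : ℕ) [Fact p.Prime] (F : Type) [Field F] [Fintype F] [Algebra (ZMod p) F]
    where
  V : ValuationSubring ℂ
  hV : V.valuation (p : ℂ) < 1
  ι : F →+* IsLocalRing.ResidueField V
  ω : MulChar F ℂ
  hω : ∀ x : Fˣ, (ω x) ^ (Fintype.card F - 1) = 1 ∧
      ∃ h : ω x ∈ V, IsLocalRing.residue V ⟨ω x, h⟩ = ι x

variable (p F) in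
lemma exists_teichData : Nonempty (TeichData p F) := by
  have : CharP F p := charP_F p F
  obtain ⟨V, hV⟩ := exists_valuationSubring p
  obtain ⟨ι, -⟩ := exists_iota hV F
  obtain ⟨ω, hω⟩ := exists_teich hV F ι
  exact ⟨⟨V, hV, ι, ω, hω⟩⟩

namespace TeichData

variable (T : TeichData p F)

/-- The Gauss sum of `ω^{-a}`. -/
noncomputable def g (a : ℕ) : ℂ := gaussSum ((T.ω⁻¹) ^ a) (psi p F)

/-- `ω^j = 1` iff `q - 1` divides `j`. -/
lemma omega_pow_eq_one_iff (j : ℕ) : T.ω ^ j = 1 ↔ (Fintype.card F - 1) ∣ j := by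
  classical
  constructor
  · intro h
    obtain ⟨γ, hγ⟩ := IsCyclic.exists_generator (α := Fˣ)
    have h1 : (T.ω (γ : F)) ^ j = 1 := by
      rw [← MulChar.pow_apply_coe, h, MulChar.one_apply_coe]
    obtain ⟨-, hm, hr⟩ := T.hω γ
    have h2 : (T.ι γ) ^ j = 1 := by
      rw [← hr, ← map_pow]
      have : (⟨T.ω γ, hm⟩ : T.V) ^ j = 1 := by
        apply T.V.subtype_injective
        simpa using h1
      rw [this, map_one]
    rw [← map_pow, ← map_one T.ι] at h2
    have h3 : (γ : F) ^ j = 1 := T.ι.injective h2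
    have h4 : γ ^ j = 1 := by
      ext
      simpa using h3
    have h5 := orderOf_dvd_of_pow_eq_one h4
    rwa [orderOf_eq_card_of_forall_mem_zpowers hγ, Nat.card_eq_fintype_card,
      Fintype.card_units] at h5
  · intro h
    obtain ⟨c, rfl⟩ := h
    rw [MulChar.eq_one_iff]
    intro a
    rw [MulChar.pow_apply_coe, pow_mul, (T.hω a).1, one_pow]

lemma omega_inv_pow_eq_one_iff (j : ℕ) : T.ω⁻¹ ^ j = 1 ↔ (Fintype.card F - 1) ∣ j := by
  rw [inv_pow, inv_eq_one, omega_pow_eq_one_iff]

/-- `v(g(1)) = v(π)`, when `q > 2`. -/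
lemma val_g_one (hq : 2 < Fintype.card F) : T.V.valuation (T.g 1) = T.V.valuation (zet p - 1) := by
  classical
  choose r hr hr2 using fun n : ℕ => zet_pow_expand (p := p) n
  set π := zet p - 1 with hπ
  let c : F → ℕ := fun x => (Algebra.trace (ZMod p) F x).val
  have hne : T.ω⁻¹ ≠ 1 := by
    intro h
    have := (T.omega_inv_pow_eq_one_iff 1).mp (by rw [pow_one, h])
    have := Nat.le_of_dvd one_pos this
    omega
  have hg : T.g 1 = π * (∑ x : F, T.ω⁻¹ x * (c x : ℂ) + π * ∑ x : F, T.ω⁻¹ x * r (c x)) := by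
    unfold g gaussSum
    have h0 : ∑ x : F, T.ω⁻¹ x = 0 := MulChar.sum_eq_zero_of_ne_one hne
    calc ∑ x : F, (T.ω⁻¹ ^ 1) x * psi p F x
        = ∑ x : F, (T.ω⁻¹ x + π * (T.ω⁻¹ x * (c x : ℂ)) + π * (π * (T.ω⁻¹ x * r (c x)))) := by
          apply sum_congr rfl
          intro x _
          rw [pow_one, psi_eq_pow, hr2]
          ring
      _ = _ := by
          rw [sum_add_distrib, sum_add_distrib, h0, ← mul_sum, ← mul_sum, ← mul_sum]
          ring
  rw [hg, map_mul]
  have hπint : IsIntegral ℤ π :=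
    (isIntegral_root hp.out.ne_zero (zet_primitive p).pow_eq_one).sub isIntegral_one
  have hπlt : T.V.valuation π < 1 := by
    have h1 := val_zeta_sub_one T.V (zet_primitive p)
    rw [← hπ] at h1
    by_contra hcon
    push Not at hcon
    have : 1 ≤ T.V.valuation π ^ (p - 1) := one_le_pow₀ hcon
    rw [h1] at this
    exact absurd T.hV (not_lt.mpr this)
  -- the main term is a unit
  have hmain : T.V.valuation (∑ x : F, T.ω⁻¹ x * (c x : ℂ)) = 1 := by
    have hsum : ∑ x : F, T.ω⁻¹ x * (c x : ℂ) =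
        ((∑ x : Fˣ, (⟨T.ω ((x⁻¹ : Fˣ) : F), (T.hω x⁻¹).2.1⟩ : T.V) * ((c x : ℕ) : T.V) : T.V) : ℂ) := by
      rw [sum_units_of_zero]
      · push_cast
        apply sum_congr rfl
        intro x _
        rw [MulChar.inv_apply']
      · rw [MulChar.map_zero, zero_mul]
    rw [hsum, ← ValuationSubring.valuation_eq_one_iff]
    rw [← IsLocalRing.residue_ne_zero_iff_isUnit]
    have hres : IsLocalRing.residue T.V (∑ x : Fˣ, (⟨T.ω ((x⁻¹ : Fˣ) : F), (T.hω x⁻¹).2.1⟩ : T.V)
        * ((c x : ℕ) : T.V)) = T.ι (-1) := by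
      rw [← sum_inv_trace (p := p) (F := F), map_sum, map_sum]
      apply sum_congr rfl
      intro x _
      rw [map_mul, map_mul, (T.hω x⁻¹).2.2, map_natCast]
      congr 1
      have : algebraMap (ZMod p) F (Algebra.trace (ZMod p) F (x : F)) = ((c x : ℕ) : F) := by
        have h1 : ((c (x : F) : ℕ) : ZMod p) = Algebra.trace (ZMod p) F (x : F) := by
          simp [c]
        rw [← h1, map_natCast]
      rw [this, map_natCast]
    rw [hres, map_neg, map_one]
    exact neg_ne_zero.mpr one_ne_zero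
  have hsecond : T.V.valuation (π * ∑ x : F, T.ω⁻¹ x * r (c x)) < 1 := by
    rw [map_mul]
    have : T.V.valuation (∑ x : F, T.ω⁻¹ x * r (c x)) ≤ 1 :=
      val_le_one _ (IsIntegral.sum _ (fun x _ => (mulChar_mem _ x).mul (hr _)))
    calc _ ≤ T.V.valuation π * 1 := by gcongr
      _ < 1 := by rwa [mul_one]
  rw [Valuation.map_add_eq_of_lt_left _ (by rw [hmain]; exact hsecond), hmain, mul_one]

lemma g_frob (b : ℕ) : T.g (p * b) = T.g b := by
  unfold g
  rw [mul_comm p b, pow_mul, gaussSum_frob']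

lemma val_g_zero : T.V.valuation (T.g 0) = 1 := by
  unfold g
  rw [pow_zero, gaussSum_one_left (psi_ne_one p F), Valuation.map_neg, map_one]

lemma val_g_mul_le (a b : ℕ) (h : ¬ (Fintype.card F - 1) ∣ (a + b)) :
    T.V.valuation (T.g a) * T.V.valuation (T.g b) ≤ T.V.valuation (T.g (a + b)) := by
  have hne : T.ω⁻¹ ^ a * T.ω⁻¹ ^ b ≠ 1 := by
    rw [← pow_add]
    intro h1
    exact h ((T.omega_inv_pow_eq_one_iff _).mp h1)
  have h1 := jacobiSum_mul_nontrivial hne (psi p F)
  rw [← pow_add] at h1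
  unfold g
  rw [← map_mul, ← h1, map_mul]
  have h2 : T.V.valuation (jacobiSum (T.ω⁻¹ ^ a) (T.ω⁻¹ ^ b)) ≤ 1 :=
    val_le_one _ (jacobiSum_integral _ _)
  calc _ ≤ T.V.valuation (gaussSum (T.ω⁻¹ ^ (a + b)) (psi p F)) * 1 := by gcongr
    _ = _ := mul_one _

lemma val_pi_ne_zero : T.V.valuation (zet p - 1) ≠ 0 := by
  rw [Ne, Valuation.zero_iff, sub_eq_zero]
  exact (zet_primitive p).ne_one hp.out.one_lt

lemma val_pi_lt_one : T.V.valuation (zet p - 1) < 1 := by
  have h1 := val_zeta_sub_one T.V (zet_primitive p)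
  by_contra hcon
  push Not at hcon
  have : 1 ≤ T.V.valuation (zet p - 1) ^ (p - 1) := one_le_pow₀ hcon
  rw [h1] at this
  exact absurd T.hV (not_lt.mpr this)

lemma val_lower (hq : 2 < Fintype.card F) : ∀ a, a < Fintype.card F - 1 →
    T.V.valuation (zet p - 1) ^ (ds p a) ≤ T.V.valuation (T.g a) := by
  intro a
  induction a using Nat.strong_induction_on with
  | _ a ih =>
    intro ha
    rcases Nat.eq_zero_or_pos a with h0 | hpos
    · subst h0
      simp [T.val_g_zero]
    · have hp1 := hp.out.one_lt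
      set b := a / p with hb
      set c := a % p with hc
      have hab : p * b + c = a := Nat.div_add_mod a p
      have hba : b < a := Nat.div_lt_self hpos hp1
      have hib := ih b hba (by omega)
      have hstep : ∀ i, i ≤ c →
          T.V.valuation (zet p - 1) ^ (ds p b + i) ≤ T.V.valuation (T.g (p * b + i)) := by
        intro i
        induction i with
        | zero =>
          intro _
          rw [add_zero, add_zero, T.g_frob]
          exact hib
        | succ i ihi =>
          intro hi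
          have h1 := ihi (by omega)
          have h2 := T.val_g_mul_le (p * b + i) 1 (by
            intro hdvd
            have := Nat.le_of_dvd (by omega) hdvd
            omega)
          rw [← add_assoc, pow_succ]
          exact le_trans (mul_le_mul' h1 (T.val_g_one hq).ge) h2
      have := hstep c le_rfl
      rw [hab, add_comm, ← ds_mul_add hp1 b c (Nat.mod_lt _ hp.out.pos), hab] at this
      exact this

/-- `q = p^f`. -/
lemma card_eq : Fintype.card F = p ^ Module.finrank (ZMod p) F := by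
  have := Module.card_eq_pow_finrank (K := ZMod p) (V := F)
  rw [ZMod.card] at this
  exact this

lemma val_card : T.V.valuation ((Fintype.card F : ℕ) : ℂ) =
    T.V.valuation (zet p - 1) ^ (Module.finrank (ZMod p) F * (p - 1)) := by
  rw [card_eq (p := p)]
  push_cast
  rw [map_pow, ← val_zeta_sub_one T.V (zet_primitive p), ← pow_mul, mul_comm]

/-- **Stickelberger's theorem** (valuation part). -/
theorem val_g (hq : 2 < Fintype.card F) (a : ℕ) (ha : a < Fintype.card F - 1) :
    T.V.valuation (T.g a) = T.V.valuation (zet p - 1) ^ (ds p a) := by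
  rcases Nat.eq_zero_or_pos a with h0 | hpos
  · subst h0
    simp [T.val_g_zero]
  set n := Fintype.card F - 1 with hn
  have hne : T.ω⁻¹ ^ a ≠ 1 := by
    intro h1
    have := (T.omega_inv_pow_eq_one_iff _).mp h1
    have := Nat.le_of_dvd hpos this
    omega
  have hinv : (T.ω⁻¹ ^ a)⁻¹ = T.ω⁻¹ ^ (n - a) := by
    rw [inv_eq_iff_mul_eq_one, ← pow_add]
    rw [T.omega_inv_pow_eq_one_iff]
    have : a + (n - a) = n := by omega
    rw [this]
  have h1 := gaussSum_mul_gaussSum_eq_card hne (psi_primitive p F)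
  have h2 := mul_gaussSum_inv_eq_gaussSum (T.ω⁻¹ ^ a)⁻¹ (psi p F)
  have hv : T.V.valuation (T.g a) * T.V.valuation (T.g (n - a)) =
      T.V.valuation (zet p - 1) ^ (Module.finrank (ZMod p) F * (p - 1)) := by
    rw [← T.val_card, ← h1, map_mul]
    congr 1
    unfold g
    rw [← hinv, ← h2, map_mul]
    have : T.V.valuation ((T.ω⁻¹ ^ a)⁻¹ (-1)) = 1 := by
      have h3 : ((T.ω⁻¹ ^ a)⁻¹ (-1)) ^ 2 = 1 := by
        rw [← map_pow, neg_one_sq, map_one]
      exact val_root _ two_ne_zero h3
    rw [this, one_mul]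
  have hcard := card_eq (p := p) (F := F)
  have hlt : a < p ^ Module.finrank (ZMod p) F := by omega
  have hds := ds_compl hp.out.one_lt (Module.finrank (ZMod p) F) a hlt
  have he : p ^ Module.finrank (ZMod p) F - 1 - a = n - a := by omega
  rw [he] at hds
  rw [← hds, pow_add] at hv
  have hl1 := T.val_lower hq a ha
  have hl2 := T.val_lower hq (n - a) (by omega)
  apply le_antisymm _ hl1
  by_contra hcon
  push Not at hcon
  have hpos2 : 0 < T.V.valuation (zet p - 1) ^ ds p (n - a) :=
    pow_pos (zero_lt_iff.mpr T.val_pi_ne_zero) _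
  have : T.V.valuation (zet p - 1) ^ ds p a * T.V.valuation (zet p - 1) ^ ds p (n - a) <
      T.V.valuation (T.g a) * T.V.valuation (T.g (n - a)) := by
    calc _ < T.V.valuation (T.g a) * T.V.valuation (zet p - 1) ^ ds p (n - a) := by
          exact mul_lt_mul_of_pos_right hcon hpos2
      _ ≤ _ := by gcongr
  rw [hv] at this
  exact lt_irrefl _ this

end TeichData

end Main

end Pool.Agent.Lib.MP_b95a42_nt
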