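import Mathlib
import Pool.Agent.Lib.MP_b95a42_nt.Stickel
import Pool.Agent.Lib.MP_b95a42_nt.Bound
import Pool.Agent.Lib.MP_b95a42_nt.CharSum
import Pool.Agent.Lib.MP_b95a42_nt.Chars

/-!
# From equality of Gauss sums to relations between digit sums
-/

namespace Pool.Agent.Lib.MP_b95a42_nt

open Finset NumberTheorySymbols

section

variable {p : ℕ} [hp : Fact p.Prime] {E : Type} [Field E] [Fintype E] [DecidableEq E]
  [Algebra (ZMod p) E]

lemma omega_inv_half (T : TeichData p E) (hE : ringChar E ≠ 2) :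
    T.ω⁻¹ ^ ((Fintype.card E - 1) / 2) = eta E := by
  have hodd := FiniteField.odd_card_of_char_ne_two hE
  have h1 : (T.ω⁻¹ ^ ((Fintype.card E - 1) / 2)) ^ 2 = 1 := by
    rw [← pow_mul, T.omega_inv_pow_eq_one_iff]
    have : (Fintype.card E - 1) / 2 * 2 = Fintype.card E - 1 := by omega
    rw [this]
  rw [sq_eq_one_iff' hE] at h1
  rcases h1 with h | h
  · exfalso
    rw [T.omega_inv_pow_eq_one_iff] at h
    have h2 := Fintype.one_lt_card (α := E)
    have h3 := Nat.le_of_dvd (by omega) h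
    omega
  · exact h

lemma Th_pow_two_N (T : TeichData p E) (hE : ringChar E ≠ 2) {N c : ℕ} [NeZero N]
    (hcard : 4 * N * c + 1 = Fintype.card E) (u : ZMod (4 * N)) (hu : IsUnit u) :
    (T.ω⁻¹ ^ (u.val * c)) ^ (2 * N) = eta E := by
  have hodd : u.val % 2 = 1 := by
    have h1 : Nat.Coprime u.val (4 * N) := by
      rw [← ZMod.natCast_zmod_val u] at hu
      exact (ZMod.isUnit_iff_coprime _ _).mp hu
    have h2 : Nat.Coprime u.val 2 :=
      Nat.Coprime.coprime_dvd_right (Dvd.intro (2 * N) (by ring)) h1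
    rw [Nat.coprime_comm, Nat.coprime_two_left] at h2
    exact Nat.odd_iff.mp h2
  obtain ⟨k, hk⟩ : ∃ k, u.val = 2 * k + 1 := ⟨u.val / 2, by omega⟩
  have h3 : (Fintype.card E - 1) / 2 = 2 * N * c := by
    have : 4 * N * c = 2 * (2 * N * c) := by ring
    omega
  have h4 : u.val * c * (2 * N) = ((Fintype.card E - 1) / 2) * (2 * k + 1) := by
    rw [h3, hk]
    ring
  rw [← pow_mul, h4, pow_mul, omega_inv_half T hE, pow_succ, pow_mul, eta_sq, one_pow, one_mul]

omit [DecidableEq E] in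
lemma Th_pow_four_ne (T : TeichData p E) {N c : ℕ} [NeZero N] (hN : 1 < N) (hN2 : N % 2 = 1)
    (hcard : 4 * N * c + 1 = Fintype.card E) (u : ZMod (4 * N)) (hu : IsUnit u) :
    (T.ω⁻¹ ^ (u.val * c)) ^ 4 ≠ 1 := by
  have h1 : Nat.Coprime u.val (4 * N) := by
    rw [← ZMod.natCast_zmod_val u] at hu
    exact (ZMod.isUnit_iff_coprime _ _).mp hu
  have h2 : Nat.Coprime N u.val :=
    (Nat.Coprime.coprime_dvd_right (Dvd.intro_left 4 rfl) h1).symm
  intro h
  rw [← pow_mul, T.omega_inv_pow_eq_one_iff] at h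
  have hc : 0 < c := by
    rcases Nat.eq_zero_or_pos c with h0 | h0
    · exfalso
      rw [h0, mul_zero, zero_add] at hcard
      have := Fintype.one_lt_card (α := E)
      omega
    · exact h0
  have h3 : Fintype.card E - 1 = (4 * c) * N := by
    rw [← hcard]
    have : 4 * N * c = 4 * c * N := by ring
    omega
  have h4 : u.val * c * 4 = (4 * c) * u.val := by ring
  rw [h3, h4] at h
  have h5 : N ∣ u.val := Nat.dvd_of_mul_dvd_mul_left (by omega) h
  have h6 : N = 1 := Nat.dvd_one.mp (by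
    have := Nat.dvd_gcd (dvd_refl N) h5
    rwa [h2] at this)
  omega

omit [Fintype E] [DecidableEq E] in
/-- A value of a multiplicative character at `-1` has valuation one. -/
lemma val_neg_one (V : ValuationSubring ℂ) (θ : MulChar E ℂ) : V.valuation (θ (-1)) = 1 := by
  have h1 : (θ (-1)) ^ 2 = 1 := by
    rw [← map_pow]
    simp
  have h2 : (V.valuation (θ (-1))) ^ 2 = 1 := by
    rw [← map_pow, h1, map_one]
  exact (pow_left_inj₀ zero_le zero_le two_ne_zero).mp (h2.trans (one_pow 2).symm)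

omit [DecidableEq E] in
lemma ds_eq_of_val (T : TeichData p E) {m n : ℕ}
    (h : T.V.valuation (zet p - 1) ^ m = T.V.valuation (zet p - 1) ^ n) : m = n := by
  have h0 := T.val_pi_ne_zero
  have h1 := T.val_pi_lt_one
  have h2 : (0 : T.V.ValueGroup) < T.V.valuation (zet p - 1) := zero_lt_iff.mpr h0
  rcases lt_trichotomy m n with h3 | h3 | h3
  · exfalso
    exact absurd h (ne_of_gt (pow_lt_pow_right_of_lt_one₀ h2 h1 h3))
  · exact h3
  · exfalso
    exact absurd h (ne_of_lt (pow_lt_pow_right_of_lt_one₀ h2 h1 h3))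

/-- Case A. -/
lemma core_A (T : TeichData p E) (hE : ringChar E ≠ 2) {N c : ℕ} [NeZero N]
    (hcard : 4 * N * c + 1 = Fintype.card E) {r : ℕ} (hr : Fintype.card E = r ^ 2)
    (hJ : ∀ u : ZMod (4 * N), IsUnit u → JJ (T.ω⁻¹ ^ (u.val * c)) = r)
    (hne : ∀ u : ZMod (4 * N), IsUnit u → (T.ω⁻¹ ^ (u.val * c)) ^ 2 ≠ 1)
    (u : ZMod (4 * N)) (hu : IsUnit u) :
    ds p ((u + (2 * N : ℕ)).val * c) = ds p (u.val * c) := by
  have hN0 : 0 < N := Nat.pos_of_ne_zero (NeZero.ne N)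
  have hc : 0 < c := by
    rcases Nat.eq_zero_or_pos c with h0 | h0
    · exfalso
      rw [h0, mul_zero, zero_add] at hcard
      have := Fintype.one_lt_card (α := E)
      omega
    · exact h0
  have hq2 : 2 < Fintype.card E := by
    rw [← hcard]
    have : 1 ≤ N * c := Nat.mul_pos hN0 hc
    nlinarith
  have hlt : ∀ w : ZMod (4 * N), w.val * c < Fintype.card E - 1 := by
    intro w
    rw [← hcard, Nat.add_sub_cancel]
    exact Nat.mul_lt_mul_of_pos_right (ZMod.val_lt w) hc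
  set θ := T.ω⁻¹ ^ (u.val * c) with hθ
  have hhalf : T.ω⁻¹ ^ (2 * N * c) = eta E := by
    rw [← omega_inv_half T hE]
    congr 1
    have : 4 * N * c = 2 * (2 * N * c) := by ring
    omega
  have hmul : T.ω⁻¹ ^ ((u + (2 * N : ℕ)).val * c) = θ * eta E := by
    rw [hθ, ← hhalf, ← pow_add]
    have h1 : (u + (2 * N : ℕ)).val % (4 * N) = (u.val + 2 * N) % (4 * N) := by
      have h2 : (((u + (2 * N : ℕ)).val : ℕ) : ZMod (4 * N)) = ((u.val + 2 * N : ℕ) : ZMod (4 * N)) := by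
        rw [ZMod.natCast_zmod_val, Nat.cast_add (R := ZMod (4 * N)) u.val (2 * N),
          ZMod.natCast_zmod_val]
      exact (ZMod.natCast_eq_natCast_iff' _ _ _).mp h2
    have h3 : (u + (2 * N : ℕ)).val < 4 * N := ZMod.val_lt _
    have h4 : u.val < 4 * N := ZMod.val_lt _
    rw [Nat.mod_eq_of_lt h3] at h1
    have h5 : (u + (2 * N : ℕ)).val = u.val + 2 * N ∨
        (u + (2 * N : ℕ)).val + 4 * N = u.val + 2 * N := by
      rcases lt_or_ge (u.val + 2 * N) (4 * N) with h6 | h6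
      · left
        rw [h1, Nat.mod_eq_of_lt h6]
      · right
        rw [h1, Nat.mod_eq_sub_mod h6, Nat.mod_eq_of_lt (by omega)]
        omega
    have hper : T.ω⁻¹ ^ (4 * N * c) = 1 := by
      rw [T.omega_inv_pow_eq_one_iff]
      exact Dvd.intro 1 (by omega)
    rcases h5 with h6 | h6
    · rw [h6]
      congr 1
      ring
    · have h7 : u.val * c + 2 * N * c = (u + (2 * N : ℕ)).val * c + 4 * N * c := by
        rw [← add_mul, ← h6]
        ring
      rw [h7, pow_add, hper, mul_one]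
  -- valuations
  have hθ2 : θ ^ 2 ≠ 1 := hne u hu
  have hθη : θ * eta E ≠ 1 := by
    intro h
    apply hθ2
    have h2 : θ = eta E := by
      have := eq_inv_of_mul_eq_one_left h
      rw [this, eta_inv]
    rw [h2, eta_sq]
  have hjm := jacobiSum_mul_nontrivial hθη (psi p E)
  have hJu := hJ u hu
  rw [← hθ, JJ_eq_jacobiSum] at hJu
  have hvJ : T.V.valuation (jacobiSum θ (eta E)) = T.V.valuation (r : ℂ) := by
    rw [← hJu, map_mul, val_neg_one, one_mul]
  have hvη : T.V.valuation (gaussSum (eta E) (psi p E)) = T.V.valuation (r : ℂ) := by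
    have h1 := gaussSum_sq (eta_ne_one hE) (χ := eta E)
      ((quadraticChar_isQuadratic E).comp _) (psi_primitive p E)
    have h2 : T.V.valuation (gaussSum (eta E) (psi p E)) ^ 2 = T.V.valuation (r : ℂ) ^ 2 := by
      rw [← map_pow, h1, map_mul, val_neg_one, one_mul, hr, ← map_pow]
      push_cast
      rfl
    exact (pow_left_inj₀ zero_le zero_le two_ne_zero).mp h2
  have hr0 : (r : ℂ) ≠ 0 := by
    intro h
    have : r = 0 := by exact_mod_cast h
    rw [this] at hr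
    exact absurd hr Fintype.card_ne_zero
  have hvr : T.V.valuation (r : ℂ) ≠ 0 := by
    rw [Ne, Valuation.zero_iff]
    exact hr0
  have hv : T.V.valuation (gaussSum (θ * eta E) (psi p E)) =
      T.V.valuation (gaussSum θ (psi p E)) := by
    have h1 := congrArg T.V.valuation hjm
    rw [map_mul, map_mul, hvJ, hvη] at h1
    exact mul_right_cancel₀ hvr h1
  have hg1 := T.val_g hq2 _ (hlt u)
  have hg2 := T.val_g hq2 _ (hlt (u + (2 * N : ℕ)))
  unfold TeichData.g at hg1 hg2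
  rw [hmul, hv] at hg2
  rw [← hθ] at hg1
  rw [hg1] at hg2
  exact (ds_eq_of_val T hg2).symm

omit [DecidableEq E] in
/-- Case B. -/
lemma core_B (T : TeichData p E) {N c : ℕ} [NeZero N]
    (hcard : 4 * N * c + 1 = Fintype.card E) (C : ℂ)
    (hG : ∀ u : ZMod (4 * N), IsUnit u → gaussSum (T.ω⁻¹ ^ (u.val * c)) (psi p E) = C)
    (u w : ZMod (4 * N)) (hu : IsUnit u) (hw : IsUnit w) :
    ds p (w.val * c) = ds p (u.val * c) := by
  have hN0 : 0 < N := Nat.pos_of_ne_zero (NeZero.ne N)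
  have hc : 0 < c := by
    rcases Nat.eq_zero_or_pos c with h0 | h0
    · exfalso
      rw [h0, mul_zero, zero_add] at hcard
      have := Fintype.one_lt_card (α := E)
      omega
    · exact h0
  have hq2 : 2 < Fintype.card E := by
    rw [← hcard]
    have : 1 ≤ N * c := Nat.mul_pos hN0 hc
    nlinarith
  have hlt : ∀ w : ZMod (4 * N), w.val * c < Fintype.card E - 1 := by
    intro w
    rw [← hcard, Nat.add_sub_cancel]
    exact Nat.mul_lt_mul_of_pos_right (ZMod.val_lt w) hc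
  have hg1 := T.val_g hq2 _ (hlt u)
  have hg2 := T.val_g hq2 _ (hlt w)
  unfold TeichData.g at hg1 hg2
  rw [hG u hu] at hg1
  rw [hG w hw] at hg2
  rw [hg1] at hg2
  exact (ds_eq_of_val T hg2).symm

end

/-- The relation between digit sums. -/
def Rel (p N : ℕ) : Prop :=
  ∃ c f : ℕ, f ≠ 0 ∧ 4 * N * c + 1 = p ^ f ∧ ∀ u : ZMod (4 * N), IsUnit u →
    ds p ((u + (2 * N : ℕ)).val * c) = ds p (u.val * c)

lemma sum_eq_zero_of_rel {p N e : ℕ} (hp : p.Prime) [NeZero N] (he : e ≠ 0) (hN : N % 2 = 1)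
    (hrel : Rel p N) (hpN : chf N e p = 1) :
    ∑ u : ZMod (4 * N), chN N e he u * (u.val : ℂ) = 0 := by
  obtain ⟨c, f, hf, hm, h⟩ := hrel
  apply sum_zero_A hp hf hm (chN N e he) _ (2 * N : ℕ) (chN_anti N e he hN) h
  rw [chN_natCast, hpN]
  norm_num

lemma three_of_rel {p l : ℕ} (hp : p.Prime) (hp1 : p % 4 = 1) (hl : l.Prime) (hl2 : l ≠ 2)
    (hpl : p ≠ l) (hrel : Rel p l) : l % 4 = 1 := by
  have : NeZero l := ⟨hl.ne_zero⟩
  have hodd : l % 2 = 1 := by
    rcases hl.eq_two_or_odd with h | h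
    · exact absurd h hl2
    · exact h
  by_contra hcon
  have hl3 : l % 4 = 3 := by omega
  apply sum_chN_three hl hl3
  apply sum_eq_zero_of_rel hp two_ne_zero hodd hrel
  unfold chf
  rw [ZMod.χ₄_nat_one_mod_four hp1, one_mul]
  apply jacobiSym.sq_one
  rw [Int.gcd_natCast_natCast]
  exact (Nat.coprime_primes hp hl).mpr hpl

lemma not_rel {p N : ℕ} (hp : p.Prime) (hp1 : p % 4 = 1) (hN : N % 4 = 1) (hsq : Squarefree N)
    (hJ : J((p : ℤ) | N) = 1) : ¬ Rel p N := by
  intro hrel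
  have : NeZero N := ⟨by rintro rfl; omega⟩
  apply sum_mul_val_ne_zero (chN_primitive N hN hsq) (chN_odd N 1 one_ne_zero hN)
  apply sum_eq_zero_of_rel hp one_ne_zero (by omega) hrel
  unfold chf
  rw [ZMod.χ₄_nat_one_mod_four hp1, one_mul, hJ, one_pow]

/-- Consequence: the odd part of `d` is a power of a prime `l ≡ 1 mod 4` with `(p / l) = -1`. -/
lemma odd_primes_of_rel {p d : ℕ} (hp : p.Prime) (hp1 : p % 4 = 1) (hpd : ¬ p ∣ d)
    (hrel : ∀ N, 1 < N → N % 2 = 1 → N ∣ d → Rel p N) :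
    (∀ l, l.Prime → l ≠ 2 → l ∣ d → l % 4 = 1 ∧ J((p : ℤ) | l) = -1) ∧
    (∀ l₁ l₂, l₁.Prime → l₂.Prime → l₁ ≠ 2 → l₂ ≠ 2 → l₁ ∣ d → l₂ ∣ d → l₁ = l₂) := by
  have h1 : ∀ l, l.Prime → l ≠ 2 → l ∣ d → l % 4 = 1 ∧ J((p : ℤ) | l) = -1 := by
    intro l hl hl2 hld
    have hodd : l % 2 = 1 := by
      rcases hl.eq_two_or_odd with h | h
      · exact absurd h hl2
      · exact h
    have hpl : p ≠ l := by
      rintro rfl
      exact hpd hld
    have hr := hrel l hl.one_lt hodd hld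
    have hl1 := three_of_rel hp hp1 hl hl2 hpl hr
    refine ⟨hl1, ?_⟩
    have hg : Int.gcd (p : ℤ) l = 1 := by
      rw [Int.gcd_natCast_natCast]
      exact (Nat.coprime_primes hp hl).mpr hpl
    rcases jacobiSym.eq_one_or_neg_one hg with h | h
    · exact absurd hr (not_rel hp hp1 hl1 hl.squarefree h)
    · exact h
  refine ⟨h1, ?_⟩
  intro l₁ l₂ hl₁ hl₂ h12 h22 hd₁ hd₂
  by_contra hne
  obtain ⟨ha1, ha2⟩ := h1 l₁ hl₁ h12 hd₁
  obtain ⟨hb1, hb2⟩ := h1 l₂ hl₂ h22 hd₂
  have hcop : Nat.Coprime l₁ l₂ := (Nat.coprime_primes hl₁ hl₂).mpr hne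
  have hmod : (l₁ * l₂) % 4 = 1 := by
    rw [Nat.mul_mod, ha1, hb1]
  have hJ : J((p : ℤ) | l₁ * l₂) = 1 := by
    rw [jacobiSym.mul_right' _ hl₁.ne_zero hl₂.ne_zero, ha2, hb2]
    norm_num
  apply not_rel hp hp1 hmod ((Nat.squarefree_mul hcop).mpr ⟨hl₁.squarefree, hl₂.squarefree⟩) hJ
  apply hrel
  · have := hl₁.one_lt
    have := hl₂.one_lt
    nlinarith
  · omega
  · exact hcop.mul_dvd_of_dvd_of_dvd hd₁ hd₂

end Pool.Agent.Lib.MP_b95a42_nt
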