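import Mathlib

/-!
# The Chebyshev hyperelliptic curves `H_d : y² = φ_d(x)`

`φ_d` is the Dickson polynomial `Polynomial.dickson 1 1 d`, i.e. `φ_0 = 2`, `φ_1 = x`,
`φ_{n+2} = x φ_{n+1} - φ_n`, so that `φ_d (x + 1/x) = x^d + x^{-d}`.
-/

namespace Pool.Agent.Lib.MP_b95a42_nt

/-- The number of `F`-rational points of the smooth complete model of `y² = φ_d(x)` over a field
`F` of odd characteristic not dividing `d`: the affine curve is smooth because `φ_d` has distinct
roots, and since `φ_d` is monic there is one rational point at infinity if `d` is odd and there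
are two if `d` is even. -/
noncomputable def numPoints (d : ℕ) (F : Type) [Field F] : ℕ :=
  Nat.card {P : F × F // P.2 ^ 2 = (Polynomial.dickson 1 (1 : F) d).eval P.1} +
    if Even d then 2 else 1

/-- `H_d` is maximal over the finite field `F`: `#F = r²` is a square and
`#H_d(F) = r² + 1 + 2 g r`, where `g = ⌊(d - 1) / 2⌋` is the genus. -/
def MaximalOver (d : ℕ) (F : Type) [Field F] : Prop :=
  ∃ r : ℕ, Nat.card F = r ^ 2 ∧ numPoints d F = r ^ 2 + 1 + 2 * ((d - 1) / 2) * r

/-- `H_d` is maximal in characteristic `p`: it is maximal over some (equivalently, every) finite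
field with `p ^ k` elements, for some `k ≥ 1`. -/
def MaximalInChar (d p : ℕ) : Prop :=
  ∃ k : ℕ, 1 ≤ k ∧ ∃ (F : Type) (_ : Field F), Nat.card F = p ^ k ∧ MaximalOver d F

end Pool.Agent.Lib.MP_b95a42_nt
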