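import Mathlib
import Pool.Agent.Lib.MP_b95a42_nt.Stick
import Pool.Agent.Lib.MP_b95a42_nt.Bound

/-!
# A congruence for Jacobi sums with characters of order eight
-/

namespace Pool.Agent.Lib.MP_b95a42_nt

open Finset

section

variable {V : ValuationSubring ℂ}

lemma val_sub_one_step (hV : V.valuation (2 : ℂ) < 1) {y : ℂ} (hy : IsIntegral ℤ y)
    (h : V.valuation (y ^ 2 - 1) < 1) : V.valuation (y - 1) < 1 := by
  have h1 : (y - 1) ^ 2 = (y ^ 2 - 1) + 2 * (1 - y) := by ring
  have h2 : V.valuation (2 * (1 - y)) < 1 := by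
    rw [map_mul]
    have h3 : V.valuation (1 - y) ≤ 1 := val_le_one V (isIntegral_one.sub hy)
    calc V.valuation 2 * V.valuation (1 - y) ≤ V.valuation 2 * 1 := by gcongr
      _ = V.valuation 2 := mul_one _
      _ < 1 := hV
  have h3 : V.valuation ((y - 1) ^ 2) < 1 := by
    rw [h1]
    exact lt_of_le_of_lt (V.valuation.map_add _ _) (max_lt h h2)
  by_contra hcon
  push Not at hcon
  rw [map_pow] at h3
  exact absurd h3 (not_lt.mpr (one_le_pow₀ hcon))

lemma val_root_eight (hV : V.valuation (2 : ℂ) < 1) {ζ : ℂ} (h : ζ ^ 8 = 1) :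
    V.valuation (ζ - 1) < 1 := by
  have hint : IsIntegral ℤ ζ := isIntegral_root (n := 8) (by norm_num) h
  apply val_sub_one_step hV hint
  apply val_sub_one_step hV (hint.pow 2)
  rw [← pow_mul]
  apply val_sub_one_step hV (hint.pow (2 * 2))
  rw [← pow_mul, show 2 * 2 * 2 = 8 by norm_num, h, sub_self, map_zero]
  exact zero_lt_one

lemma val_odd (hV : V.valuation (2 : ℂ) < 1) {m : ℤ} (hm : m % 2 = 1) :
    V.valuation (m : ℂ) = 1 := by
  have hint : ∀ n : ℤ, IsIntegral ℤ (n : ℂ) := fun n => isIntegral_algebraMap (x := n)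
  apply le_antisymm (val_le_one V (hint m))
  by_contra hcon
  push Not at hcon
  obtain ⟨t, ht⟩ : ∃ t, m = 2 * t + 1 := ⟨m / 2, by omega⟩
  have h1 : (1 : ℂ) = (m : ℂ) + 2 * ((-t : ℤ) : ℂ) := by
    rw [ht]
    push_cast
    ring
  have h2 : V.valuation (2 * ((-t : ℤ) : ℂ)) < 1 := by
    rw [map_mul]
    calc V.valuation 2 * V.valuation ((-t : ℤ) : ℂ) ≤ V.valuation 2 * 1 := by
          gcongr
          exact val_le_one V (hint _)
      _ = V.valuation 2 := mul_one _
      _ < 1 := hV
  have h3 : V.valuation (1 : ℂ) < 1 := by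
    rw [h1]
    exact lt_of_le_of_lt (V.valuation.map_add _ _) (max_lt hcon h2)
  rw [map_one] at h3
  exact lt_irrefl _ h3

variable {F : Type*} [Field F] [Fintype F] [DecidableEq F]

/-- If `J(θ) = r` with `θ` of order dividing eight then `θ(-1) = -1`. -/
lemma theta_neg_one (hF : ringChar F ≠ 2) {θ : MulChar F ℂ} (hθ8 : θ ^ 8 = 1) (hθ : θ ≠ 1)
    {r : ℕ} (hr : Fintype.card F = r ^ 2) (hr1 : r % 4 = 1) (hJ : JJ θ = r) : θ (-1) = -1 := by
  obtain ⟨V, hV⟩ := exists_valuationSubring 2
  rw [Nat.cast_ofNat] at hV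
  have h1 : (θ (-1)) ^ 2 = 1 := by
    rw [← map_pow]
    simp
  rcases sq_eq_one_iff.mp h1 with h2 | h2
  · exfalso
    rw [JJ_eq_jacobiSum, h2, one_mul] at hJ
    have h3 : jacobiSum θ (eta F) - (Fintype.card F : ℂ) + 2 =
        ∑ x : Fˣ, (θ (x : F) - 1) * (1 + eta F (1 - (x : F))) := by
      have h4 : ∑ x : F, (θ x - 1) * (1 + eta F (1 - x)) =
          (∑ x : Fˣ, (θ (x : F) - 1) * (1 + eta F (1 - (x : F)))) - 2 := by
        have h5 : ∑ x : Fˣ, (θ (x : F) - 1) * (1 + eta F (1 - (x : F))) =
            ∑ x : F, (if x = 0 then 0 else (θ x - 1) * (1 + eta F (1 - x))) := by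
          refine Fintype.sum_of_injective (fun x : Fˣ => (x : F)) Units.val_injective _ _ ?_ ?_
          · intro i hi
            have : i = 0 := by
              by_contra hne
              exact hi ⟨Units.mk0 i hne, rfl⟩
            rw [if_pos this]
          · intro i
            rw [if_neg i.ne_zero]
        rw [h5, eq_sub_iff_add_eq]
        have h6 : ∀ x : F, (θ x - 1) * (1 + eta F (1 - x)) =
            (if x = 0 then 0 else (θ x - 1) * (1 + eta F (1 - x))) + (if x = 0 then -2 else 0) := by
          intro x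
          split_ifs with h
          · subst h
            rw [MulChar.map_zero, sub_zero, map_one]
            ring
          · ring
        rw [Finset.sum_congr rfl (fun x _ => h6 x), sum_add_distrib, Finset.sum_ite_eq']
        simp
      have h7 : ∑ x : F, (θ x - 1) * (1 + eta F (1 - x)) =
          jacobiSum θ (eta F) - (Fintype.card F : ℂ) := by
        have h8 : ∀ x : F, (θ x - 1) * (1 + eta F (1 - x)) =
            θ x + θ x * eta F (1 - x) - 1 - eta F (1 - x) := by
          intro x
          ring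
        rw [Finset.sum_congr rfl (fun x _ => h8 x), sum_sub_distrib, sum_sub_distrib,
          sum_add_distrib, MulChar.sum_eq_zero_of_ne_one hθ]
        have h9 : ∑ x : F, eta F (1 - x) = 0 := by
          rw [← MulChar.sum_eq_zero_of_ne_one (eta_ne_one hF)]
          exact Equiv.sum_comp (Equiv.subLeft (1 : F)) (fun x => eta F x)
        rw [h9]
        unfold jacobiSum
        simp
      rw [← h7, h4]
      ring
    have h10 : V.valuation (jacobiSum θ (eta F) - (Fintype.card F : ℂ) + 2) < V.valuation 2 := by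
      rw [h3]
      have h20 : V.valuation (2 : ℂ) ≠ 0 := by
        rw [Ne, Valuation.zero_iff]
        exact two_ne_zero
      apply Valuation.map_sum_lt _ h20
      intro x _
      by_cases hx1 : (x : F) = 1
      · rw [hx1, map_one, sub_self, zero_mul, map_zero]
        exact zero_lt_iff.mpr h20
      · rw [map_mul]
        have h11 : V.valuation (θ (x : F) - 1) < 1 := by
          apply val_root_eight hV
          rw [← MulChar.pow_apply_coe, hθ8, MulChar.one_apply_coe]
        have h12 : V.valuation (1 + eta F (1 - (x : F))) ≤ V.valuation 2 := by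
          have hne : (1 : F) - x ≠ 0 := sub_ne_zero.mpr (Ne.symm hx1)
          rw [eta_apply]
          rcases quadraticChar_dichotomy hne with h | h
          · rw [h]
            norm_num
          · rw [h]
            norm_num
        calc V.valuation (θ (x : F) - 1) * V.valuation (1 + eta F (1 - (x : F)))
            ≤ V.valuation (θ (x : F) - 1) * V.valuation 2 := by gcongr
          _ < 1 * V.valuation 2 := by
            exact mul_lt_mul_of_pos_right h11 (zero_lt_iff.mpr h20)
          _ = V.valuation 2 := one_mul _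
    obtain ⟨k, hk⟩ : ∃ k : ℤ, (r : ℤ) = 4 * k + 1 := ⟨(r : ℤ) / 4, by omega⟩
    have h13 : jacobiSum θ (eta F) - (Fintype.card F : ℂ) + 2 =
        2 * ((1 - 2 * k - 8 * k ^ 2 : ℤ) : ℂ) := by
      rw [hJ, hr]
      have : (r : ℂ) = 4 * (k : ℂ) + 1 := by exact_mod_cast congrArg (Int.cast : ℤ → ℂ) hk
      push_cast
      rw [this]
      ring
    rw [h13, map_mul, val_odd hV (by
      have : (1 - 2 * k - 8 * k ^ 2) = 2 * (-k - 4 * k ^ 2) + 1 := by ring
      rw [this]
      omega), mul_one] at h10
    exact lt_irrefl _ h10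
  · exact h2

end

end Pool.Agent.Lib.MP_b95a42_nt
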