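import Mathlib
import Pool.Agent.Lib.MP_b95a42_nt.Defs

/-!
# `H_4` is maximal in characteristic `5`
-/

namespace Pool.Agent.Lib.MP_b95a42_nt

instance factPrimeFive : Fact (Nat.Prime 5) := ⟨by norm_num⟩

instance fact25 : Fact (∀ r : ZMod 5, r ^ 2 ≠ 2 + 0 * r) := ⟨by decide⟩

/-- The field with 25 elements. -/
abbrev F25 : Type := QuadraticAlgebra (ZMod 5) 2 0

lemma card_F25 : Nat.card F25 = 5 ^ 2 := by
  rw [Nat.card_congr (QuadraticAlgebra.equivProd (2 : ZMod 5) 0), Nat.card_prod, Nat.card_zmod]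
  norm_num

lemma dickson_four {F : Type} [Field F] (x : F) :
    (Polynomial.dickson 1 (1 : F) 4).eval x = x ^ 4 - 4 * x ^ 2 + 2 := by
  rw [Polynomial.dickson_add_two, Polynomial.dickson_add_two, Polynomial.dickson_add_two,
    Polynomial.dickson_one, Polynomial.dickson_zero]
  simp
  ring

lemma card_affine25 :
    Nat.card {P : F25 × F25 // P.2 ^ 2 = (Polynomial.dickson 1 (1 : F25) 4).eval P.1} = 34 := by
  let e : {P : F25 × F25 // P.2 ^ 2 = (Polynomial.dickson 1 (1 : F25) 4).eval P.1} ≃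
      {v : (ZMod 5 × ZMod 5) × (ZMod 5 × ZMod 5) //
        v.2.1 * v.2.1 + 2 * v.2.2 * v.2.2 =
          (v.1.1 * v.1.1 + 2 * v.1.2 * v.1.2) * (v.1.1 * v.1.1 + 2 * v.1.2 * v.1.2) +
            2 * (2 * v.1.1 * v.1.2) * (2 * v.1.1 * v.1.2) -
            4 * (v.1.1 * v.1.1 + 2 * v.1.2 * v.1.2) + 2 ∧
        2 * v.2.1 * v.2.2 =
          2 * (v.1.1 * v.1.1 + 2 * v.1.2 * v.1.2) * (2 * v.1.1 * v.1.2) -
            4 * (2 * v.1.1 * v.1.2)} :=
    (Equiv.prodCongr (QuadraticAlgebra.equivProd (2 : ZMod 5) 0)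
      (QuadraticAlgebra.equivProd (2 : ZMod 5) 0)).subtypeEquiv (by
        rintro ⟨⟨a, b⟩, ⟨c, d⟩⟩
        rw [dickson_four, QuadraticAlgebra.ext_iff]
        have h2 : (2 : F25) = ⟨2, 0⟩ := rfl
        have h4 : (4 : F25) = ⟨4, 0⟩ := rfl
        rw [h2, h4]
        have e1 : (QuadraticAlgebra.equivProd (2 : ZMod 5) 0) ⟨a, b⟩ = (a, b) := rfl
        have e2 : (QuadraticAlgebra.equivProd (2 : ZMod 5) 0) ⟨c, d⟩ = (c, d) := rfl
        simp only [Equiv.prodCongr_apply, Prod.map, e1, e2, pow_succ,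
          pow_zero, one_mul, QuadraticAlgebra.re_mul, QuadraticAlgebra.im_mul,
          QuadraticAlgebra.re_add, QuadraticAlgebra.im_add, QuadraticAlgebra.re_sub,
          QuadraticAlgebra.im_sub]
        constructor
        · rintro ⟨h, h'⟩
          exact ⟨by linear_combination h, by linear_combination h'⟩
        · rintro ⟨h, h'⟩
          exact ⟨by linear_combination h, by linear_combination h'⟩)
  rw [Nat.card_congr e, Nat.card_eq_fintype_card]
  decide +kernel

theorem maximal_four_five : MaximalInChar 4 5 := by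
  refine ⟨2, by norm_num, F25, inferInstance, card_F25, 5, card_F25, ?_⟩
  unfold numPoints
  rw [card_affine25]
  decide

end Pool.Agent.Lib.MP_b95a42_nt
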