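import Mathlib
import Pool.Agent.Lib.MP_b95a42_nt.Defs
import Pool.Agent.Lib.MP_b95a42_nt.Core
import Pool.Agent.Lib.MP_b95a42_nt.EvenCase

/-!
# Main theorem: shape of `d` when `H_d` is maximal in characteristic `p ≡ 1 mod 4`
-/

namespace Pool.Agent.Lib.MP_b95a42_nt

open Finset NumberTheorySymbols

lemma pow_four_of_sq {G : Type*} [Monoid G] {x y : G} (h : x ^ 2 = y) (hy : y ^ 2 = 1) :
    x ^ 4 = 1 := by
  rw [show (4 : ℕ) = 2 * 2 by norm_num, pow_mul, h, hy]

section

variable {F : Type} [Field F] [Fintype F] [DecidableEq F]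

/-- Number of affine points. -/
lemma card_affine (hF : ringChar F ≠ 2) (d : ℕ) :
    ((Nat.card {P : F × F // P.2 ^ 2 = (Polynomial.dickson 1 (1 : F) d).eval P.1} : ℕ) : ℂ) =
      Fintype.card F + SS F d := by
  classical
  have h1 : Nat.card {P : F × F // P.2 ^ 2 = (Polynomial.dickson 1 (1 : F) d).eval P.1} =
      ∑ x : F, #{y : F | y ^ 2 = (Polynomial.dickson 1 (1 : F) d).eval x} := by
    rw [Nat.card_eq_fintype_card, Fintype.card_subtype, ← Finset.card_sigma]
    refine Finset.card_bij' (fun P _ => ⟨P.1, P.2⟩) (fun P _ => (P.1, P.2)) ?_ ?_ ?_ ?_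
    · intro P hP
      simpa using hP
    · intro P hP
      simpa using hP
    · intro P _
      rfl
    · intro P _
      rfl
  rw [h1]
  push_cast
  rw [Finset.sum_congr rfl (fun x _ => card_sqrts hF _), sum_add_distrib]
  simp [SS]

end

section

variable {p : ℕ} [hp : Fact p.Prime] {F : Type} [Field F] [Fintype F] [DecidableEq F]
  [Algebra (ZMod p) F]
  {K : Type} [Field K] [Fintype K] [DecidableEq K] [Algebra (ZMod p) K] [Algebra F K]
  [IsScalarTower (ZMod p) F K]

omit [DecidableEq F] [DecidableEq K] in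
lemma psi_K (y : K) : psi p K y = psi p F (Algebra.trace F K y) := by
  rw [psi_apply, psi_apply, Algebra.trace_trace]

omit [DecidableEq F] in
variable (F) in
lemma exists_pow_of_char : ∃ f : ℕ, f ≠ 0 ∧ Fintype.card F = p ^ f := by
  refine ⟨Module.finrank (ZMod p) F, ?_, TeichData.card_eq⟩
  exact Module.finrank_pos.ne'

/-- From the equality case to relations, split odd case. -/
lemma rel_of_split_odd (hF : ringChar F ≠ 2) (h4 : Fintype.card F % 4 = 1) {r : ℕ}
    (hr : Fintype.card F = r ^ 2) {d : ℕ} (hd : Odd d)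
    (h1 : d ∣ (Fintype.card F - 1) / 2) (h2 : ∀ θ ∈ AA F d, θ ^ 2 ≠ eta F → JJ θ = r)
    {N : ℕ} (hN1 : 1 < N) (hN2 : N % 2 = 1) (hNd : N ∣ d) : Rel p N := by
  have : NeZero N := ⟨by omega⟩
  obtain ⟨T⟩ := exists_teichData p F
  obtain ⟨f, hf, hcf⟩ := exists_pow_of_char (p := p) F
  have h3 : N ∣ (Fintype.card F - 1) / 2 := hNd.trans h1
  have h5 : 2 * N ∣ (Fintype.card F - 1) / 2 := by
    apply Nat.Coprime.mul_dvd_of_dvd_of_dvd _ _ h3
    · rw [Nat.coprime_two_left]
      exact Nat.odd_iff.mpr hN2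
    · omega
  obtain ⟨c, hc⟩ := h5
  have hcard : 4 * N * c + 1 = Fintype.card F := by
    have : 4 * N * c = 2 * (2 * N * c) := by ring
    have := Fintype.one_lt_card (α := F)
    omega
  obtain ⟨m, hm⟩ := hNd
  have hmodd : Odd m := by
    rw [hm] at hd
    exact (Nat.odd_mul.mp hd).2
  have hodd_pow : ∀ k : ℕ, Odd k → (eta F) ^ k = eta F := by
    rintro k ⟨j, hj⟩
    rw [hj, pow_succ, pow_mul, eta_sq, one_pow, one_mul]
  have hA : ∀ u : ZMod (4 * N), IsUnit u → JJ (T.ω⁻¹ ^ (u.val * c)) = r := by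
    intro u hu
    apply h2
    · simp only [AA, mem_filter, mem_univ, true_and]
      have : 2 * d = 2 * N * m := by rw [hm]; ring
      rw [this, pow_mul, Th_pow_two_N T hF hcard u hu, hodd_pow m hmodd, hodd_pow d hd]
    · intro h
      apply Th_pow_four_ne T hN1 hN2 hcard u hu
      exact pow_four_of_sq h eta_sq
  refine ⟨c, f, hf, by rw [hcard, hcf], ?_⟩
  apply core_A T hF hcard hr hA
  intro u hu h
  apply Th_pow_four_ne T hN1 hN2 hcard u hu
  exact pow_four_of_sq h (one_pow 2)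

/-- From the equality case to relations, split even case. -/
lemma rel_of_split_even (hF : ringChar F ≠ 2) {r : ℕ}
    (hr : Fintype.card F = r ^ 2) {d : ℕ} (hd : Even d)
    (h1 : 2 * d ∣ (Fintype.card F - 1))
    (h2 : ∀ θ : MulChar F ℂ, θ ^ (2 * d) = 1 → θ ^ 4 ≠ 1 → JJ θ = r)
    {N : ℕ} (hN1 : 1 < N) (hN2 : N % 2 = 1) (hNd : N ∣ d) : Rel p N := by
  have : NeZero N := ⟨by omega⟩
  obtain ⟨T⟩ := exists_teichData p F
  obtain ⟨f, hf, hcf⟩ := exists_pow_of_char (p := p) F
  have h5 : 2 * N ∣ d := by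
    apply Nat.Coprime.mul_dvd_of_dvd_of_dvd _ _ hNd
    · rw [Nat.coprime_two_left]
      exact Nat.odd_iff.mpr hN2
    · exact hd.two_dvd
  obtain ⟨m, hm⟩ := h5
  have h6 : 4 * N ∣ Fintype.card F - 1 := by
    refine Dvd.dvd.trans ⟨m, ?_⟩ h1
    rw [hm]
    ring
  obtain ⟨c, hc⟩ := h6
  have hcard : 4 * N * c + 1 = Fintype.card F := by
    have := Fintype.one_lt_card (α := F)
    omega
  have hA : ∀ u : ZMod (4 * N), IsUnit u → JJ (T.ω⁻¹ ^ (u.val * c)) = r := by
    intro u hu
    apply h2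
    · have : 2 * d = 2 * N * (2 * m) := by rw [hm]; ring
      rw [this, pow_mul, Th_pow_two_N T hF hcard u hu, pow_mul, eta_sq, one_pow]
    · exact Th_pow_four_ne T hN1 hN2 hcard u hu
  refine ⟨c, f, hf, by rw [hcard, hcf], ?_⟩
  apply core_A T hF hcard hr hA
  intro u hu h
  apply Th_pow_four_ne T hN1 hN2 hcard u hu
  exact pow_four_of_sq h (one_pow 2)

omit [DecidableEq F] [Algebra (ZMod p) F] [IsScalarTower (ZMod p) F K] in
/-- From the equality case to relations, non-split case. -/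
lemma rel_of_nonsplit (hF : ringChar F ≠ 2) (hK : Module.finrank F K = 2)
    (h4 : Fintype.card F % 4 = 1) {d : ℕ} (hd : Odd d)
    (h1 : d ∣ (Fintype.card F + 1) / 2) (C : ℂ)
    (h2 : ∀ Θ ∈ BB F K d, Θ ^ 2 ≠ eta K → gaussSum Θ (psi p K) = C)
    {N : ℕ} (hN1 : 1 < N) (hN2 : N % 2 = 1) (hNd : N ∣ d) : Rel p N := by
  have : NeZero N := ⟨by omega⟩
  have hF' : ringChar K ≠ 2 := by rwa [ringChar_K (F := F)]
  obtain ⟨T⟩ := exists_teichData p K
  obtain ⟨f, hf, hcf⟩ := exists_pow_of_char (p := p) K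
  have h3 : N ∣ (Fintype.card F + 1) / 2 := hNd.trans h1
  obtain ⟨m', hm'⟩ := h3
  have hm'odd : Odd m' := by
    have h5 : Odd ((Fintype.card F + 1) / 2) := Nat.odd_iff.mpr (by omega)
    rw [hm'] at h5
    exact (Nat.odd_mul.mp h5).2
  have hq1 : Fintype.card F + 1 = 2 * N * m' := by
    have : 2 * N * m' = 2 * (N * m') := by ring
    omega
  obtain ⟨n, hn⟩ : ∃ n, Fintype.card F = 4 * n + 1 := ⟨Fintype.card F / 4, by omega⟩
  have hcard : 4 * N * (2 * n * m') + 1 = Fintype.card K := by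
    have h6 := card_units_K (F := F) hK
    rw [Fintype.card_units, hq1] at h6
    have h7 : Fintype.card F - 1 = 4 * n := by omega
    rw [h7] at h6
    have h8 : 4 * N * (2 * n * m') = 4 * n * (2 * N * m') := by ring
    have := Fintype.one_lt_card (α := K)
    omega
  obtain ⟨m, hm⟩ := hNd
  have hmodd : Odd m := by
    rw [hm] at hd
    exact (Nat.odd_mul.mp hd).2
  have hodd_pow : ∀ k : ℕ, Odd k → (eta K) ^ k = eta K := by
    rintro k ⟨j, hj⟩
    rw [hj, pow_succ, pow_mul, eta_sq, one_pow, one_mul]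
  have hB : ∀ u : ZMod (4 * N), IsUnit u →
      gaussSum (T.ω⁻¹ ^ (u.val * (2 * n * m'))) (psi p K) = C := by
    intro u hu
    apply h2
    · simp only [BB, mem_filter, mem_univ, true_and]
      constructor
      · have : 2 * d = 2 * N * m := by rw [hm]; ring
        rw [this, pow_mul, Th_pow_two_N T hF' hcard u hu, hodd_pow m hmodd, hodd_pow d hd]
      · rw [hq1, pow_mul, Th_pow_two_N T hF' hcard u hu, hodd_pow m' hm'odd]
    · intro h
      apply Th_pow_four_ne T hN1 hN2 hcard u hu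
      exact pow_four_of_sq h eta_sq
  refine ⟨2 * n * m', f, hf, by rw [hcard, hcf], ?_⟩
  intro u hu
  apply core_B T hcard C hB u _ hu
  -- u + 2N is a unit
  have hu' := hu
  rw [← ZMod.natCast_zmod_val u, ZMod.isUnit_iff_coprime] at hu'
  have h9 : u + ((2 * N : ℕ) : ZMod (4 * N)) = ((u.val + 2 * N : ℕ) : ZMod (4 * N)) := by
    rw [Nat.cast_add (R := ZMod (4 * N)) u.val (2 * N), ZMod.natCast_zmod_val]
  rw [h9, ZMod.isUnit_iff_coprime]
  have h10 : Nat.Coprime u.val 2 :=
    Nat.Coprime.coprime_dvd_right (Dvd.intro (2 * N) (by ring)) hu'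
  have h11 : Nat.Coprime u.val N :=
    Nat.Coprime.coprime_dvd_right (Dvd.intro_left 4 rfl) hu'
  apply Nat.Coprime.mul_right
  · have h12 : Nat.Coprime (u.val + 2 * N) 2 := by
      rw [Nat.coprime_comm, Nat.coprime_two_left] at h10 ⊢
      rw [Nat.odd_iff] at h10 ⊢
      omega
    exact Nat.Coprime.mul_right (m := 2) (n := 2) h12 h12
  · exact (Nat.coprime_add_mul_right_left _ _ _).mpr h11

end

/-- Relations from maximality. -/
theorem rel_of_maximal {d p : ℕ} (hd : 3 ≤ d) (hp : p.Prime) (hp1 : p % 4 = 1)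
    {F : Type} [Field F] {k : ℕ} (hk : 1 ≤ k) (hcardF : Nat.card F = p ^ k)
    (hmax : MaximalOver d F) :
    (∀ N, 1 < N → N % 2 = 1 → N ∣ d → Rel p N) ∧
    (4 ∣ d → p % 8 = 5 ∧ ¬ 8 ∣ d ∧ (∀ l : ℕ, l.Prime → l % 4 = 1 → l ∣ d →
      J((p : ℤ) | l) = -1 → False)) := by
  classical
  have : Fact p.Prime := ⟨hp⟩
  have hfin : Finite F := by
    apply Nat.finite_of_card_ne_zero
    rw [hcardF]
    exact pow_ne_zero _ hp.ne_zero
  have : Fintype F := Fintype.ofFinite F
  rw [Nat.card_eq_fintype_card] at hcardF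
  have hcharp : CharP F p := by
    obtain ⟨p', hp', ⟨n, hpp, hn⟩⟩ := FiniteField.card' F
    have h1 : p' ∣ p ^ k := by
      rw [← hcardF, hn]
      exact dvd_pow_self _ n.ne_zero
    have h2 : p' ∣ p := hpp.dvd_of_dvd_pow h1
    have h3 := (Nat.prime_dvd_prime_iff_eq hpp hp).mp h2
    rwa [← h3]
  let _ : Algebra (ZMod p) F := ZMod.algebra F p
  have hringF : ringChar F = p := ringChar.eq_iff.mpr hcharp
  have hF : ringChar F ≠ 2 := by
    rw [hringF]
    rintro rfl
    omega
  have hpow4 : ∀ j : ℕ, (p ^ j) % 4 = 1 := by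
    intro j
    rw [Nat.pow_mod, hp1, one_pow, Nat.one_mod_eq_one.mpr (by norm_num)]
  have h4 : Fintype.card F % 4 = 1 := by rw [hcardF]; exact hpow4 k
  let K := FiniteField.Extension F p 2
  have : Fintype K := Fintype.ofFinite K
  have hK : Module.finrank F K = 2 := FiniteField.finrank_extension F p 2
  obtain ⟨r, hr, hnum⟩ := hmax
  rw [Nat.card_eq_fintype_card] at hr
  have haff := card_affine hF d
  unfold numPoints at hnum
  rcases Nat.even_or_odd d with hev | hodd
  · -- even case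
    rw [if_pos hev] at hnum
    have hS : SS F d + 1 = ((d : ℂ) - 2) * r := by
      have h5 : 2 * ((d - 1) / 2) = d - 2 := by
        obtain ⟨e, he⟩ := hev
        omega
      rw [h5] at hnum
      have h6 : ((Nat.card {P : F × F // P.2 ^ 2 = (Polynomial.dickson 1 (1 : F) d).eval P.1} :
          ℕ) : ℂ) + 2 = (r : ℂ) ^ 2 + 1 + ((d - 2 : ℕ) : ℂ) * r := by exact_mod_cast hnum
      rw [haff, hr, Nat.cast_sub (by omega)] at h6
      push_cast at h6
      linear_combination h6
    obtain ⟨h7, h8⟩ := even_case (K := K) hF hK (psi_primitive p F) (psi_primitive p K) psi_K h4 hr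
      hev hd hS
    refine ⟨fun N hN1 hN2 hNd => rel_of_split_even hF hr hev h7 h8 hN1 hN2 hNd, ?_⟩
    intro h4d
    -- a character of order eight
    have hcard8 : 8 ∣ Fintype.card F - 1 := by
      obtain ⟨e, he⟩ := h4d
      refine Dvd.dvd.trans ⟨e, ?_⟩ h7
      rw [he]
      ring
    obtain ⟨T⟩ := exists_teichData p F
    obtain ⟨c, hc⟩ := hcard8
    have hq1 := Fintype.one_lt_card (α := F)
    have hc0 : 0 < c := by
      rcases Nat.eq_zero_or_pos c with h | h
      · rw [h] at hc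
        omega
      · exact h
    -- r is a power of p
    obtain ⟨j, hj⟩ : ∃ j, r = p ^ j := by
      have h9 : r ∣ p ^ k := by
        rw [← hcardF, hr]
        exact dvd_pow_self _ two_ne_zero
      obtain ⟨j, -, hj⟩ := (Nat.dvd_prime_pow hp).mp h9
      exact ⟨j, hj⟩
    have hr1 : r % 4 = 1 := by rw [hj]; exact hpow4 j
    have hθ8 : (T.ω⁻¹ ^ c) ^ 8 = 1 := by
      rw [← pow_mul, T.omega_inv_pow_eq_one_iff, hc, mul_comm]
    have hθ4 : (T.ω⁻¹ ^ c) ^ 4 ≠ 1 := by
      rw [← pow_mul, Ne, T.omega_inv_pow_eq_one_iff, hc]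
      intro h
      have := Nat.le_of_dvd (by omega) h
      omega
    have hJ8 : JJ (T.ω⁻¹ ^ c) = r := by
      apply h8 _ _ hθ4
      obtain ⟨e, he⟩ := h4d
      have : 2 * d = 8 * e := by omega
      rw [this, pow_mul, hθ8, one_pow]
    have hneg := theta_neg_one hF hθ8 (by
      intro h
      apply hθ4
      rw [h, one_pow]) hr hr1 hJ8
    have hc2 : c % 2 = 1 := by
      by_contra hcon
      obtain ⟨c', hc'⟩ : ∃ c', c = c' * 2 := ⟨c / 2, by omega⟩
      rw [hc', pow_mul, MulChar.pow_apply' _ two_ne_zero, ← map_pow] at hneg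
      norm_num at hneg
    -- r ≡ 5 mod 8
    have hr5 : r % 8 = 5 := by
      by_contra hcon
      have h9 : r % 8 = 1 := by omega
      obtain ⟨t, ht⟩ : ∃ t, r = 8 * t + 1 := ⟨r / 8, by omega⟩
      have h10 : Fintype.card F - 1 = 8 * (2 * (4 * t ^ 2 + t)) := by
        rw [hr, ht]
        have : (8 * t + 1) ^ 2 = 8 * (2 * (4 * t ^ 2 + t)) + 1 := by ring
        omega
      rw [hc] at h10
      have h11 : c = 2 * (4 * t ^ 2 + t) := by omega
      omega
    have hp8 : (p % 8 = 1 ∨ p % 8 = 5) := by omega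
    have hp5 : p % 8 = 5 := by
      rcases hp8 with h | h
      · exfalso
        rw [hj, Nat.pow_mod, h, one_pow] at hr5
        norm_num at hr5
      · exact h
    have hjodd : Odd j := by
      by_contra hcon
      rw [Nat.not_odd_iff_even] at hcon
      obtain ⟨i, hi⟩ := hcon
      rw [hj, hi, ← two_mul, pow_mul, Nat.pow_mod, Nat.pow_mod p 2, hp5] at hr5
      norm_num at hr5
    refine ⟨hp5, ?_, ?_⟩
    · rintro ⟨e, he⟩
      have h12 : 16 ∣ Fintype.card F - 1 := by
        refine Dvd.dvd.trans ⟨e, ?_⟩ h7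
        rw [he]
        ring
      omega
    · intro l hl hl1 hld hJl
      have hlq : l ∣ Fintype.card F - 1 := (hld.trans (Dvd.intro_left 2 rfl)).trans h7
      have hr0 : 1 ≤ r := by omega
      have h13 : Fintype.card F - 1 = (r - 1) * (r + 1) := by
        obtain ⟨s, hs⟩ := Nat.exists_eq_add_of_le hr0
        rw [hr, hs]
        have : (1 + s) ^ 2 = (1 + s - 1) * (1 + s + 1) + 1 := by
          have : 1 + s - 1 = s := by omega
          rw [this]
          ring
        omega
      rw [h13] at hlq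
      have h14 : J((r : ℤ) | l) = -1 := by
        rw [hj]
        push_cast
        rw [jacobiSym.pow_left, hJl]
        exact hjodd.neg_one_pow
      have h15 : J((r : ℤ) | l) = 1 := by
        rcases (Nat.Prime.dvd_mul hl).mp hlq with h | h
        · have h16 : J((r : ℤ) | l) = J((1 : ℤ) | l) := by
            apply jacobiSym.mod_left'
            have : (l : ℤ) ∣ (r : ℤ) - 1 := by
              have h17 := Int.natCast_dvd_natCast.mpr h
              rwa [Nat.cast_sub hr0, Nat.cast_one] at h17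
            exact (Int.ModEq.symm (Int.modEq_iff_dvd.mpr this))
          rw [h16, jacobiSym.one_left]
        · have h16 : J((r : ℤ) | l) = J((-1 : ℤ) | l) := by
            apply jacobiSym.mod_left'
            have : (l : ℤ) ∣ (r : ℤ) - (-1) := by
              have h17 := Int.natCast_dvd_natCast.mpr h
              push_cast at h17
              simpa using h17
            exact (Int.ModEq.symm (Int.modEq_iff_dvd.mpr this))
          rw [h16, jacobiSym.at_neg_one (Nat.odd_iff.mpr (by omega)),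
            ZMod.χ₄_nat_one_mod_four hl1]
      rw [h14] at h15
      norm_num at h15
  · -- odd case
    rw [if_neg (Nat.not_even_iff_odd.mpr hodd)] at hnum
    have hS : SS F d = ((d : ℂ) - 1) * r := by
      have h5 : 2 * ((d - 1) / 2) = d - 1 := by
        obtain ⟨e, he⟩ := hodd
        omega
      rw [h5] at hnum
      have h6 : ((Nat.card {P : F × F // P.2 ^ 2 = (Polynomial.dickson 1 (1 : F) d).eval P.1} :
          ℕ) : ℂ) + 1 = (r : ℂ) ^ 2 + 1 + ((d - 1 : ℕ) : ℂ) * r := by exact_mod_cast hnum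
      rw [haff, hr, Nat.cast_sub (by omega)] at h6
      push_cast at h6
      linear_combination h6
    refine ⟨?_, ?_⟩
    · intro N hN1 hN2 hNd
      rcases odd_case (K := K) hF hK (psi_primitive p F) (psi_primitive p K) psi_K h4 hr
        hodd hd hS with ⟨h7, h8⟩ | ⟨h7, h8⟩
      · exact rel_of_split_odd hF h4 hr hodd h7 h8 hN1 hN2 hNd
      · exact rel_of_nonsplit hF hK h4 hodd h7 _ h8 hN1 hN2 hNd
    · rintro ⟨e, he⟩
      exfalso
      obtain ⟨e', he'⟩ := hodd
      omega

/-- An odd number `> 1` with only one prime divisor is a prime power. -/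
lemma eq_prime_pow_of_unique {m : ℕ} (hm : 1 < m)
    (h : ∀ l₁ l₂, l₁.Prime → l₂.Prime → l₁ ∣ m → l₂ ∣ m → l₁ = l₂) :
    ∃ l n, l.Prime ∧ 1 ≤ n ∧ m = l ^ n := by
  obtain ⟨l, hl, hlm⟩ := Nat.exists_prime_and_dvd (by omega : m ≠ 1)
  have h1 := Nat.eq_prime_pow_of_unique_prime_dvd (by omega : m ≠ 0)
    (fun {d} hd hdm => h d l hd hl hdm hlm)
  refine ⟨l, _, hl, ?_, h1⟩
  by_contra hcon
  have h2 : m.primeFactorsList.length = 0 := by omega
  rw [h2, pow_zero] at h1
  omega

/-- Shape of `d`. -/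
theorem shape_of_maximal {d p : ℕ} (hd : 3 ≤ d) (hp : p.Prime) (hp1 : p % 4 = 1) (hpd : ¬ p ∣ d)
    (hmax : MaximalInChar d p) :
    (d = 4 ∧ p % 8 = 5) ∨
      ∃ l n : ℕ, l.Prime ∧ l % 4 = 1 ∧ 1 ≤ n ∧ (d = l ^ n ∨ d = 2 * l ^ n) := by
  obtain ⟨k, hk, F, hFld, hcard, hmaxF⟩ := hmax
  obtain ⟨hrel, h4⟩ := rel_of_maximal hd hp hp1 hk hcard hmaxF
  obtain ⟨h1, h2⟩ := odd_primes_of_rel hp hp1 hpd hrel
  by_cases h4d : 4 ∣ d
  · left
    obtain ⟨h5, h8, h6⟩ := h4 h4d
    obtain ⟨e, he⟩ := h4d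
    have he1 : e = 1 := by
      by_contra hne
      obtain ⟨l, hl, hle⟩ := Nat.exists_prime_and_dvd hne
      have hld : l ∣ d := by
        rw [he]
        exact hle.mul_left _
      by_cases hl2 : l = 2
      · subst hl2
        obtain ⟨e', he'⟩ := hle
        exact h8 ⟨e', by rw [he, he']; ring⟩
      · obtain ⟨h9, h10⟩ := h1 l hl hl2 hld
        exact h6 l hl h9 hld h10
    exact ⟨by omega, h5⟩
  · right
    rcases Nat.even_or_odd d with hev | hodd
    · obtain ⟨e, he⟩ := hev
      have he2 : d = 2 * e := by omega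
      have heodd : e % 2 = 1 := by
        by_contra hcon
        exact h4d ⟨e / 2, by omega⟩
      obtain ⟨l, n, hl, hn, hln⟩ := eq_prime_pow_of_unique (m := e) (by omega) (by
        intro l₁ l₂ hl₁ hl₂ hd₁ hd₂
        apply h2 l₁ l₂ hl₁ hl₂
        · rintro rfl
          omega
        · rintro rfl
          omega
        · rw [he2]
          exact hd₁.mul_left _
        · rw [he2]
          exact hd₂.mul_left _)
      refine ⟨l, n, hl, ?_, hn, Or.inr (by rw [he2, hln])⟩
      have hle : l ∣ e := by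
        rw [hln]
        exact dvd_pow_self _ (by omega)
      apply (h1 l hl _ _).1
      · rintro rfl
        omega
      · rw [he2]
        exact hle.mul_left _
    · rw [Nat.odd_iff] at hodd
      obtain ⟨l, n, hl, hn, hln⟩ := eq_prime_pow_of_unique (m := d) (by omega) (by
        intro l₁ l₂ hl₁ hl₂ hd₁ hd₂
        apply h2 l₁ l₂ hl₁ hl₂
        · rintro rfl
          omega
        · rintro rfl
          omega
        · exact hd₁
        · exact hd₂)
      refine ⟨l, n, hl, ?_, hn, Or.inl hln⟩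
      have hle : l ∣ d := by
        rw [hln]
        exact dvd_pow_self _ (by omega)
      apply (h1 l hl _ hle).1
      rintro rfl
      omega

end Pool.Agent.Lib.MP_b95a42_nt
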